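import Mathlib

/-!
MP_c13a79_gt, coefficient theorem: the definitions.

`A` is a ring with involution (`StarRing`), `ε : ℤˣ` is `1` or `-1`.
* `Form A ε`: nonsingular `ε`-quadratic forms on free modules `A^ι` of finite rank (matrices `ψ`,
  to be read modulo `α - ε α*`, with `ψ + ε ψ*` invertible).
* `IsoQ ε ψ φ`: isometry (change of basis by a rectangular matrix with a two-sided inverse).
* `Form.Stab`: stable isometry (after adding hyperbolic forms).
* `L0 A ε`: the group of stable isometry classes, `L₀^h(A)` for `ε = 1`, `L₂^h(A)` for `ε = -1`.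
* `GR R π w`: the group ring `R[π]` with the involution `g ↦ w(g) g⁻¹`.
-/

set_option autoImplicit false

namespace Pool.Agent.H17.LTh

open Matrix

universe u v

section Iso

variable {A : Type u} [Ring A] [StarRing A]

/-- Isometry of the `ε`-quadratic forms `ψ` on `A^ι` and `φ` on `A^κ`. -/
def IsoQ (ε : ℤˣ) {ι κ : Type} [Fintype ι] [DecidableEq ι] [Fintype κ] [DecidableEq κ]
    (ψ : Matrix ι ι A) (φ : Matrix κ κ A) : Prop :=
  ∃ (g : Matrix ι κ A) (h : Matrix κ ι A) (α : Matrix κ κ A),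
    g * h = 1 ∧ h * g = 1 ∧ gᴴ * ψ * g = φ + (α - (ε : ℤ) • αᴴ)

/-- The hyperbolic form on `A^κ ⊕ A^κ`. -/
def hypM (A : Type u) [Ring A] (κ : Type) [DecidableEq κ] : Matrix (κ ⊕ κ) (κ ⊕ κ) A :=
  fromBlocks 0 1 0 0

/-- Orthogonal sum. -/
def dsum {ι κ : Type} (ψ : Matrix ι ι A) (φ : Matrix κ κ A) : Matrix (ι ⊕ κ) (ι ⊕ κ) A :=
  fromBlocks ψ 0 0 φ

/-- The `ε`-symmetrisation `ψ + ε ψ*`. -/
def sy (ε : ℤˣ) {ι : Type} (ψ : Matrix ι ι A) : Matrix ι ι A := ψ + (ε : ℤ) • ψᴴ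

variable {ε : ℤˣ} {ι κ μ ι' κ' : Type} [Fintype ι] [DecidableEq ι] [Fintype κ] [DecidableEq κ]
  [Fintype μ] [DecidableEq μ] [Fintype ι'] [DecidableEq ι'] [Fintype κ'] [DecidableEq κ']

theorem eps_eps : ((ε : ℤ) * (ε : ℤ)) = 1 := by
  rcases Int.units_eq_one_or ε with h | h <;> simp [h]

theorem eps_smul_smul {M : Type*} [AddCommGroup M] (x : M) : (ε : ℤ) • (ε : ℤ) • x = x := by
  rw [smul_smul, eps_eps, one_smul]

theorem IsoQ.refl (ψ : Matrix ι ι A) : IsoQ ε ψ ψ :=
  ⟨1, 1, 0, by simp, by simp, by simp⟩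

theorem IsoQ.symm {ψ : Matrix ι ι A} {φ : Matrix κ κ A} (h : IsoQ ε ψ φ) : IsoQ ε φ ψ := by
  obtain ⟨g, h, α, h1, h2, h3⟩ := h
  refine ⟨h, g, -(hᴴ * α * h), h2, h1, ?_⟩
  have h4 : φ = gᴴ * ψ * g - (α - (ε : ℤ) • αᴴ) := by rw [h3]; abel
  have h5 : hᴴ * (gᴴ * ψ * g) * h = ψ := by
    have : hᴴ * gᴴ = 1 := by rw [← conjTranspose_mul, h1, conjTranspose_one]
    calc hᴴ * (gᴴ * ψ * g) * h = (hᴴ * gᴴ) * ψ * (g * h) := by simp only [Matrix.mul_assoc]
      _ = ψ := by rw [this, h1, Matrix.one_mul, Matrix.mul_one]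
  rw [h4, Matrix.mul_sub, Matrix.sub_mul, h5, Matrix.mul_sub, Matrix.sub_mul]
  simp only [conjTranspose_neg, conjTranspose_mul, conjTranspose_conjTranspose, Matrix.mul_smul,
    Matrix.smul_mul, Matrix.mul_assoc, smul_neg]
  abel

theorem IsoQ.trans {ψ : Matrix ι ι A} {φ : Matrix κ κ A} {χ : Matrix μ μ A}
    (h : IsoQ ε ψ φ) (h' : IsoQ ε φ χ) : IsoQ ε ψ χ := by
  obtain ⟨g, h, α, h1, h2, h3⟩ := h
  obtain ⟨g', h', α', h1', h2', h3'⟩ := h'
  refine ⟨g * g', h' * h, α' + g'ᴴ * α * g', ?_, ?_, ?_⟩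
  · calc g * g' * (h' * h) = g * (g' * h') * h := by simp only [Matrix.mul_assoc]
      _ = 1 := by rw [h1', Matrix.mul_one, h1]
  · calc h' * h * (g * g') = h' * (h * g) * g' := by simp only [Matrix.mul_assoc]
      _ = 1 := by rw [h2, Matrix.mul_one, h2']
  · have : (g * g')ᴴ * ψ * (g * g') = g'ᴴ * (gᴴ * ψ * g) * g' := by
      simp only [conjTranspose_mul, Matrix.mul_assoc]
    rw [this, h3, Matrix.mul_add, Matrix.add_mul, h3', Matrix.mul_sub, Matrix.sub_mul]
    simp only [conjTranspose_add, conjTranspose_mul, conjTranspose_conjTranspose, Matrix.mul_smul,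
      Matrix.smul_mul, Matrix.mul_assoc, smul_add]
    abel

theorem IsoQ.of_eq {ψ φ : Matrix ι ι A} (h : ψ = φ) : IsoQ ε ψ φ := h ▸ IsoQ.refl ψ

/-- Adding `α - ε α*` does not change the form. -/
theorem IsoQ.add (ψ α : Matrix ι ι A) : IsoQ ε (ψ + (α - (ε : ℤ) • αᴴ)) ψ :=
  ⟨1, 1, α, by simp, by simp, by simp⟩

theorem IsoQ.reindex (e : κ ≃ ι) (ψ : Matrix ι ι A) : IsoQ ε ψ (ψ.submatrix e e) := by
  refine ⟨(1 : Matrix ι ι A).submatrix id e, (1 : Matrix ι ι A).submatrix e id, 0, ?_, ?_, ?_⟩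
  · rw [submatrix_mul_equiv]; simp
  · rw [← submatrix_mul _ _ _ id _ Function.bijective_id]; simp
  · rw [conjTranspose_submatrix]
    rw [← submatrix_id_id ψ, ← submatrix_mul _ _ _ id _ Function.bijective_id,
      ← submatrix_mul _ _ _ id _ Function.bijective_id]
    simp

theorem IsoQ.dsum {ψ : Matrix ι ι A} {φ : Matrix κ κ A} {ψ' : Matrix ι' ι' A}
    {φ' : Matrix κ' κ' A} (h : IsoQ ε ψ φ) (h' : IsoQ ε ψ' φ') :
    IsoQ ε (dsum ψ ψ') (dsum φ φ') := by
  obtain ⟨g, h, α, h1, h2, h3⟩ := h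
  obtain ⟨g', h', α', h1', h2', h3'⟩ := h'
  refine ⟨fromBlocks g 0 0 g', fromBlocks h 0 0 h', fromBlocks α 0 0 α', ?_, ?_, ?_⟩
  · simp [fromBlocks_multiply, h1, h1', fromBlocks_one]
  · simp [fromBlocks_multiply, h2, h2', fromBlocks_one]
  · simp only [LTh.dsum, fromBlocks_conjTranspose, fromBlocks_multiply, conjTranspose_zero,
      Matrix.zero_mul, Matrix.mul_zero, add_zero, zero_add, h3, h3', fromBlocks_smul, smul_zero,
      sub_eq_add_neg, fromBlocks_neg, neg_zero, fromBlocks_add]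

theorem dsum_comm (ψ : Matrix ι ι A) (φ : Matrix κ κ A) : IsoQ ε (dsum ψ φ) (dsum φ ψ) := by
  refine (IsoQ.reindex (Equiv.sumComm κ ι) (dsum ψ φ)).trans (IsoQ.of_eq ?_)
  ext i j
  rcases i with i | i <;> rcases j with j | j <;> rfl

theorem dsum_assoc (ψ : Matrix ι ι A) (φ : Matrix κ κ A) (χ : Matrix μ μ A) :
    IsoQ ε (dsum (dsum ψ φ) χ) (dsum ψ (dsum φ χ)) := by
  refine (IsoQ.reindex (Equiv.sumAssoc ι κ μ).symm _).trans (IsoQ.of_eq ?_)
  ext i j
  rcases i with i | i | i <;> rcases j with j | j | j <;> rfl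

theorem IsoQ.empty [IsEmpty ι] [IsEmpty κ] (ψ : Matrix ι ι A) (φ : Matrix κ κ A) : IsoQ ε ψ φ :=
  ⟨0, 0, 0, by ext i; exact isEmptyElim i, by ext i; exact isEmptyElim i,
    by ext i; exact isEmptyElim i⟩

/-- Forms of rank zero may be dropped. -/
theorem dsum_empty [IsEmpty κ] (ψ : Matrix ι ι A) (φ : Matrix κ κ A) : IsoQ ε (dsum ψ φ) ψ := by
  refine (IsoQ.reindex (Equiv.sumEmpty ι κ).symm _).trans (IsoQ.of_eq ?_)
  ext i j
  rfl

theorem hyp_dsum (κ μ : Type) [Fintype κ] [DecidableEq κ] [Fintype μ] [DecidableEq μ] :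
    IsoQ ε (dsum (hypM A κ) (hypM A μ)) (hypM A (κ ⊕ μ)) := by
  refine (IsoQ.reindex (Equiv.sumSumSumComm κ κ μ μ).symm _).trans (IsoQ.of_eq ?_)
  ext i j
  rcases i with (i | i) | (i | i) <;> rcases j with (j | j) | (j | j) <;>
    simp [dsum, hypM, Matrix.one_apply]

theorem sy_dsum (ψ : Matrix ι ι A) (φ : Matrix κ κ A) :
    sy ε (dsum ψ φ) = dsum (sy ε ψ) (sy ε φ) := by
  simp [sy, dsum, fromBlocks_conjTranspose, fromBlocks_smul, fromBlocks_add]

omit [StarRing A] in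
theorem isUnit_dsum {ψ : Matrix ι ι A} {φ : Matrix κ κ A} (h : IsUnit ψ) (h' : IsUnit φ) :
    IsUnit (dsum ψ φ) := by
  obtain ⟨u, rfl⟩ := h
  obtain ⟨v, rfl⟩ := h'
  refine ⟨⟨dsum u.1 v.1, dsum u⁻¹.1 v⁻¹.1, ?_, ?_⟩, rfl⟩
  · simp [dsum, fromBlocks_multiply, fromBlocks_one]
  · simp [dsum, fromBlocks_multiply, fromBlocks_one]

theorem isUnit_sy_dsum {ψ : Matrix ι ι A} {φ : Matrix κ κ A} (h : IsUnit (sy ε ψ))
    (h' : IsUnit (sy ε φ)) : IsUnit (sy ε (dsum ψ φ)) := by
  rw [sy_dsum]; exact isUnit_dsum h h'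

theorem isUnit_sy_neg {ψ : Matrix ι ι A} (h : IsUnit (sy ε ψ)) : IsUnit (sy ε (-ψ)) := by
  have : sy ε (-ψ) = -sy ε ψ := by simp [sy]; abel
  rw [this]; exact h.neg

theorem isUnit_sy_hyp (κ : Type) [Fintype κ] [DecidableEq κ] :
    IsUnit (sy ε (hypM A κ)) := by
  have h : sy ε (hypM A κ) = fromBlocks 0 1 ((ε : ℤ) • 1) 0 := by
    simp [sy, hypM, fromBlocks_conjTranspose, fromBlocks_smul, fromBlocks_add]
  rw [h]
  refine ⟨⟨fromBlocks 0 1 ((ε : ℤ) • 1) 0, fromBlocks 0 ((ε : ℤ) • 1) 1 0, ?_, ?_⟩, rfl⟩ <;>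
  · simp only [fromBlocks_multiply, Matrix.mul_smul, Matrix.mul_one, Matrix.mul_zero,
      smul_smul, eps_eps, one_smul, smul_zero, add_zero, zero_add, fromBlocks_one]

/-- LAGRANGIAN LEMMA: a form with a free Lagrangian which has a free complement is hyperbolic. -/
theorem lag {α : Matrix ι ι A} {b : Matrix ι κ A} {c : Matrix κ ι A} {d : Matrix κ κ A}
    (B' : Matrix κ ι A) (h1 : (b + (ε : ℤ) • cᴴ) * B' = 1) (h2 : B' * (b + (ε : ℤ) • cᴴ) = 1) :
    IsoQ ε (fromBlocks (α - (ε : ℤ) • αᴴ) b c d) (hypM A ι) := by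
  have s1 : IsoQ ε (fromBlocks (α - (ε : ℤ) • αᴴ) b c d)
      (fromBlocks 0 (b + (ε : ℤ) • cᴴ) 0 d) := by
    refine ⟨1, 1, fromBlocks α 0 c 0, by simp, by simp, ?_⟩
    simp only [conjTranspose_one, Matrix.one_mul, Matrix.mul_one, fromBlocks_conjTranspose,
      conjTranspose_zero, fromBlocks_smul, smul_zero, sub_eq_add_neg, fromBlocks_neg,
      fromBlocks_add, zero_add, add_zero, neg_zero]
    congr 1
    abel
  refine s1.trans ⟨fromBlocks 1 (-(B'ᴴ * dᴴ * B')) 0 B',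
    fromBlocks 1 (B'ᴴ * dᴴ) 0 (b + (ε : ℤ) • cᴴ), 0, ?_, ?_, ?_⟩
  · rw [fromBlocks_multiply]
    simp [h2, Matrix.mul_assoc]
  · rw [fromBlocks_multiply]
    simp [h1, Matrix.mul_assoc]
  · simp only [fromBlocks_conjTranspose, fromBlocks_multiply, conjTranspose_one,
      conjTranspose_zero, Matrix.one_mul, Matrix.mul_one, Matrix.zero_mul, Matrix.mul_zero,
      zero_add, add_zero, conjTranspose_neg, conjTranspose_mul, conjTranspose_conjTranspose,
      smul_zero, sub_zero, h1, hypM]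
    congr 1
    rw [Matrix.neg_mul, Matrix.mul_assoc B'ᴴ, Matrix.mul_assoc d, h2, Matrix.mul_one]
    simp

/-- `ψ ⊕ -ψ` is hyperbolic. -/
theorem dsum_neg {ψ : Matrix ι ι A} (h : IsUnit (sy ε ψ)) :
    IsoQ ε (dsum ψ (-ψ)) (hypM A ι) := by
  obtain ⟨u, hu⟩ := h
  have s1 : IsoQ ε (dsum ψ (-ψ)) (fromBlocks (0 - (ε : ℤ) • (0 : Matrix ι ι A)ᴴ) (-ψ) (-ψ) (-ψ)) := by
    refine ⟨fromBlocks 1 0 1 1, fromBlocks 1 0 (-1) 1, 0, ?_, ?_, ?_⟩
    · simp [fromBlocks_multiply, fromBlocks_one]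
    · simp [fromBlocks_multiply, fromBlocks_one]
    · simp [LTh.dsum, fromBlocks_multiply, fromBlocks_conjTranspose]
  refine s1.trans (lag (-(u⁻¹.1)) ?_ ?_)
  · have : -ψ + (ε : ℤ) • (-ψ)ᴴ = -u.1 := by rw [hu]; simp [sy]; abel
    rw [this]; simp
  · have : -ψ + (ε : ℤ) • (-ψ)ᴴ = -u.1 := by rw [hu]; simp [sy]; abel
    rw [this]; simp

end Iso

section Group

/-- Nonsingular `ε`-quadratic forms on free modules of finite rank. -/
structure Form (A : Type u) [Ring A] [StarRing A] (ε : ℤˣ) : Type (max 1 u) where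
  /-- the index set of a basis -/
  ι : Type
  [fin : Fintype ι]
  [dec : DecidableEq ι]
  /-- the matrix, to be read modulo `α - ε α*` -/
  ψ : Matrix ι ι A
  nonsing : IsUnit (sy ε ψ)

attribute [instance] Form.fin Form.dec

variable {A : Type u} [Ring A] [StarRing A] {ε : ℤˣ}

/-- Orthogonal sum of forms. -/
def Form.sum (X Y : Form A ε) : Form A ε where
  ι := X.ι ⊕ Y.ι
  ψ := dsum X.ψ Y.ψ
  nonsing := isUnit_sy_dsum X.nonsing Y.nonsing

/-- The hyperbolic form of rank `2|κ|`. -/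
def Form.hyp (A : Type u) [Ring A] [StarRing A] (ε : ℤˣ) (κ : Type) [Fintype κ] [DecidableEq κ] :
    Form A ε where
  ι := κ ⊕ κ
  ψ := hypM A κ
  nonsing := isUnit_sy_hyp κ

/-- The negative of a form. -/
def Form.neg (X : Form A ε) : Form A ε where
  ι := X.ι
  ψ := -X.ψ
  nonsing := isUnit_sy_neg X.nonsing

/-- Stable isometry: `X ⊕ H_m ≅ Y ⊕ H_n` with the hyperbolic forms of ranks `2m`, `2n`. -/
def Form.Stab (X Y : Form A ε) : Prop :=
  ∃ m n : ℕ, IsoQ ε (dsum X.ψ (hypM A (Fin m))) (dsum Y.ψ (hypM A (Fin n)))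

theorem hypM_equiv {κ μ : Type} [Fintype κ] [DecidableEq κ] [Fintype μ] [DecidableEq μ]
    (e : κ ≃ μ) : IsoQ ε (hypM A κ) (hypM A μ) := by
  refine (IsoQ.reindex (Equiv.sumCongr e e).symm _).trans (IsoQ.of_eq ?_)
  ext i j
  rcases i with i | i <;> rcases j with j | j <;> simp [hypM, Matrix.one_apply]

theorem Form.Stab.of_iso {X Y : Form A ε} (h : IsoQ ε X.ψ Y.ψ) : X.Stab Y :=
  ⟨0, 0, h.dsum (IsoQ.refl _)⟩

theorem Form.Stab.refl (X : Form A ε) : X.Stab X := .of_iso (IsoQ.refl _)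

theorem Form.Stab.symm {X Y : Form A ε} (h : X.Stab Y) : Y.Stab X := by
  obtain ⟨m, n, h⟩ := h
  exact ⟨n, m, h.symm⟩

/-- Stabilisation with hyperbolic forms over arbitrary finite index sets. -/
theorem Form.Stab.of_types {X Y : Form A ε} {κ μ : Type} [Fintype κ] [DecidableEq κ] [Fintype μ]
    [DecidableEq μ] (h : IsoQ ε (dsum X.ψ (hypM A κ)) (dsum Y.ψ (hypM A μ))) : X.Stab Y :=
  ⟨Fintype.card κ, Fintype.card μ,
    (((IsoQ.refl _).dsum (hypM_equiv (Fintype.equivFin κ).symm)).trans h).trans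
      ((IsoQ.refl _).dsum (hypM_equiv (Fintype.equivFin μ)))⟩

theorem Form.Stab.trans {X Y Z : Form A ε} (h : X.Stab Y) (h' : Y.Stab Z) : X.Stab Z := by
  obtain ⟨m, n, h⟩ := h
  obtain ⟨m', n', h'⟩ := h'
  -- X + H_m + H_m' ~ Y + H_n + H_m' ~ Y + H_m' + H_n ~ Z + H_n' + H_n
  refine Form.Stab.of_types (κ := Fin m ⊕ Fin m') (μ := Fin n' ⊕ Fin n) ?_
  have e1 : IsoQ ε (dsum X.ψ (hypM A (Fin m ⊕ Fin m')))
      (dsum (dsum X.ψ (hypM A (Fin m))) (hypM A (Fin m'))) :=
    ((IsoQ.refl _).dsum (hyp_dsum (Fin m) (Fin m')).symm).trans (dsum_assoc _ _ _).symm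
  have e2 : IsoQ ε (dsum (dsum Y.ψ (hypM A (Fin n))) (hypM A (Fin m')))
      (dsum (dsum Y.ψ (hypM A (Fin m'))) (hypM A (Fin n))) :=
    (dsum_assoc _ _ _).trans (((IsoQ.refl _).dsum (dsum_comm _ _)).trans (dsum_assoc _ _ _).symm)
  have e3 : IsoQ ε (dsum (dsum Z.ψ (hypM A (Fin n'))) (hypM A (Fin n)))
      (dsum Z.ψ (hypM A (Fin n' ⊕ Fin n))) :=
    (dsum_assoc _ _ _).trans ((IsoQ.refl _).dsum (hyp_dsum (Fin n') (Fin n)))
  exact e1.trans ((h.dsum (IsoQ.refl _)).trans (e2.trans ((h'.dsum (IsoQ.refl _)).trans e3)))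

theorem Form.Stab.sum {X X' Y Y' : Form A ε} (h : X.Stab X') (h' : Y.Stab Y') :
    (X.sum Y).Stab (X'.sum Y') := by
  obtain ⟨m, n, h⟩ := h
  obtain ⟨m', n', h'⟩ := h'
  refine Form.Stab.of_types (κ := Fin m ⊕ Fin m') (μ := Fin n ⊕ Fin n') ?_
  have key : ∀ (U V : Form A ε) (a b : ℕ),
      IsoQ ε (dsum (U.sum V).ψ (hypM A (Fin a ⊕ Fin b)))
        (dsum (dsum U.ψ (hypM A (Fin a))) (dsum V.ψ (hypM A (Fin b)))) := by
    intro U V a b
    refine ((IsoQ.refl _).dsum (hyp_dsum (Fin a) (Fin b)).symm).trans ?_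
    refine (dsum_assoc _ _ _).trans ?_
    refine IsoQ.trans ?_ (dsum_assoc _ _ _).symm
    refine (IsoQ.refl _).dsum ?_
    refine (dsum_assoc _ _ _).symm.trans ?_
    refine ((dsum_comm _ _).dsum (IsoQ.refl _)).trans ?_
    exact dsum_assoc _ _ _
  exact (key X Y m m').trans ((h.dsum h').trans (key X' Y' n n').symm)

/-- Stable isometry as a setoid. -/
instance stabSetoid (A : Type u) [Ring A] [StarRing A] (ε : ℤˣ) : Setoid (Form A ε) where
  r := Form.Stab
  iseqv := ⟨Form.Stab.refl, Form.Stab.symm, Form.Stab.trans⟩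

/-- The group `L₀^ε(A)`: stable isometry classes of nonsingular `ε`-quadratic forms on free
modules of finite rank over `A`, with orthogonal sum. -/
def L0 (A : Type u) [Ring A] [StarRing A] (ε : ℤˣ) : Type (max 1 u) :=
  Quotient (stabSetoid A ε)

/-- The class of a form. -/
def Form.cls (X : Form A ε) : L0 A ε := Quotient.mk _ X

theorem Form.cls_eq {X Y : Form A ε} : X.cls = Y.cls ↔ X.Stab Y := Quotient.eq

/-- The form of rank zero. -/
def Form.zero (A : Type u) [Ring A] [StarRing A] (ε : ℤˣ) : Form A ε where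
  ι := Empty
  ψ := 0
  nonsing := isUnit_of_subsingleton _

instance : Zero (L0 A ε) := ⟨(Form.zero A ε).cls⟩

instance : Add (L0 A ε) :=
  ⟨Quotient.map₂ Form.sum fun _ _ h _ _ h' => Form.Stab.sum h h'⟩

theorem IsoQ.neg {ι κ : Type} [Fintype ι] [DecidableEq ι] [Fintype κ] [DecidableEq κ]
    {ψ : Matrix ι ι A} {φ : Matrix κ κ A} (h : IsoQ ε ψ φ) : IsoQ ε (-ψ) (-φ) := by
  obtain ⟨g, h, α, h1, h2, h3⟩ := h
  refine ⟨g, h, -α, h1, h2, ?_⟩
  rw [Matrix.mul_neg, Matrix.neg_mul, h3]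
  simp only [conjTranspose_neg, smul_neg]
  abel

theorem hypM_neg (κ : Type) [Fintype κ] [DecidableEq κ] : IsoQ ε (-hypM A κ) (hypM A κ) := by
  refine ⟨fromBlocks 1 0 0 (-1), fromBlocks 1 0 0 (-1), 0, ?_, ?_, ?_⟩
  · simp [fromBlocks_multiply]
  · simp [fromBlocks_multiply]
  · simp [hypM, fromBlocks_multiply, fromBlocks_conjTranspose, fromBlocks_neg]

theorem Form.Stab.neg {X Y : Form A ε} (h : X.Stab Y) : X.neg.Stab Y.neg := by
  obtain ⟨m, n, h⟩ := h
  have key : ∀ (U : Form A ε) (a : ℕ), IsoQ ε (dsum U.neg.ψ (hypM A (Fin a)))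
      (-(dsum U.ψ (hypM A (Fin a)))) := by
    intro U a
    refine ((IsoQ.refl _).dsum (hypM_neg (Fin a)).symm).trans (IsoQ.of_eq ?_)
    simp only [LTh.dsum, fromBlocks_neg, Form.neg, neg_zero]
    rfl
  exact ⟨m, n, (key X m).trans (h.neg.trans (key Y n).symm)⟩

instance : Neg (L0 A ε) := ⟨Quotient.map Form.neg fun _ _ h => Form.Stab.neg h⟩

theorem Form.cls_sum (X Y : Form A ε) : (X.sum Y).cls = X.cls + Y.cls := rfl

theorem Form.cls_neg (X : Form A ε) : X.neg.cls = -X.cls := rfl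

theorem Form.cls_hyp (κ : Type) [Fintype κ] [DecidableEq κ] : (Form.hyp A ε κ).cls = 0 :=
  Form.cls_eq.2 (.of_types (κ := Empty) (μ := κ)
    ((dsum_empty _ _).trans (((dsum_comm _ _).trans (dsum_empty (κ := Empty) _ _)).symm)))

instance : AddCommGroup (L0 A ε) where
  add_assoc := by
    rintro ⟨X⟩ ⟨Y⟩ ⟨Z⟩
    exact Form.cls_eq.2 (.of_iso (dsum_assoc _ _ _))
  zero_add := by
    rintro ⟨X⟩
    refine Form.cls_eq.2 (.of_iso ?_)
    exact (dsum_comm _ _).trans (dsum_empty (κ := Empty) _ _)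
  add_zero := by
    rintro ⟨X⟩
    exact Form.cls_eq.2 (.of_iso (dsum_empty (κ := Empty) _ _))
  nsmul := nsmulRec
  zsmul := zsmulRec
  neg_add_cancel := by
    rintro ⟨X⟩
    change (X.neg.sum X).cls = 0
    rw [← Form.cls_hyp X.ι]
    exact Form.cls_eq.2 (.of_iso ((dsum_comm _ _).trans (dsum_neg X.nonsing)))
  add_comm := by
    rintro ⟨X⟩ ⟨Y⟩
    exact Form.cls_eq.2 (.of_iso (dsum_comm _ _))

end Group

section Map

variable {A : Type u} [Ring A] [StarRing A] {B : Type v} [Ring B] [StarRing B] {ε : ℤˣ}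
  {ι κ : Type} [Fintype ι] [DecidableEq ι] [Fintype κ] [DecidableEq κ]

theorem map_star_eq (f : A →+* B) (hf : ∀ a, f (star a) = star (f a)) {ι κ : Type}
    (M : Matrix ι κ A) : (Mᴴ).map f = (M.map f)ᴴ := by
  ext i j; simp [hf]

omit [Fintype ι] [DecidableEq ι] in
theorem map_sub_eps (f : A →+* B) (hf : ∀ a, f (star a) = star (f a)) (α : Matrix ι ι A) :
    (α - (ε : ℤ) • αᴴ).map f = α.map f - (ε : ℤ) • (α.map f)ᴴ := by
  ext i j
  simp [-zsmul_eq_mul, hf]

omit [Fintype ι] [DecidableEq ι] in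
theorem sy_map (f : A →+* B) (hf : ∀ a, f (star a) = star (f a)) (ψ : Matrix ι ι A) :
    sy ε (ψ.map f) = (sy ε ψ).map f := by
  ext i j
  simp [-zsmul_eq_mul, hf, sy]

theorem IsoQ.map (f : A →+* B) (hf : ∀ a, f (star a) = star (f a)) {ψ : Matrix ι ι A}
    {φ : Matrix κ κ A} (h : IsoQ ε ψ φ) : IsoQ ε (ψ.map f) (φ.map f) := by
  obtain ⟨g, h, α, h1, h2, h3⟩ := h
  refine ⟨g.map f, h.map f, α.map f, ?_, ?_, ?_⟩
  · rw [← Matrix.map_mul, h1, Matrix.map_one _ (map_zero f) (map_one f)]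
  · rw [← Matrix.map_mul, h2, Matrix.map_one _ (map_zero f) (map_one f)]
  · rw [← map_star_eq f hf, ← Matrix.map_mul, ← Matrix.map_mul, h3, Matrix.map_add _ (map_add f),
      map_sub_eps f hf]

omit [StarRing A] [StarRing B] in
theorem hypM_map (f : A →+* B) (κ : Type) [DecidableEq κ] : (hypM A κ).map f = hypM B κ := by
  simp [hypM, fromBlocks_map, Matrix.map_one]

omit [StarRing A] [StarRing B] in
theorem dsum_map (f : A →+* B) {ι κ : Type} (ψ : Matrix ι ι A) (φ : Matrix κ κ A) :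
    (dsum ψ φ).map f = dsum (ψ.map f) (φ.map f) := by
  simp [dsum, fromBlocks_map]

/-- Base change of forms. -/
def Form.map (f : A →+* B) (hf : ∀ a, f (star a) = star (f a)) (X : Form A ε) : Form B ε where
  ι := X.ι
  ψ := X.ψ.map f
  nonsing := by
    rw [sy_map f hf]
    exact X.nonsing.map (f.mapMatrix)

theorem Form.Stab.map (f : A →+* B) (hf : ∀ a, f (star a) = star (f a)) {X Y : Form A ε}
    (h : X.Stab Y) : (X.map f hf).Stab (Y.map f hf) := by
  obtain ⟨m, n, h⟩ := h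
  refine ⟨m, n, ?_⟩
  have h' := h.map f hf
  rw [dsum_map, dsum_map, hypM_map, hypM_map] at h'
  exact h'

/-- The homomorphism `L₀(A) → L₀(B)` induced by a homomorphism of rings with involution. -/
def L0.map (f : A →+* B) (hf : ∀ a, f (star a) = star (f a)) : L0 A ε →+ L0 B ε where
  toFun := Quotient.map (Form.map f hf) fun _ _ h => Form.Stab.map f hf h
  map_zero' := by
    refine Form.cls_eq.2 (.of_iso (IsoQ.of_eq ?_))
    ext i j
    exact i.elim
  map_add' := by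
    rintro ⟨X⟩ ⟨Y⟩
    exact Form.cls_eq.2 (.of_iso (IsoQ.of_eq (dsum_map f _ _)))

theorem L0.map_cls (f : A →+* B) (hf : ∀ a, f (star a) = star (f a)) (X : Form A ε) :
    L0.map f hf X.cls = (X.map f hf).cls := rfl

end Map

noncomputable section GroupRing

/-- The group ring `R[π]`; the character `w` determines the involution `g ↦ w(g) g⁻¹`. -/
def GR (R : Type v) [CommRing R] (π : Type u) [Group π] (_w : π →* ℤˣ) : Type (max u v) :=
  MonoidAlgebra R π

variable (R : Type v) [CommRing R] (π : Type u) [Group π] (w : π →* ℤˣ)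

instance : Ring (GR R π w) := inferInstanceAs (Ring (MonoidAlgebra R π))

instance {k : Type*} [CommSemiring k] [Algebra k R] : Algebra k (GR R π w) :=
  inferInstanceAs (Algebra k (MonoidAlgebra R π))

variable {R π w}

/-- The element `r g` of the group ring. -/
def GR.single (g : π) (r : R) : GR R π w := MonoidAlgebra.single g r

/-- The coefficients of an element of the group ring. -/
def GR.co (x : GR R π w) : π →₀ R := MonoidAlgebra.coeff (R := R) (M := π) x

theorem GR.ext {x y : GR R π w} (h : ∀ g, x.co g = y.co g) : x = y :=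
  MonoidAlgebra.coeff_injective (Finsupp.ext h)

theorem GR.co_single (g h : π) (r : R) [Decidable (g = h)] :
    (GR.single g r : GR R π w).co h = if g = h then r else 0 := by
  change (Finsupp.single g r) h = _
  rw [Finsupp.single_apply]

@[simp] theorem GR.co_add (x y : GR R π w) : (x + y).co = x.co + y.co := rfl

@[simp] theorem GR.co_zero : (0 : GR R π w).co = 0 := rfl

theorem GR.single_mul_single (g h : π) (r s : R) :
    (GR.single g r * GR.single h s : GR R π w) = GR.single (g * h) (r * s) :=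
  MonoidAlgebra.single_mul_single _ _ _ _

theorem GR.single_add (g : π) (r s : R) :
    (GR.single g (r + s) : GR R π w) = GR.single g r + GR.single g s :=
  MonoidAlgebra.single_add _ _ _

theorem GR.single_zero (g : π) : (GR.single g 0 : GR R π w) = 0 :=
  MonoidAlgebra.single_zero _

theorem GR.one_def : (1 : GR R π w) = GR.single 1 1 := rfl

/-- Induction for the group ring. -/
@[elab_as_elim]
theorem GR.induction {p : GR R π w → Prop} (x : GR R π w) (zero : p 0)
    (single : ∀ g r, p (GR.single g r)) (add : ∀ x y, p x → p y → p (x + y)) : p x :=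
  MonoidAlgebra.induction_linear (motive := p) x zero add single

/-- The involution `∑ x_g g ↦ ∑ w(g) x_g g⁻¹` as an additive map. -/
def GR.starAdd : GR R π w →+ GR R π w where
  toFun x := x.co.sum fun g r => GR.single g⁻¹ (((w g : ℤˣ) : ℤ) • r)
  map_zero' := by simp
  map_add' x y := by
    rw [GR.co_add]
    refine Finsupp.sum_add_index' (fun g => ?_) (fun g r s => ?_)
    · rw [smul_zero, GR.single_zero]
    · rw [smul_add, GR.single_add]

theorem GR.starAdd_single (g : π) (r : R) :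
    GR.starAdd (GR.single g r : GR R π w) = GR.single g⁻¹ (((w g : ℤˣ) : ℤ) • r) := by
  change (Finsupp.single g r).sum (fun g r => GR.single g⁻¹ (((w g : ℤˣ) : ℤ) • r)) = _
  rw [Finsupp.sum_single_index]
  rw [smul_zero, GR.single_zero]

/-- The involution of the group ring: `star (∑ x_g g) = ∑ w(g) x_g g⁻¹`. -/
instance : StarRing (GR R π w) where
  star x := GR.starAdd x
  star_involutive x := by
    change GR.starAdd (GR.starAdd x) = x
    induction x using GR.induction with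
    | zero => rw [map_zero, map_zero]
    | single g r =>
      rw [GR.starAdd_single, GR.starAdd_single, inv_inv, smul_smul, map_inv, Int.units_inv_eq_self,
        ← Units.val_mul, Int.units_mul_self, Units.val_one, one_smul]
    | add x y hx hy => rw [map_add, map_add, hx, hy]
  star_mul x y := by
    change GR.starAdd (x * y) = GR.starAdd y * GR.starAdd x
    induction x using GR.induction with
    | zero => rw [zero_mul, map_zero, mul_zero]
    | single g r =>
      induction y using GR.induction with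
      | zero => rw [mul_zero, map_zero, zero_mul]
      | single h s =>
        rw [GR.single_mul_single, GR.starAdd_single, GR.starAdd_single, GR.starAdd_single,
          GR.single_mul_single, _root_.mul_inv_rev, map_mul, Units.val_mul, smul_mul_smul_comm,
          mul_comm s r, mul_comm ((w h : ℤˣ) : ℤ)]
      | add y z hy hz => rw [mul_add, map_add, map_add, hy, hz, add_mul]
    | add x z hx hz => rw [add_mul, map_add, map_add, hx, hz, mul_add]
  star_add x y := map_add _ _ _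

theorem GR.star_single (g : π) (r : R) :
    star (GR.single g r : GR R π w) = GR.single g⁻¹ (((w g : ℤˣ) : ℤ) • r) :=
  GR.starAdd_single g r

/-- The homomorphism `R[π] → S[π]` given by a homomorphism `R → S`. -/
def GR.map {S : Type*} [CommRing S] (f : R →+* S) : GR R π w →+* GR S π w :=
  MonoidAlgebra.mapRingHom π f

theorem GR.map_single {S : Type*} [CommRing S] (f : R →+* S) (g : π) (r : R) :
    GR.map f (GR.single g r : GR R π w) = GR.single g (f r) :=
  MonoidAlgebra.mapRingHom_single _ _ _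

theorem GR.co_map {S : Type*} [CommRing S] (f : R →+* S) (x : GR R π w) (g : π) :
    (GR.map f x).co g = f (x.co g) :=
  MonoidAlgebra.coeff_mapRingHom _ _ _

theorem GR.map_star {S : Type*} [CommRing S] (f : R →+* S) (x : GR R π w) :
    GR.map f (star x) = star (GR.map f x) := by
  induction x using GR.induction with
  | zero => rw [star_zero, map_zero, star_zero]
  | single g r => rw [GR.star_single, GR.map_single, GR.map_single, GR.star_single, map_zsmul]
  | add x y hx hy => rw [star_add, map_add, map_add, star_add, hx, hy]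

/-- The homomorphism `L₀^ε(R[π]) → L₀^ε(S[π])` given by a homomorphism `R → S`. -/
def L0.co {ε : ℤˣ} {S : Type*} [CommRing S] (f : R →+* S) :
    L0 (GR R π w) ε →+ L0 (GR S π w) ε :=
  L0.map (GR.map f) (GR.map_star f)

end GroupRing

end Pool.Agent.H17.LTh
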