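import Pool.Agent.H17.L0.Model

/-!
MP_c13a79_gt, coefficient theorem: rational points near a real point (module Apx; Mathlib only).

PLAN. `den`: common denominator of finitely many fractions
(`IsLocalization.exist_integer_multiples_of_finset`, or product of the denominators): each `t ∈ F`
is `u/d`, the image of `u * invSelf` under `Localization.Away d → Kf r`; injectivity of `awayTo`:
both are localisations of a domain. `apx`: `P(c) ≠ 0`; by continuity of `MvPolynomial.eval` there is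
a ball around `c` in `Fin r → ℝ` where `P ≠ 0`; `ℚ^r` is dense; the segment from `c0` to `c` lies in
the ball (convex).
-/

set_option autoImplicit false

namespace Pool.Agent.H17.LTh

open Polynomial

noncomputable section

/-- The homomorphism from the localisation to the field of fractions. -/
def awayTo {r : ℕ} {d : MvPolynomial (Fin r) ℚ} (hd : d ≠ 0) : Localization.Away d →+* Kf r :=
  IsLocalization.Away.lift (S := Localization.Away d) (g := algebraMap (MvPolynomial (Fin r) ℚ) (Kf r)) d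
    (by
      rw [isUnit_iff_ne_zero]
      simpa using hd)

theorem awayTo_algebraMap {r : ℕ} {d : MvPolynomial (Fin r) ℚ} (hd : d ≠ 0)
    (u : MvPolynomial (Fin r) ℚ) :
    awayTo hd (algebraMap _ _ u) = algebraMap (MvPolynomial (Fin r) ℚ) (Kf r) u :=
  IsLocalization.Away.lift_eq _ _ _

theorem awayTo_inj {r : ℕ} {d : MvPolynomial (Fin r) ℚ} (hd : d ≠ 0) :
    Function.Injective (awayTo hd) := by
  have h1 : Function.Injective (algebraMap (MvPolynomial (Fin r) ℚ) (Localization.Away d)) :=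
    IsLocalization.injective _ (powers_le_nonZeroDivisors_of_noZeroDivisors hd)
  have h2 : Function.Injective (algebraMap (MvPolynomial (Fin r) ℚ) (Kf r)) :=
    IsFractionRing.injective _ _
  rw [injective_iff_map_eq_zero]
  intro x hx
  obtain ⟨n, u, hu⟩ := IsLocalization.Away.surj d x
  have h3 := congrArg (awayTo hd) hu
  rw [map_mul, hx, zero_mul, awayTo_algebraMap] at h3
  have h4 : u = 0 := h2 (by rw [← h3, map_zero])
  rw [h4, map_zero] at hu
  have h5 : IsUnit ((algebraMap (MvPolynomial (Fin r) ℚ) (Localization.Away d) d) ^ n) :=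
    (IsLocalization.Away.algebraMap_isUnit d).pow n
  exact (h5.mul_left_eq_zero).1 hu

/-- Finitely many fractions have a common denominator. -/
theorem den {r : ℕ} (F : Finset (Kf r)) : ∃ (d : MvPolynomial (Fin r) ℚ) (hd : d ≠ 0),
    ∀ (e : MvPolynomial (Fin r) ℚ) (he : e ≠ 0), d ∣ e → ∀ t ∈ F, t ∈ Set.range (awayTo he) := by
  obtain ⟨b, hb⟩ := IsLocalization.exist_integer_multiples_of_finset
    (nonZeroDivisors (MvPolynomial (Fin r) ℚ)) F
  refine ⟨b, nonZeroDivisors.coe_ne_zero b, ?_⟩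
  intro e he hde t ht
  obtain ⟨c, hc⟩ := hde
  obtain ⟨u, hu⟩ := hb t ht
  refine ⟨algebraMap _ _ (c * u) * IsLocalization.Away.invSelf e, ?_⟩
  have h2 : Function.Injective (algebraMap (MvPolynomial (Fin r) ℚ) (Kf r)) :=
    IsFractionRing.injective _ _
  have h3 : algebraMap (MvPolynomial (Fin r) ℚ) (Kf r) e ≠ 0 := by
    intro h
    exact he (h2 (by rw [h, map_zero]))
  have h4 : algebraMap (MvPolynomial (Fin r) ℚ) (Kf r) e *
      awayTo he (IsLocalization.Away.invSelf e) = 1 := by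
    rw [← awayTo_algebraMap he e, ← map_mul, IsLocalization.Away.mul_invSelf, map_one]
  rw [map_mul, awayTo_algebraMap]
  apply mul_left_cancel₀ h3
  rw [mul_left_comm, h4, mul_one, map_mul, hu, Algebra.smul_def, hc, map_mul]
  ring

/-- The homomorphism `ℚ[x_1, …, x_r] → ℝ[X]`, `x_i ↦ c0_i + X (c_i - c0_i)`. -/
def seg {r : ℕ} (c0 : Fin r → ℚ) (c : Fin r → ℝ) : MvPolynomial (Fin r) ℚ →+* ℝ[X] :=
  (MvPolynomial.aeval fun i => (C (c0 i : ℝ) + X * C (c i - (c0 i : ℝ)) : ℝ[X])).toRingHom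

theorem seg_eval {r : ℕ} (c0 : Fin r → ℚ) (c : Fin r → ℝ) (u : MvPolynomial (Fin r) ℚ) (s : ℝ) :
    (seg c0 c u).eval s = MvPolynomial.aeval (fun i => (c0 i : ℝ) + s * (c i - (c0 i : ℝ))) u := by
  have h := MvPolynomial.comp_aeval_apply
    (fun i => (C (c0 i : ℝ) + X * C (c i - (c0 i : ℝ)) : ℝ[X]))
    ((Polynomial.aeval s : ℝ[X] →ₐ[ℝ] ℝ).restrictScalars ℚ) u
  have h2 : (seg c0 c u).eval s = ((Polynomial.aeval s : ℝ[X] →ₐ[ℝ] ℝ).restrictScalars ℚ)
      (MvPolynomial.aeval (fun i => (C (c0 i : ℝ) + X * C (c i - (c0 i : ℝ)) : ℝ[X])) u) := by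
    rw [AlgHom.restrictScalars_apply, Polynomial.coe_aeval_eq_eval]
    rfl
  rw [h2, h]
  congr 2
  funext i
  rw [AlgHom.restrictScalars_apply]
  simp

theorem apx {r : ℕ} (P : MvPolynomial (Fin r) ℚ) (c : Fin r → ℝ)
    (h : MvPolynomial.aeval c P ≠ 0) :
    ∃ c0 : Fin r → ℚ, ∀ s ∈ Set.Icc (0 : ℝ) 1, (seg c0 c P).eval s ≠ 0 := by
  have hcont : Continuous fun x : Fin r → ℝ => MvPolynomial.aeval x P := by
    have h1 : (fun x : Fin r → ℝ => MvPolynomial.aeval x P) =
        fun x => MvPolynomial.eval x (MvPolynomial.map (algebraMap ℚ ℝ) P) := by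
      funext x
      rw [MvPolynomial.eval_map, MvPolynomial.aeval_def]
    rw [h1]
    exact MvPolynomial.continuous_eval _
  have hopen : IsOpen {x : Fin r → ℝ | MvPolynomial.aeval x P ≠ 0} :=
    isOpen_ne_fun hcont continuous_const
  obtain ⟨δ, hδ, hball⟩ := Metric.isOpen_iff.1 hopen c h
  have hc0 : ∀ i, ∃ q : ℚ, |c i - (q : ℝ)| < δ := by
    intro i
    obtain ⟨q, h1, h2⟩ := exists_rat_btwn (show c i - δ < c i + δ by linarith)
    exact ⟨q, by rw [abs_lt]; constructor <;> linarith⟩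
  choose c0 hc0 using hc0
  refine ⟨c0, fun s hs => ?_⟩
  rw [seg_eval]
  apply hball
  rw [Metric.mem_ball, dist_pi_lt_iff hδ]
  intro i
  rw [Real.dist_eq]
  have h1 : (c0 i : ℝ) + s * (c i - (c0 i : ℝ)) - c i = -((1 - s) * (c i - c0 i)) := by ring
  rw [h1, abs_neg, abs_mul, abs_of_nonneg (by linarith [hs.2] : (0 : ℝ) ≤ 1 - s)]
  have h2 := hc0 i
  have h3 := abs_nonneg (c i - (c0 i : ℝ))
  have h4 : 1 - s ≤ 1 := by linarith [hs.1]
  nlinarith

end

end Pool.Agent.H17.LTh
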