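import Pool.Agent.H17.L0.Herm

/-!
MP_c13a79_gt, coefficient theorem: hermitian representations of coefficient rings (module CRep).

`D : CRep S' S r`: a ring homomorphism `ρ : S' → M_r(S)` of commutative rings and an invertible
symmetric `P` with `P ρ(a) = ρ(a)ᵀ P`. It induces `D.gr : Rep (GR S' π w) (GR S π w) r` for every
group `π`, hence `D.tr : L₀(S'[π]) → L₀(S[π])`.

PLAN. `GR.mapAdd f` applies the additive map `f` to the coefficients (`GR.co_mapAdd`).
`CRep.grρ` is the entrywise `GR.mapAdd` of `a ↦ ρ(a)_ij`: on `GR.single g a` its value is the matrix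
with entries `GR.single g (ρ(a)_ij)`; check `map_mul'` on singles by `GR.induction` twice.
`grP = P.map (algebraMap S (GR S π w))` or entries `GR.single 1 (P_ij)`. `adj`, `sa`: on singles,
`star (GR.single g a) = GR.single g⁻¹ (w(g) • a)`.
-/

set_option autoImplicit false

namespace Pool.Agent.H17.LTh

open Matrix

universe u v u' v'

noncomputable section

/-- Apply an additive map to the coefficients. -/
def GR.mapAdd {R : Type v} {S : Type v'} [CommRing R] [CommRing S] {π : Type u} [Group π]
    {w : π →* ℤˣ} (f : R →+ S) : GR R π w →+ GR S π w where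
  toFun x := (MonoidAlgebra.ofCoeff (x.co.mapRange f (map_zero f)) : MonoidAlgebra S π)
  map_zero' := by
    refine GR.ext fun g => ?_
    change f ((0 : π →₀ R) g) = (0 : π →₀ S) g
    rw [Finsupp.zero_apply, Finsupp.zero_apply, map_zero]
  map_add' x y := by
    refine GR.ext fun g => ?_
    change f ((x.co + y.co) g) = f (x.co g) + f (y.co g)
    rw [Finsupp.add_apply, map_add]

theorem GR.co_mapAdd {R : Type v} {S : Type v'} [CommRing R] [CommRing S] {π : Type u} [Group π]
    {w : π →* ℤˣ} (f : R →+ S) (x : GR R π w) (g : π) : (GR.mapAdd f x).co g = f (x.co g) := rfl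

theorem GR.mapAdd_single {R : Type v} {S : Type v'} [CommRing R] [CommRing S] {π : Type u}
    [Group π] {w : π →* ℤˣ} (f : R →+ S) (g : π) (a : R) :
    GR.mapAdd f (GR.single g a : GR R π w) = GR.single g (f a) := by
  classical
  refine GR.ext fun h => ?_
  rw [GR.co_mapAdd, GR.co_single, GR.co_single]
  split_ifs
  · rfl
  · exact map_zero f

/-- A hermitian representation of commutative rings. -/
structure CRep (S' : Type u') (S : Type v) [CommRing S'] [CommRing S] (r : Type) [Fintype r]
    [DecidableEq r] where
  /-- the representation -/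
  ρ : S' →+* Matrix r r S
  /-- the form -/
  P : Matrix r r S
  symm : Pᵀ = P
  unit : IsUnit P
  adj : ∀ a, P * ρ a = (ρ a)ᵀ * P

variable {S' : Type u'} {S : Type v} [CommRing S'] [CommRing S] {r : Type} [Fintype r]
  [DecidableEq r] (D : CRep S' S r) {π : Type u} [Group π] {w : π →* ℤˣ}

omit [DecidableEq r] in
private theorem crep_map_mul (g h : π) (M N : Matrix r r S) :
    M.map (GR.single g : S → GR S π w) * N.map (GR.single h) = (M * N).map (GR.single (g * h)) := by
  let s : S →+ GR S π w := ⟨⟨GR.single (g * h), GR.single_zero _⟩, GR.single_add _⟩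
  ext1 i j
  rw [Matrix.mul_apply, Matrix.map_apply, Matrix.mul_apply]
  change _ = s _
  rw [map_sum]
  refine Finset.sum_congr rfl fun k _ => ?_
  rw [Matrix.map_apply, Matrix.map_apply, GR.single_mul_single]
  rfl

private def crepAdd (ρ : S' →+* Matrix r r S) (π : Type u) [Group π] (w : π →* ℤˣ) :
    GR S' π w →+ Matrix r r (GR S π w) where
  toFun x := Matrix.of fun i j =>
    GR.mapAdd ((Matrix.entryAddMonoidHom S i j).comp ρ.toAddMonoidHom) x
  map_zero' := by
    ext1 i j
    exact (GR.mapAdd ((Matrix.entryAddMonoidHom S i j).comp ρ.toAddMonoidHom)).map_zero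
  map_add' x y := by
    ext1 i j
    exact (GR.mapAdd ((Matrix.entryAddMonoidHom S i j).comp ρ.toAddMonoidHom)).map_add x y

private theorem crepAdd_single (ρ : S' →+* Matrix r r S) (g : π) (a : S') :
    crepAdd ρ π w (GR.single g a) = (ρ a).map (GR.single g) := by
  ext1 i j
  exact GR.mapAdd_single _ _ _

private theorem crepAdd_one (ρ : S' →+* Matrix r r S) : crepAdd ρ π w 1 = 1 := by
  rw [GR.one_def, crepAdd_single, map_one]
  ext1 i j
  rw [Matrix.map_apply, Matrix.one_apply, Matrix.one_apply]
  split_ifs
  · rfl
  · exact GR.single_zero _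

private theorem crepAdd_mul (ρ : S' →+* Matrix r r S) (x y : GR S' π w) :
    crepAdd ρ π w (x * y) = crepAdd ρ π w x * crepAdd ρ π w y := by
  induction x using GR.induction with
  | zero => rw [zero_mul, map_zero, zero_mul]
  | single g a =>
    induction y using GR.induction with
    | zero => rw [mul_zero, map_zero, mul_zero]
    | single h b =>
      rw [GR.single_mul_single, crepAdd_single, crepAdd_single, crepAdd_single, crep_map_mul,
        map_mul]
    | add y z hy hz => rw [mul_add, map_add, hy, hz, map_add, mul_add]
  | add x z hx hz => rw [add_mul, map_add, hx, hz, map_add, add_mul]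

/-- The representation of the group ring. -/
def CRep.grρ (π : Type u) [Group π] (w : π →* ℤˣ) : GR S' π w →+* Matrix r r (GR S π w) where
  toFun x := Matrix.of fun i j =>
    GR.mapAdd ((Matrix.entryAddMonoidHom S i j).comp D.ρ.toAddMonoidHom) x
  map_one' := crepAdd_one D.ρ
  map_mul' x y := crepAdd_mul D.ρ x y
  map_zero' := (crepAdd D.ρ π w).map_zero
  map_add' x y := (crepAdd D.ρ π w).map_add x y

theorem CRep.grρ_single (g : π) (a : S') :
    D.grρ π w (GR.single g a) = (D.ρ a).map (GR.single g) :=
  crepAdd_single D.ρ g a

/-- The hermitian representation of group rings induced by `D`. -/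
def CRep.gr (π : Type u) [Group π] (w : π →* ℤˣ) : Rep (GR S' π w) (GR S π w) r where
  ρ := D.grρ π w
  P := D.P.map (GR.single 1)
  sa := by
    ext1 i j
    rw [conjTranspose_apply, Matrix.map_apply, Matrix.map_apply, GR.star_single, inv_one, map_one,
      Units.val_one, one_smul]
    exact congrArg (GR.single 1) (congrFun (congrFun D.symm i) j)
  unit := by
    let f : S →+* GR S π w :=
      { toFun := GR.single 1
        map_one' := rfl
        map_mul' := fun a b => by rw [GR.single_mul_single, one_mul]
        map_zero' := GR.single_zero 1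
        map_add' := GR.single_add 1 }
    exact D.unit.map f.mapMatrix
  adj x := by
    induction x using GR.induction with
    | zero => rw [star_zero, map_zero, conjTranspose_zero, Matrix.mul_zero, Matrix.zero_mul]
    | single g a =>
      have h1 : ((D.ρ a).map (GR.single g : S → GR S π w))ᴴ =
          (((w g : ℤˣ) : ℤ) • (D.ρ a)ᵀ).map (GR.single g⁻¹) := by
        ext1 i j
        rw [conjTranspose_apply, Matrix.map_apply, Matrix.map_apply, GR.star_single]
        rfl
      rw [GR.star_single, D.grρ_single, D.grρ_single, h1, crep_map_mul, crep_map_mul, one_mul,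
        mul_one, map_zsmul, Matrix.mul_smul, Matrix.smul_mul, D.adj]
    | add x y hx hy =>
      rw [star_add, map_add, map_add, Matrix.mul_add, conjTranspose_add, Matrix.add_mul, hx, hy]

/-- The homomorphism `L₀(S'[π]) → L₀(S[π])`. -/
def CRep.tr {ε : ℤˣ} : L0 (GR S' π w) ε →+ L0 (GR S π w) ε := L0.tr (D.gr π w)

/-- Base change of the target. -/
def CRep.map {T : Type v'} [CommRing T] (j : S →+* T) : CRep S' T r where
  ρ := j.mapMatrix.comp D.ρ
  P := D.P.map j
  symm := by
    rw [← Matrix.transpose_map, D.symm]
  unit := D.unit.map j.mapMatrix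
  adj a := by
    have h := congrArg (fun M => M.map j) (D.adj a)
    simp only [Matrix.map_mul] at h
    rw [Matrix.transpose_map] at h
    exact h

/-- Restriction along a ring homomorphism. -/
def CRep.comp {S'' : Type v'} [CommRing S''] (i : S'' →+* S') : CRep S'' S r where
  ρ := D.ρ.comp i
  P := D.P
  symm := D.symm
  unit := D.unit
  adj a := D.adj (i a)

/-- The product with a symmetric form. -/
def CRep.scal (i : S' →+* S) (P : Matrix r r S) (symm : Pᵀ = P) (unit : IsUnit P) :
    CRep S' S r where
  ρ := (Matrix.scalar r).comp i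
  P := P
  symm := symm
  unit := unit
  adj a := by
    change P * Matrix.diagonal (fun _ => i a) = (Matrix.diagonal fun _ => i a)ᵀ * P
    rw [Matrix.diagonal_transpose]
    ext j k
    rw [Matrix.mul_diagonal, Matrix.diagonal_mul, mul_comm]

/-- The negative. -/
def CRep.neg : CRep S' S r where
  ρ := D.ρ
  P := -D.P
  symm := by rw [Matrix.transpose_neg, D.symm]
  unit := D.unit.neg
  adj a := by rw [Matrix.neg_mul, Matrix.mul_neg, D.adj]

/-- The orthogonal sum. -/
def CRep.sum {r' : Type} [Fintype r'] [DecidableEq r'] (D' : CRep S' S r') :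
    CRep S' S (r ⊕ r') where
  ρ :=
    { toFun := fun a => fromBlocks (D.ρ a) 0 0 (D'.ρ a)
      map_one' := by simp
      map_mul' := fun a b => by simp [fromBlocks_multiply]
      map_zero' := by simp
      map_add' := fun a b => by simp [fromBlocks_add] }
  P := fromBlocks D.P 0 0 D'.P
  symm := by
    rw [fromBlocks_transpose, D.symm, D'.symm, transpose_zero, transpose_zero]
  unit := by
    have := isUnit_dsum (A := S) D.unit D'.unit
    exact this
  adj a := by
    simp [fromBlocks_multiply, fromBlocks_transpose, D.adj, D'.adj]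

end

end Pool.Agent.H17.LTh
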