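import Pool.Agent.H17.L0.FS

/-!
MP_c13a79_gt, coefficient theorem: clearing denominators (module Clear).

PLAN. For every `s : S` there are `k`, `r` with `d^k s = algebraMap r` (`IsLocalization.Away.surj`
or `IsLocalization.exist_integer_multiples_of_finset`), then also for every `m ≥ k`. The entries of
`M` have finitely many nonzero coefficients; take the maximum. Use `lift_matrix` of module FS with
`b = algebraMap R S` (it needs no injectivity); coefficients of `c • x` in `S[π]` are `c * x_g`.
-/

set_option autoImplicit false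

namespace Pool.Agent.H17.LTh

open Matrix

universe u v

private theorem clear_co_smul {S : Type} [CommRing S] {π : Type u} [Group π] {w : π →* ℤˣ} (c : S)
    (x : GR S π w) (g : π) : (c • x).co g = c * x.co g := by
  rfl

private theorem clear_one {R S : Type} [CommRing R] [CommRing S] [Algebra R S] (d : R)
    [IsLocalization.Away d S] (s : S) :
    ∃ k : ℕ, ∀ m ≥ k, (algebraMap R S d) ^ m * s ∈ Set.range (algebraMap R S) := by
  obtain ⟨k, a, h⟩ := IsLocalization.Away.surj d s
  refine ⟨k, fun m hm => ⟨d ^ (m - k) * a, ?_⟩⟩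
  rw [map_mul, map_pow, ← h, mul_comm s, ← mul_assoc, ← pow_add, Nat.sub_add_cancel hm]

theorem clear {R S : Type} [CommRing R] [CommRing S] [Algebra R S] (d : R)
    [IsLocalization.Away d S] {π : Type u} [Group π] {w : π →* ℤˣ} {ι κ : Type} [Fintype ι]
    [Fintype κ] (M : Matrix ι κ (GR S π w)) : ∃ k : ℕ, ∀ m ≥ k, ∃ M' : Matrix ι κ (GR R π w),
      M'.map (GR.map (algebraMap R S)) = (algebraMap R S d) ^ m • M := by
  classical
  choose f hf using clear_one (R := R) (S := S) d
  refine ⟨(Finset.univ : Finset (ι × κ)).sup fun p =>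
    (M p.1 p.2).co.support.sup fun g => f ((M p.1 p.2).co g), fun m hm => ?_⟩
  refine lift_matrix _ fun i j g => ?_
  rw [Matrix.smul_apply, clear_co_smul]
  by_cases h : (M i j).co g = 0
  · rw [h, mul_zero]
    exact ⟨0, map_zero _⟩
  · refine hf _ m (le_trans ?_ hm)
    refine le_trans ?_ (Finset.le_sup (f := fun p : ι × κ =>
      (M p.1 p.2).co.support.sup fun g => f ((M p.1 p.2).co g)) (Finset.mem_univ (i, j)))
    exact Finset.le_sup (f := fun g => f ((M i j).co g)) (Finsupp.mem_support_iff.2 h)

end Pool.Agent.H17.LTh
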