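import Pool.Agent.H17.L0.PolyS

/-!
MP_c13a79_gt, coefficient theorem: the spectral equation (module Spec).

`B + X C` with `(B + X C) G = p(X)`, `p` a real polynomial, `p(a) ≠ 0`. Then `B_a = B + a C` is
invertible and `N = B_a⁻¹ C` satisfies a real polynomial equation `q(N) = 0` whose nonzero real
roots `l` satisfy `p(a - 1/l) = 0`.

PLAN. `B_a⁻¹ = p(a)⁻¹ G(a)` (evaluate with `evR a`). With `y = X - a`: `p(a + y) = ∑ p_i y^i`
(`p.taylor a` or `p.comp (X + C a)`), `G(a+y) = ∑ G_j y^j` (compose every entry with `X + C a`;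
`Polynomial.comp` is not multiplicative over noncommutative rings in general, but
`Polynomial.eval₂RingHom' C (X + C (algebraMap a))` is a ring homomorphism `A[X] → A[X]`; or avoid
the shift: write `X = a + y` and divide, see below). Put `Γ_j = G_j B_a`. Then
`(1 + y N) Γ(y) = p(a+y)`, that is `Γ_0 = p_0`, `Γ_{j+1} = p_{j+1} - N Γ_j`, so
`Γ_j = ∑_{i ≤ j} p_i (-N)^(j-i)`. For `J` larger than all degrees `Γ_J = 0`, so with
`q = ∑_{i ≤ J} p_i (-X)^(J-i)` we have `q(N) = 0`, the coefficient of `X^J` in `q` is `± p(a) ≠ 0`,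
and for real `l ≠ 0`: `q(l) = (-l)^J ∑ p_i (-1/l)^i = (-l)^J p(a - 1/l)`.
-/

set_option autoImplicit false

namespace Pool.Agent.H17.LTh

open Matrix Polynomial

universe u v

section SpecAux

variable {A : Type u} [Ring A] [Algebra ℝ A] {κ : Type} [Fintype κ] [DecidableEq κ]

/-- the matrix of the coefficients of `X ^ m` -/
private def sp_cm (m : ℕ) (M : Matrix κ κ A[X]) : Matrix κ κ A := M.map fun f => f.coeff m

omit [Algebra ℝ A] [Fintype κ] [DecidableEq κ] in
private theorem sp_cm_apply (m : ℕ) (M : Matrix κ κ A[X]) (i j : κ) : sp_cm m M i j = (M i j).coeff m := rfl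

private theorem sp_scP (p : ℝ[X]) (m : ℕ) :
    sp_cm m (scP A κ p) = algebraMap ℝ (Matrix κ κ A) (p.coeff m) := by
  ext i j
  rw [Matrix.algebraMap_matrix_apply, sp_cm_apply]
  unfold scP
  rw [Matrix.diagonal_apply]
  split_ifs with h
  · rw [Polynomial.coeff_map]
  · rw [Polynomial.coeff_zero]

omit [Algebra ℝ A] in
private theorem sp_l0 (B C' : Matrix κ κ A) (G : Matrix κ κ A[X]) :
    sp_cm 0 ((B.map C + (X : A[X]) • C'.map C) * G) = B * sp_cm 0 G := by
  ext i j
  rw [sp_cm_apply, Matrix.mul_apply, Matrix.mul_apply, Polynomial.finsetSum_coeff]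
  refine Finset.sum_congr rfl fun l _ => ?_
  rw [sp_cm_apply, Matrix.add_apply, Matrix.smul_apply, Matrix.map_apply, Matrix.map_apply, smul_eq_mul, add_mul,
    Polynomial.coeff_add, Polynomial.coeff_C_mul, mul_assoc, Polynomial.coeff_X_mul_zero, add_zero]

omit [Algebra ℝ A] in
private theorem sp_l1 (B C' : Matrix κ κ A) (G : Matrix κ κ A[X]) (m : ℕ) :
    sp_cm (m + 1) ((B.map C + (X : A[X]) • C'.map C) * G) = B * sp_cm (m + 1) G + C' * sp_cm m G := by
  ext i j
  rw [sp_cm_apply, Matrix.add_apply, Matrix.mul_apply, Matrix.mul_apply, Matrix.mul_apply, Polynomial.finsetSum_coeff,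
    ← Finset.sum_add_distrib]
  refine Finset.sum_congr rfl fun l _ => ?_
  rw [sp_cm_apply, sp_cm_apply, Matrix.add_apply, Matrix.smul_apply, Matrix.map_apply, Matrix.map_apply, smul_eq_mul, add_mul,
    Polynomial.coeff_add, Polynomial.coeff_C_mul, mul_assoc, Polynomial.coeff_X_mul, Polynomial.coeff_C_mul]

omit [Algebra ℝ A] in
private theorem sp_r0 (B C' : Matrix κ κ A) (G : Matrix κ κ A[X]) :
    sp_cm 0 (G * (B.map C + (X : A[X]) • C'.map C)) = sp_cm 0 G * B := by
  ext i j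
  rw [sp_cm_apply, Matrix.mul_apply, Matrix.mul_apply, Polynomial.finsetSum_coeff]
  refine Finset.sum_congr rfl fun l _ => ?_
  rw [sp_cm_apply, Matrix.add_apply, Matrix.smul_apply, Matrix.map_apply, Matrix.map_apply, smul_eq_mul, mul_add,
    Polynomial.coeff_add, Polynomial.coeff_mul_C, Polynomial.X_mul, ← mul_assoc, Polynomial.coeff_mul_X_zero,
    add_zero]

/-- the polynomials `q_0 = p_0`, `q_{m+1} = p_{m+1} - X q_m` -/
private noncomputable def sp_q (p : ℝ[X]) : ℕ → ℝ[X]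
  | 0 => C (p.coeff 0)
  | m + 1 => C (p.coeff (m + 1)) - X * sp_q p m

private theorem sp_q_coeff (p : ℝ[X]) (m : ℕ) : (sp_q p m).coeff m = (-1) ^ m * p.coeff 0 := by
  induction m with
  | zero => simp [sp_q]
  | succ m ih =>
    unfold sp_q
    rw [Polynomial.coeff_sub, Polynomial.coeff_X_mul, ih, Polynomial.coeff_C_succ, pow_succ]
    ring

private theorem sp_q_eval (p : ℝ[X]) {l : ℝ} (hl : l ≠ 0) (m : ℕ) :
    (sp_q p m).eval l = (-l) ^ m * ∑ i ∈ Finset.range (m + 1), p.coeff i * (-l⁻¹) ^ i := by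
  induction m with
  | zero => simp [sp_q]
  | succ m ih =>
    rw [Finset.sum_range_succ, mul_add]
    have e : (-l) ^ (m + 1) * (p.coeff (m + 1) * (-l⁻¹) ^ (m + 1)) = p.coeff (m + 1) := by
      have e1 : (-l) ^ (m + 1) * (-l⁻¹) ^ (m + 1) = 1 := by
        rw [← mul_pow, neg_mul_neg, mul_inv_cancel₀ hl, one_pow]
      calc (-l) ^ (m + 1) * (p.coeff (m + 1) * (-l⁻¹) ^ (m + 1))
          = p.coeff (m + 1) * ((-l) ^ (m + 1) * (-l⁻¹) ^ (m + 1)) := by ring
        _ = p.coeff (m + 1) := by rw [e1, mul_one]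
    rw [e, pow_succ]
    unfold sp_q
    rw [Polynomial.eval_sub, Polynomial.eval_mul, Polynomial.eval_C, Polynomial.eval_X, ih]
    ring

/-- the case `a = 0` -/
private theorem sp_zero (B C' : Matrix κ κ A) (G : Matrix κ κ A[X]) (p : ℝ[X]) (ha : p.eval 0 ≠ 0)
    (h1 : (B.map C + (X : A[X]) • C'.map C) * G = scP A κ p)
    (h2 : G * (B.map C + (X : A[X]) • C'.map C) = scP A κ p) :
    IsUnit B ∧ ∃ (N : Matrix κ κ A) (q : ℝ[X]), B * N = C' ∧ q ≠ 0 ∧
      aeval N q = 0 ∧ ∀ l : ℝ, l ≠ 0 → q.IsRoot l → p.eval (-l⁻¹) = 0 := by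
  have hp0 : p.coeff 0 ≠ 0 := by
    rwa [Polynomial.coeff_zero_eq_eval_zero]
  have e0 : B * sp_cm 0 G = algebraMap ℝ (Matrix κ κ A) (p.coeff 0) := by
    rw [← sp_l0 B C' G, h1, sp_scP]
  have e1 : ∀ m, B * sp_cm (m + 1) G + C' * sp_cm m G = algebraMap ℝ (Matrix κ κ A) (p.coeff (m + 1)) := by
    intro m
    rw [← sp_l1 B C' G, h1, sp_scP]
  have e2 : sp_cm 0 G * B = algebraMap ℝ (Matrix κ κ A) (p.coeff 0) := by
    rw [← sp_r0 B C' G, h2, sp_scP]
  set Bi : Matrix κ κ A := algebraMap ℝ (Matrix κ κ A) (p.coeff 0)⁻¹ * sp_cm 0 G with hBi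
  have hBB : Bi * B = 1 := by
    rw [hBi, mul_assoc, e2, ← map_mul, inv_mul_cancel₀ hp0, map_one]
  have hBB' : B * Bi = 1 := by
    rw [hBi, ← mul_assoc, ← Algebra.commutes (p.coeff 0)⁻¹ B, mul_assoc, e0, ← map_mul,
      inv_mul_cancel₀ hp0, map_one]
  refine ⟨⟨⟨B, Bi, hBB', hBB⟩, rfl⟩, Bi * C', ?_⟩
  have hBN : B * (Bi * C') = C' := by rw [← mul_assoc, hBB', one_mul]
  have hΓ : ∀ m, sp_cm m G * B = aeval (Bi * C') (sp_q p m) := by
    intro m
    induction m with
    | zero =>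
      unfold sp_q
      rw [e2, Polynomial.aeval_C]
    | succ m ih =>
      unfold sp_q
      rw [map_sub, map_mul, Polynomial.aeval_C, Polynomial.aeval_X, ← ih, ← e1 m]
      have h3 : sp_cm (m + 1) G * B = Bi * (B * sp_cm (m + 1) G) * B := by
        rw [← mul_assoc Bi, hBB, one_mul]
      have h4 : Bi * (B * sp_cm (m + 1) G + C' * sp_cm m G) * B = B * sp_cm (m + 1) G + C' * sp_cm m G := by
        rw [e1 m, ← Algebra.commutes, mul_assoc, hBB, mul_one]
      rw [← h4, mul_add, add_mul, h3]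
      simp only [mul_assoc]
      rw [add_sub_cancel_right]
  obtain ⟨J, hJp, hJ⟩ : ∃ J : ℕ, p.natDegree < J + 1 ∧ sp_cm J G = 0 := by
    refine ⟨p.natDegree + ∑ i, ∑ j, (G i j).natDegree + 1, by omega, ?_⟩
    ext i j
    rw [sp_cm_apply, Matrix.zero_apply]
    refine Polynomial.coeff_eq_zero_of_natDegree_lt ?_
    have h3 : (G i j).natDegree ≤ ∑ j, (G i j).natDegree :=
      Finset.single_le_sum (f := fun j => (G i j).natDegree) (fun _ _ => Nat.zero_le _) (Finset.mem_univ j)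
    have h4 : ∑ j, (G i j).natDegree ≤ ∑ i, ∑ j, (G i j).natDegree :=
      Finset.single_le_sum (f := fun i => ∑ j, (G i j).natDegree) (fun _ _ => Nat.zero_le _) (Finset.mem_univ i)
    omega
  refine ⟨sp_q p J, hBN, ?_, ?_, ?_⟩
  · intro h3
    have h4 := sp_q_coeff p J
    rw [h3, Polynomial.coeff_zero] at h4
    exact mul_ne_zero (pow_ne_zero _ (by norm_num)) hp0 h4.symm
  · rw [← hΓ J, hJ, zero_mul]
  · intro l hl hq
    have h3 : (sp_q p J).eval l = 0 := hq
    rw [sp_q_eval p hl, ← Polynomial.eval_eq_sum_range' hJp] at h3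
    rcases mul_eq_zero.1 h3 with h4 | h4
    · exact absurd h4 (pow_ne_zero _ (neg_ne_zero.2 hl))
    · exact h4

/-- the substitution `X ↦ X + a` -/
private noncomputable def sp_tau (A : Type u) [Ring A] [Algebra ℝ A] (a : ℝ) : A[X] →+* A[X] :=
  Polynomial.eval₂RingHom' (C : A →+* A[X]) (X + C (algebraMap ℝ A a)) fun r => by
    refine Commute.add_right (Polynomial.commute_X (C r)).symm ?_
    unfold Commute SemiconjBy
    rw [← C_mul, ← C_mul, Algebra.commutes]

private theorem sp_tau_C (a : ℝ) (r : A) : sp_tau A a (C r) = C r := by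
  change Polynomial.eval₂ C (X + C (algebraMap ℝ A a)) (C r) = C r
  rw [Polynomial.eval₂_C]

private theorem sp_tau_X (a : ℝ) : sp_tau A a X = X + C (algebraMap ℝ A a) := by
  change Polynomial.eval₂ C (X + C (algebraMap ℝ A a)) X = _
  rw [Polynomial.eval₂_X]

private theorem sp_tau_map (a : ℝ) (p : ℝ[X]) :
    sp_tau A a (p.map (algebraMap ℝ A)) = (p.comp (X + C a)).map (algebraMap ℝ A) := by
  have h : (sp_tau A a).comp (Polynomial.mapRingHom (algebraMap ℝ A)) =
      (Polynomial.mapRingHom (algebraMap ℝ A)).comp (Polynomial.compRingHom (X + C a)) := by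
    refine Polynomial.ringHom_ext (fun r => ?_) ?_
    · rw [RingHom.comp_apply, RingHom.comp_apply, Polynomial.coe_mapRingHom, Polynomial.map_C, sp_tau_C,
        Polynomial.coe_compRingHom_apply, Polynomial.C_comp, Polynomial.map_C]
    · rw [RingHom.comp_apply, RingHom.comp_apply, Polynomial.coe_mapRingHom, Polynomial.map_X, sp_tau_X,
        Polynomial.coe_compRingHom_apply, Polynomial.X_comp, Polynomial.map_add, Polynomial.map_X,
        Polynomial.map_C]
  exact RingHom.congr_fun h p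

end SpecAux

theorem spec {A : Type u} [Ring A] [Algebra ℝ A] {κ : Type} [Fintype κ] [DecidableEq κ]
    (B C' : Matrix κ κ A) (G : Matrix κ κ A[X]) (p : ℝ[X]) (a : ℝ) (ha : p.eval a ≠ 0)
    (h1 : (B.map C + (X : A[X]) • C'.map C) * G = scP A κ p)
    (h2 : G * (B.map C + (X : A[X]) • C'.map C) = scP A κ p) :
    IsUnit (B + a • C') ∧ ∃ (N : Matrix κ κ A) (q : ℝ[X]), (B + a • C') * N = C' ∧ q ≠ 0 ∧
      aeval N q = 0 ∧ ∀ l : ℝ, l ≠ 0 → q.IsRoot l → p.eval (a - l⁻¹) = 0 := by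
  have hM : (sp_tau A a).mapMatrix (B.map C + (X : A[X]) • C'.map C) =
      (B + a • C').map C + (X : A[X]) • C'.map C := by
    ext1 i j
    change sp_tau A a (C (B i j) + X * C (C' i j)) = C (B i j + a • C' i j) + X * C (C' i j)
    rw [map_add, map_mul, sp_tau_C, sp_tau_C, sp_tau_X, C_add, Algebra.smul_def, C_mul]
    noncomm_ring
  have hP : (sp_tau A a).mapMatrix (scP A κ p) = scP A κ (p.comp (X + C a)) := by
    ext1 i j
    unfold scP
    rw [RingHom.mapMatrix_apply, Matrix.map_apply, Matrix.diagonal_apply, Matrix.diagonal_apply]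
    split_ifs with h
    · exact sp_tau_map a p
    · exact map_zero _
  have h1' := congrArg (sp_tau A a).mapMatrix h1
  have h2' := congrArg (sp_tau A a).mapMatrix h2
  rw [map_mul, hM, hP] at h1' h2'
  have ha' : (p.comp (X + C a)).eval 0 ≠ 0 := by
    rw [Polynomial.eval_comp]
    simpa using ha
  obtain ⟨hU, N, q, h3, h4, h5, h6⟩ := sp_zero _ _ _ _ ha' h1' h2'
  refine ⟨hU, N, q, h3, h4, h5, fun l hl hq => ?_⟩
  have h7 := h6 l hl hq
  rw [Polynomial.eval_comp] at h7
  have e : (X + C a : ℝ[X]).eval (-l⁻¹) = a - l⁻¹ := by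
    rw [Polynomial.eval_add, Polynomial.eval_X, Polynomial.eval_C]
    ring
  rwa [e] at h7

end Pool.Agent.H17.LTh
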