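import Mathlib

/-!
MP_c13a79_gt, coefficient theorem: square roots modulo a real polynomial (module Sq; Mathlib only).

PLAN (helper88). Induction over the factorisation of `q` (`UniqueFactorizationMonoid.induction_on_prime`
or `induction_on_coprime`-free: `q = p q'` with `p` prime). Units: `s = 0`.
Step: let `q' ∣ s² - u`, `s² - u = q' w`. For `s' = s + q' r` we have
`s'² - u = q' (w + 2 s r + q' r²)`, so we need `r` with `p ∣ w + 2 s r + q' r²`. In the field
`F = AdjoinRoot p = ℝ[X]/(p)` (algebraic over `ℝ`; `Real.nonempty_algEquiv_or`: `F ≃ ℝ` or `F ≃ ℂ`):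
* if `p ∣ q'`: solve `2 s r = -w`; `s ≠ 0` in `F` since `s² = u` in `F` and `u` is a unit mod `p`;
* if `p ∤ q'`: solve `q' r² + 2 s r + w = 0`: its discriminant is `4 (s² - q' w) = 4 u`, and `u` is
  a square in `F`: if `F ≃ ℝ` the image `x` of the root is a root of `p`, hence of `q`, so
  `u(x) > 0`; if `F ≃ ℂ` every element is a square (`IsAlgClosed.exists_pow_nat_eq`).
`IsCoprime u q` gives `IsCoprime u q'`, and `u ≠ 0` in `F`.
-/

set_option autoImplicit false

namespace Pool.Agent.H17.LTh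

open Polynomial

/-- the step: a quadratic congruence modulo an irreducible polynomial -/
private theorem sq_step {p a u s w : ℝ[X]} (hp : Prime p) (hu : IsCoprime u p)
    (hpos : ∀ x, p.IsRoot x → 0 < u.eval x) (hs : s ^ 2 - u = a * w) :
    ∃ r : ℝ[X], p ∣ w + 2 * s * r + a * r ^ 2 := by
  have : Fact (Irreducible p) := ⟨hp.irreducible⟩
  have hfin : Module.Finite ℝ (AdjoinRoot p) := (AdjoinRoot.powerBasis hp.ne_zero).finite
  have halg : Algebra.IsAlgebraic ℝ (AdjoinRoot p) := Algebra.IsAlgebraic.of_finite ℝ (AdjoinRoot p)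
  have hU : AdjoinRoot.mk p u ≠ 0 := by
    intro h
    have h1 : p ∣ u := AdjoinRoot.mk_eq_zero.1 h
    exact hp.not_isUnit (hu.isUnit_of_dvd' h1 dvd_rfl)
  have hT : ∃ T : AdjoinRoot p, T ^ 2 = AdjoinRoot.mk p u := by
    rcases Real.nonempty_algEquiv_or (AdjoinRoot p) with ⟨⟨e⟩⟩ | ⟨⟨e⟩⟩
    · have hev : ∀ f : ℝ[X], e (AdjoinRoot.mk p f) = f.eval (e (AdjoinRoot.root p)) := by
        intro f
        have h1 := Polynomial.aeval_algHom_apply (e : AdjoinRoot p →ₐ[ℝ] ℝ) (AdjoinRoot.root p) f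
        rw [Polynomial.coe_aeval_eq_eval] at h1
        rw [← AdjoinRoot.aeval_eq]
        exact h1.symm
      have hr : p.IsRoot (e (AdjoinRoot.root p)) := by
        rw [Polynomial.IsRoot.def, ← hev, AdjoinRoot.mk_self, map_zero]
      have h1 := hpos _ hr
      rw [← hev] at h1
      refine ⟨e.symm (Real.sqrt (e (AdjoinRoot.mk p u))), ?_⟩
      rw [← map_pow, Real.sq_sqrt h1.le, AlgEquiv.symm_apply_apply]
    · obtain ⟨z, hz⟩ := IsAlgClosed.exists_pow_nat_eq (e (AdjoinRoot.mk p u)) (n := 2) (by norm_num)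
      refine ⟨e.symm z, ?_⟩
      rw [← map_pow, hz, AlgEquiv.symm_apply_apply]
  obtain ⟨T, hT⟩ := hT
  have hS : AdjoinRoot.mk p s ^ 2 - AdjoinRoot.mk p u = AdjoinRoot.mk p a * AdjoinRoot.mk p w := by
    rw [← map_pow, ← map_sub, hs, map_mul]
  have hchar : (2 : AdjoinRoot p) ≠ 0 := by
    have h2 : (algebraMap ℝ (AdjoinRoot p)) 2 ≠ 0 := by
      rw [Ne, map_eq_zero]
      norm_num
    rwa [map_ofNat] at h2
  have hR : ∃ R : AdjoinRoot p, AdjoinRoot.mk p w + 2 * AdjoinRoot.mk p s * R + AdjoinRoot.mk p a * R ^ 2 = 0 := by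
    by_cases hA : AdjoinRoot.mk p a = 0
    · have hs0 : AdjoinRoot.mk p s ≠ 0 := by
        intro h0
        rw [hA, zero_mul, h0] at hS
        apply hU
        linear_combination -hS
      refine ⟨-(AdjoinRoot.mk p w) / (2 * AdjoinRoot.mk p s), ?_⟩
      rw [hA]
      field_simp
      ring
    · refine ⟨(T - AdjoinRoot.mk p s) / AdjoinRoot.mk p a, ?_⟩
      field_simp
      linear_combination hT - hS
  obtain ⟨R, hR⟩ := hR
  obtain ⟨r, rfl⟩ := AdjoinRoot.mk_surjective R
  refine ⟨r, ?_⟩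
  rw [← AdjoinRoot.mk_eq_zero, map_add, map_add, map_mul, map_mul, map_mul, map_pow, map_ofNat]
  exact hR

/-- A real polynomial which is prime to `q` and positive at the real roots of `q` is a square
modulo `q`. -/
theorem sq_mod {q u : ℝ[X]} (hq : q ≠ 0) (hc : IsCoprime u q)
    (hpos : ∀ x, q.IsRoot x → 0 < u.eval x) : ∃ s : ℝ[X], q ∣ s ^ 2 - u := by
  revert hq hc hpos
  induction q using UniqueFactorizationMonoid.induction_on_prime with
  | h₁ => exact fun h => absurd rfl h
  | h₂ q hq => exact fun _ _ _ => ⟨0, hq.dvd⟩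
  | h₃ a p ha hp ih =>
    intro _ hc hpos
    have hcp : IsCoprime u p := hc.of_mul_right_left
    have hca : IsCoprime u a := hc.of_mul_right_right
    obtain ⟨s, w, hs⟩ := ih ha hca fun x hx => hpos x (by
      rw [Polynomial.IsRoot.def, Polynomial.eval_mul, hx, mul_zero])
    obtain ⟨r, v, hr⟩ := sq_step hp hcp (fun x hx => hpos x (by
      rw [Polynomial.IsRoot.def, Polynomial.eval_mul, hx, zero_mul])) hs
    refine ⟨s + a * r, v, ?_⟩
    linear_combination hs + a * hr

end Pool.Agent.H17.LTh
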