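import Pool.Agent.H17.L0.Lin
import Pool.Agent.H17.L0.Spec
import Pool.Agent.H17.L0.Sq

/-!
MP_c13a79_gt, coefficient theorem: the deformation theorem (module Deform).

Let `H(X)` be a hermitian matrix over `A[X]`, `A` a real algebra with involution, with
`H G = G H = p` for a real polynomial `p` without zeros in `[a,b]`. Then `H(a)` and `H(b)` have the
same class in `L₀(A)`.

PLAN. By `lin`: `U* (H ⊕ hyH) U = B + X C'` with `U V = V U = 1` over `A[X]`. Then
`G' = V (G ⊕ p • hyH⁻¹) V*` (where `hyH⁻¹ = fromBlocks 0 (ε • 1) 1 0`) satisfies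
`(B + X C') G' = G' (B + X C') = p` (`scP` is central: `scP_comm`). Evaluating at `s ∈ {a, b}`
(`evR s`, a homomorphism of rings with involution): `H(s)` is invertible (inverse `p(s)⁻¹ G(s)`) and
`hcl (H(s)) = hcl (H(s) ⊕ hyH) = hcl (B + s C')` (`hcl_congr`, `hcl_dsum`, `hcl_lag` for `hyH`).
By `spec` at `a`: `B_a = B + a C'` is invertible, `B_a N = C'`, `q(N) = 0`. Let `y = b - a > 0`.
`N* B_a = B_a N` since `B_a`, `C'` are hermitian. Every real root `l` of `q` satisfies
`1 + y l > 0`: clear for `l ≥ 0`; for `l < 0` the point `a - 1/l > a` is a zero of `p`, so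
`a - 1/l > b`, i.e. `-1/l > y`, `1 + y l > 0`. `1 + y X` is prime to `q` (its only root `-1/y` is
not a root of `q`). By `sq_mod` there is `s` with `q ∣ s² - (1 + y X)`; `S = aeval N s`,
`S² = 1 + y N`, `S* B_a = B_a S` (real coefficients, `RealStar`), so
`S* B_a S = B_a (1 + y N) = B_a + y C' = B_b`; `S` is invertible because `S² = B_a⁻¹ B_b` is.
-/

set_option autoImplicit false

namespace Pool.Agent.H17.LTh

open Matrix Polynomial

universe u v

private theorem df_comm {A : Type u} [Ring A] [StarRing A] [Algebra ℝ A] [RealStar A]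
    (p : ℝ[X]) (q : A[X]) :
    p.map (algebraMap ℝ A) * q = q * p.map (algebraMap ℝ A) := by
  have h := scP_comm (A := A) (ι := Unit) p (Matrix.of fun _ _ => q)
  have h2 := congrFun (congrFun h ()) ()
  simpa [scP, Matrix.mul_apply] using h2

private theorem df_rect {A : Type u} [Ring A] [StarRing A] [Algebra ℝ A] [RealStar A]
    {ι κ : Type} [Fintype ι] [DecidableEq ι] [Fintype κ] [DecidableEq κ] (p : ℝ[X])
    (M : Matrix ι κ A[X]) :
    scP A ι p * M = M * scP A κ p := by
  ext1 i j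
  rw [scP, scP, Matrix.diagonal_mul, Matrix.mul_diagonal, df_comm]

private theorem df_star {A : Type u} [Ring A] [StarRing A] [Algebra ℝ A] [RealStar A] (r : ℝ)
    (x : A) : star (r • x) = r • star x := by
  rw [Algebra.smul_def, star_mul, RealStar.star_real, Algebra.smul_def, Algebra.commutes]

private theorem df_cs {A : Type u} [Ring A] [StarRing A] [Algebra ℝ A] [RealStar A] {ι κ : Type}
    (r : ℝ) (M : Matrix ι κ A) : (r • M)ᴴ = r • Mᴴ := by
  ext i j
  rw [conjTranspose_apply, Matrix.smul_apply, Matrix.smul_apply, conjTranspose_apply, df_star]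

private theorem df_map_isH {A : Type u} [Ring A] [StarRing A] [Algebra ℝ A] [RealStar A]
    {ε : ℤˣ} {ι : Type} {H : Matrix ι ι A[X]} (hH : IsH ε H) (s : ℝ) :
    IsH ε (H.map (evR s)) := by
  unfold IsH at *
  rw [← map_star_eq (evR s) (evR_star s), hH]
  ext i j
  rw [Matrix.map_apply, Matrix.smul_apply, Matrix.smul_apply, Matrix.map_apply, map_zsmul]

private theorem df_map_scP {A : Type u} [Ring A] [StarRing A] [Algebra ℝ A] [RealStar A]
    {ι : Type} [DecidableEq ι] (p : ℝ[X]) (s : ℝ) :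
    (scP A ι p).map (evR s) = (p.eval s) • (1 : Matrix ι ι A) := by
  ext i j
  rw [Matrix.map_apply, scP, Matrix.smul_apply, Matrix.diagonal_apply, Matrix.one_apply]
  split_ifs
  · rw [evR_map, Algebra.smul_def, mul_one]
  · rw [map_zero, smul_zero]

private theorem df_unit {A : Type u} [Ring A] [StarRing A] [Algebra ℝ A] [RealStar A]
    {ι : Type} [Fintype ι] [DecidableEq ι] {H G : Matrix ι ι A[X]} {p : ℝ[X]}
    (h1 : H * G = scP A ι p) (h2 : G * H = scP A ι p) {s : ℝ} (hs : p.eval s ≠ 0) :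
    IsUnit (H.map (evR s)) := by
  have e1 : H.map (evR s) * G.map (evR s) = (p.eval s) • (1 : Matrix ι ι A) := by
    rw [← Matrix.map_mul, h1, df_map_scP]
  have e2 : G.map (evR s) * H.map (evR s) = (p.eval s) • (1 : Matrix ι ι A) := by
    rw [← Matrix.map_mul, h2, df_map_scP]
  refine ⟨⟨H.map (evR s), (p.eval s)⁻¹ • G.map (evR s), ?_, ?_⟩, rfl⟩
  · rw [Matrix.mul_smul, e1, smul_smul, inv_mul_cancel₀ hs, one_smul]
  · rw [Matrix.smul_mul, e2, smul_smul, inv_mul_cancel₀ hs, one_smul]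

/-- the inverse of the hyperbolic matrix -/
private def hyI (A : Type u) [Ring A] (ε : ℤˣ) (μ : Type) [DecidableEq μ] :
    Matrix (μ ⊕ μ) (μ ⊕ μ) A :=
  fromBlocks 0 ((ε : ℤ) • 1) 1 0

private theorem hy1 {A : Type u} [Ring A] {ε : ℤˣ} {μ : Type} [Fintype μ] [DecidableEq μ] :
    hyH A ε μ * hyI A ε μ = 1 := by
  unfold hyH hyI
  simp only [fromBlocks_multiply, Matrix.mul_smul, Matrix.mul_one, Matrix.mul_zero, smul_smul,
    eps_eps, one_smul, smul_zero, add_zero, zero_add, fromBlocks_one]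

private theorem hy2 {A : Type u} [Ring A] {ε : ℤˣ} {μ : Type} [Fintype μ] [DecidableEq μ] :
    hyI A ε μ * hyH A ε μ = 1 := by
  unfold hyH hyI
  simp only [fromBlocks_multiply, Matrix.mul_smul, Matrix.mul_one, Matrix.mul_zero, smul_smul,
    eps_eps, one_smul, smul_zero, add_zero, zero_add, fromBlocks_one]

private theorem hy_unit {A : Type u} [Ring A] {ε : ℤˣ} {μ : Type} [Fintype μ] [DecidableEq μ] :
    IsUnit (hyH A ε μ) := ⟨⟨_, _, hy1, hy2⟩, rfl⟩

private theorem hy_isH {A : Type u} [Ring A] [StarRing A] {ε : ℤˣ} {μ : Type} [Fintype μ]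
    [DecidableEq μ] : IsH ε (hyH A ε μ) := by
  unfold IsH hyH
  rw [fromBlocks_conjTranspose, conjTranspose_zsmul, fromBlocks_smul, smul_smul, eps_eps]
  simp [-zsmul_eq_mul]

private theorem hy_map {A : Type u} [Ring A] {B : Type v} [Ring B] {ε : ℤˣ} {μ : Type}
    [DecidableEq μ] (f : A →+* B) : (hyH A ε μ).map f = hyH B ε μ := by
  unfold hyH
  rw [fromBlocks_map, Matrix.map_one _ (map_zero f) (map_one f)]
  congr 1
  · ext i j; simp
  · ext i j
    rw [Matrix.map_apply, Matrix.smul_apply, Matrix.smul_apply, map_zsmul, Matrix.one_apply,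
      Matrix.one_apply]
    split_ifs <;> simp
  · ext i j; simp

private theorem hy_cls {A : Type u} [Ring A] [StarRing A] [HasHalf A] {ε : ℤˣ} {μ : Type}
    [Fintype μ] [DecidableEq μ] : hcl ε (hyH A ε μ) = 0 := by
  have h := hcl_lag (ε := ε) (B := (1 : Matrix μ μ A)) (D := 0)
    (by unfold IsH; simp) 1 (by simp) (by simp)
  rw [conjTranspose_one] at h
  exact h

private theorem dsum_mul {A : Type u} [Ring A] {ι κ : Type} [Fintype ι] [Fintype κ]
    (P P' : Matrix ι ι A) (Q Q' : Matrix κ κ A) :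
    dsum P Q * dsum P' Q' = dsum (P * P') (Q * Q') := by
  simp [dsum, fromBlocks_multiply]

private theorem dsum_scP {A : Type u} [Ring A] [Algebra ℝ A] {ι κ : Type} [DecidableEq ι]
    [DecidableEq κ] (p : ℝ[X]) : dsum (scP A ι p) (scP A κ p) = scP A (ι ⊕ κ) p := by
  unfold dsum scP
  rw [fromBlocks_diagonal]
  congr 1
  ext i
  rcases i with i | i <;> rfl

private theorem dsum_isH {A : Type u} [Ring A] [StarRing A] {ε : ℤˣ} {ι κ : Type}
    {P : Matrix ι ι A} {Q : Matrix κ κ A} (hP : IsH ε P) (hQ : IsH ε Q) : IsH ε (dsum P Q) := by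
  unfold IsH at *
  unfold dsum
  rw [fromBlocks_conjTranspose, fromBlocks_smul, hP, hQ]
  simp

private theorem df_L {A : Type u} [Ring A] [Algebra ℝ A] [StarRing A] [RealStar A] {κ : Type}
    (B C' : Matrix κ κ A) (s : ℝ) :
    (B.map C + (X : A[X]) • C'.map C).map (evR s) = B + s • C' := by
  ext i j
  rw [Matrix.map_apply, Matrix.add_apply, Matrix.smul_apply, Matrix.map_apply, Matrix.map_apply,
    smul_eq_mul, map_add, map_mul, evR_X, evR_C, evR_C, Matrix.add_apply, Matrix.smul_apply,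
    Algebra.smul_def]

private theorem df_poly {A : Type u} [Ring A] [StarRing A] [Algebra ℝ A] [RealStar A] {κ : Type}
    [Fintype κ] [DecidableEq κ] {N T : Matrix κ κ A} (h : Nᴴ * T = T * N) (r : ℝ[X]) :
    (aeval N r)ᴴ * T = T * aeval N r := by
  induction r using Polynomial.induction_on' with
  | add r t hr ht =>
    rw [map_add, conjTranspose_add, Matrix.add_mul, Matrix.mul_add, hr, ht]
  | monomial n c =>
    have e1 : ∀ n : ℕ, (N ^ n)ᴴ * T = T * N ^ n := by
      intro n
      induction n with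
      | zero => simp
      | succ n ih =>
        rw [pow_succ, conjTranspose_mul, Matrix.mul_assoc, ih, ← Matrix.mul_assoc, h,
          Matrix.mul_assoc, ← pow_succ', pow_succ]
    rw [aeval_monomial, ← Algebra.smul_def, df_cs, Matrix.smul_mul, e1, Matrix.mul_smul]

theorem deform {A : Type u} [Ring A] [StarRing A] [Algebra ℝ A] [RealStar A] [HasHalf A]
    {ε : ℤˣ} {ι : Type} [Fintype ι] [DecidableEq ι] (H G : Matrix ι ι A[X]) (hH : IsH ε H)
    (p : ℝ[X]) (h1 : H * G = scP A ι p) (h2 : G * H = scP A ι p) (a b : ℝ) (hab : a < b)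
    (hp : ∀ s ∈ Set.Icc a b, p.eval s ≠ 0) :
    hcl ε (H.map (evR a)) = hcl ε (H.map (evR b)) := by
  obtain ⟨κ, _, _, μ, _, _, B, C', hB, hC, g, h, hgh, hhg, hL⟩ :=
    lin (Finset.univ.sup fun i => Finset.univ.sup fun j => (H i j).natDegree) H hH
      (fun i j => (Finset.le_sup (f := fun j => (H i j).natDegree) (Finset.mem_univ j)).trans
        (Finset.le_sup (f := fun i => Finset.univ.sup fun j => (H i j).natDegree)
          (Finset.mem_univ i)))
  have hpa : p.eval a ≠ 0 := hp a ⟨le_rfl, hab.le⟩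
  have hpb : p.eval b ≠ 0 := hp b ⟨hab.le, le_rfl⟩
  -- the class of `H(s)` is the class of `B + s C'`
  have key : ∀ s : ℝ, p.eval s ≠ 0 → hcl ε (H.map (evR s)) = hcl ε (B + s • C') := by
    intro s hs
    have u1 : IsUnit (H.map (evR s)) := df_unit h1 h2 hs
    have i1 : IsH ε (H.map (evR s)) := df_map_isH hH s
    have e1 : hcl ε (dsum (H.map (evR s)) (hyH A ε μ)) = hcl ε (H.map (evR s)) := by
      rw [hcl_dsum i1 u1 hy_isH hy_unit, hy_cls, add_zero]
    have e2 : (dsum H (hyH A[X] ε μ)).map (evR s) = dsum (H.map (evR s)) (hyH A ε μ) := by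
      rw [dsum_map, hy_map]
    have e3 : (g.map (evR s))ᴴ * dsum (H.map (evR s)) (hyH A ε μ) * g.map (evR s) =
        B + s • C' := by
      rw [← df_L, ← hL, ← map_star_eq (evR s) (evR_star s), ← e2, Matrix.map_mul, Matrix.map_mul]
    rw [← e1, ← e3]
    symm
    refine hcl_congr (dsum_isH i1 hy_isH) (isUnit_dsum u1 hy_unit) _ (h.map (evR s)) ?_ ?_
    · rw [← Matrix.map_mul, hgh, Matrix.map_one _ (map_zero _) (map_one _)]
    · rw [← Matrix.map_mul, hhg, Matrix.map_one _ (map_zero _) (map_one _)]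
  rw [key a hpa, key b hpb]
  -- the adjoint of the linear pencil
  set L := B.map C + (X : A[X]) • C'.map C with hLdef
  set D := dsum H (hyH A[X] ε μ) with hD
  set D' := dsum G (scP A (μ ⊕ μ) p * hyI A[X] ε μ) with hD'
  have d1 : D * D' = scP A (ι ⊕ (μ ⊕ μ)) p := by
    rw [hD, hD', dsum_mul, h1, scP_comm, ← Matrix.mul_assoc, hy1, Matrix.one_mul, dsum_scP]
  have d2 : D' * D = scP A (ι ⊕ (μ ⊕ μ)) p := by
    rw [hD, hD', dsum_mul, h2, Matrix.mul_assoc, hy2, Matrix.mul_one, dsum_scP]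
  have s1 : hᴴ * gᴴ = 1 := by rw [← conjTranspose_mul, hgh, conjTranspose_one]
  have s2 : gᴴ * hᴴ = 1 := by rw [← conjTranspose_mul, hhg, conjTranspose_one]
  have l1 : L * (h * D' * hᴴ) = scP A κ p := by
    calc L * (h * D' * hᴴ) = gᴴ * D * (g * h) * D' * hᴴ := by
          rw [← hL]; simp only [Matrix.mul_assoc]
      _ = gᴴ * (D * D') * hᴴ := by rw [hgh, Matrix.mul_one, Matrix.mul_assoc gᴴ D D']
      _ = scP A κ p * (gᴴ * hᴴ) := by rw [d1, ← df_rect, Matrix.mul_assoc]
      _ = scP A κ p := by rw [s2, Matrix.mul_one]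
  have l2 : (h * D' * hᴴ) * L = scP A κ p := by
    calc (h * D' * hᴴ) * L = h * D' * (hᴴ * gᴴ) * D * g := by
          rw [← hL]; simp only [Matrix.mul_assoc]
      _ = h * (D' * D) * g := by rw [s1, Matrix.mul_one, Matrix.mul_assoc h D' D]
      _ = scP A κ p * (h * g) := by rw [d2, ← df_rect, Matrix.mul_assoc]
      _ = scP A κ p := by rw [hhg, Matrix.mul_one]
  obtain ⟨uBa, N, q, hN, hq0, hqN, hql⟩ := spec B C' (h * D' * hᴴ) p a hpa l1 l2
  have uBb : IsUnit (B + b • C') := by
    rw [← df_L]; exact df_unit l1 l2 hpb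
  have iBa : IsH ε (B + a • C') := by
    unfold IsH at *
    rw [conjTranspose_add, df_cs, hB, hC, smul_add, smul_comm]
  -- `N* B_a = B_a N`
  have hNs : Nᴴ * (B + a • C') = (B + a • C') * N := by
    have e1 : ((B + a • C') * N)ᴴ = (ε : ℤ) • (Nᴴ * (B + a • C')) := by
      rw [conjTranspose_mul, show (B + a • C')ᴴ = (ε : ℤ) • (B + a • C') from iBa,
        Matrix.mul_smul]
    rw [hN, show C'ᴴ = (ε : ℤ) • C' from hC] at e1
    have e2 := congrArg (fun x => (ε : ℤ) • x) e1
    simp only [eps_smul_smul] at e2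
    rw [← e2, hN]
  have hpoly : ∀ r : ℝ[X], (aeval N r)ᴴ * (B + a • C') = (B + a • C') * aeval N r :=
    df_poly hNs
  -- the square root
  have hy : 0 < b - a := sub_pos.2 hab
  have hroot : ∀ l, q.IsRoot l → 0 < (1 + C (b - a) * X : ℝ[X]).eval l := by
    intro l hl
    have e1 : (1 + C (b - a) * X : ℝ[X]).eval l = 1 + (b - a) * l := by simp
    rw [e1]
    by_cases hl0 : 0 ≤ l
    · positivity
    · push Not at hl0
      have h3 := hql l hl0.ne hl
      have h4 : l⁻¹ < 0 := inv_lt_zero.2 hl0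
      have h5 : b < a - l⁻¹ := by
        by_contra h5
        push Not at h5
        exact hp _ ⟨by linarith, h5⟩ h3
      have h6 : l * l⁻¹ = 1 := mul_inv_cancel₀ hl0.ne
      nlinarith
  have hcop : IsCoprime (1 + C (b - a) * X : ℝ[X]) q := by
    have e1 : (1 + C (b - a) * X : ℝ[X]) = C (b - a) * (X - C (-(b - a)⁻¹)) := by
      rw [C_neg, sub_neg_eq_add, mul_add, ← C_mul, mul_inv_cancel₀ hy.ne', C_1]
      ring
    have e2 : IsCoprime (X - C (-(b - a)⁻¹)) q := by
      refine ((irreducible_X_sub_C (-(b - a)⁻¹)).coprime_iff_not_dvd).2 ?_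
      intro hd
      have e3 := hroot _ (dvd_iff_isRoot.1 hd)
      rw [e1] at e3
      simp at e3
    rw [e1]
    exact (isCoprime_mul_unit_left_left (isUnit_C.2 (isUnit_iff_ne_zero.2 hy.ne')) _ _).2 e2
  obtain ⟨s, t, hst⟩ := sq_mod hq0 hcop hroot
  have hS : aeval N s * aeval N s = 1 + (b - a) • N := by
    have e1 : aeval N (s ^ 2) = aeval N (1 + C (b - a) * X) + aeval N (q * t) := by
      rw [← hst, ← map_add]; congr 1; ring
    rw [map_mul, hqN, zero_mul, add_zero, map_add, map_one, map_mul, aeval_C, aeval_X,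
      ← Algebra.smul_def, map_pow, pow_two] at e1
    exact e1
  have hSS : (aeval N s)ᴴ * (B + a • C') * aeval N s = B + b • C' := by
    rw [hpoly, Matrix.mul_assoc, hS, Matrix.mul_add, Matrix.mul_one, Matrix.mul_smul, hN,
      add_assoc, ← add_smul]
    congr 2
    ring
  have uS : IsUnit (aeval N s) := by
    have e1 : IsUnit (1 + (b - a) • N) := by
      obtain ⟨w, hw⟩ := uBa
      obtain ⟨w', hw'⟩ := uBb
      have e2 : w.1 * (1 + (b - a) • N) = w'.1 := by
        rw [hw, hw', Matrix.mul_add, Matrix.mul_one, Matrix.mul_smul, hN, add_assoc, ← add_smul]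
        congr 2
        ring
      have e3 : (1 + (b - a) • N) = (w⁻¹ * w').1 := by
        rw [Units.val_mul, ← e2, ← mul_assoc, w.inv_mul, one_mul]
      rw [e3]
      exact (w⁻¹ * w').isUnit
    rw [← hS, ← pow_two] at e1
    exact (isUnit_pow_iff two_ne_zero).1 e1
  obtain ⟨w, hw⟩ := uS
  rw [← hSS]
  symm
  refine hcl_congr iBa uBa _ w⁻¹.1 ?_ ?_
  · rw [← hw]; exact w.mul_inv
  · rw [← hw]; exact w.inv_mul

end Pool.Agent.H17.LTh
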