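import Pool.Agent.H17.L0.Four

/-!
MP_c13a79_gt, coefficient theorem: products with rational symmetric forms (module Diag).

PLAN. A symmetric invertible matrix over `ℚ` is congruent to an invertible diagonal matrix:
`Vᵀ Q V = diagonal a` (for example `LinearMap.BilinForm.exists_orthogonal_basis`, or induction).
Then `tr_conj`, `scal_diagonal` and `four`: `k = ∑ σ_i`.
-/

set_option autoImplicit false

namespace Pool.Agent.H17.LTh

open Matrix

universe u

private theorem dg_diag {r : Type} [Fintype r] [DecidableEq r] (Q : Matrix r r ℚ) (h1 : Qᵀ = Q) :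
    ∃ (V V' : Matrix r r ℚ) (a : r → ℚ), V * V' = 1 ∧ V' * V = 1 ∧ Vᵀ * Q * V = diagonal a := by
  have hB : LinearMap.IsSymm (Matrix.toBilin' Q) := by
    constructor
    intro x y
    simp only [Matrix.toBilin'_apply', RingHom.id_apply]
    rw [Matrix.dotProduct_mulVec, ← Matrix.mulVec_transpose, h1, dotProduct_comm]
  obtain ⟨v, hv⟩ := LinearMap.BilinForm.exists_orthogonal_basis hB
  have hc : Module.finrank ℚ (r → ℚ) = Fintype.card r := Module.finrank_fintype_fun_eq_card ℚ
  let e : Fin (Module.finrank ℚ (r → ℚ)) ≃ r := (finCongr hc).trans (Fintype.equivFin r).symm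
  let b := v.reindex e
  have hb : ∀ k l, k ≠ l → Matrix.toBilin' Q (b k) (b l) = 0 := by
    intro k l hkl
    have h3 := hv (i := e.symm k) (j := e.symm l) (fun h => hkl (e.symm.injective h))
    simpa [b] using h3
  refine ⟨(Pi.basisFun ℚ r).toMatrix b, b.toMatrix (Pi.basisFun ℚ r),
    fun k => Matrix.toBilin' Q (b k) (b k), Module.Basis.toMatrix_mul_toMatrix_flip _ _,
    Module.Basis.toMatrix_mul_toMatrix_flip _ _, ?_⟩
  have h4 : ∀ k l, (((Pi.basisFun ℚ r).toMatrix b)ᵀ * Q * ((Pi.basisFun ℚ r).toMatrix b)) k l =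
      Matrix.toBilin' Q (b k) (b l) := by
    intro k l
    rw [Matrix.toBilin'_apply', Matrix.mul_assoc, Matrix.mul_apply]
    rfl
  ext k l
  rw [h4, Matrix.diagonal_apply]
  split_ifs with h
  · rw [h]
  · exact hb k l h

theorem diag {r : Type} [Fintype r] [DecidableEq r] (Q : Matrix r r ℚ) (h1 : Qᵀ = Q)
    (h2 : IsUnit Q) :
    ∃ k : ℤ, ∀ (π : Type u) [Group π] (w : π →* ℤˣ) (ε : ℤˣ) (x : L0 (GR ℚ π w) ε),
      4 • (CRep.scal (RingHom.id ℚ) Q h1 h2).tr x = (4 * k) • x := by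
  obtain ⟨V, V', a, hV1, hV2, hVa⟩ := dg_diag Q h1
  have hVu : IsUnit V := ⟨⟨V, V', hV1, hV2⟩, rfl⟩
  have hVt : IsUnit Vᵀ := by
    refine ⟨⟨Vᵀ, V'ᵀ, ?_, ?_⟩, rfl⟩
    · rw [← Matrix.transpose_mul, hV2, Matrix.transpose_one]
    · rw [← Matrix.transpose_mul, hV1, Matrix.transpose_one]
  have hda : IsUnit (diagonal a) := by
    rw [← hVa]
    exact (hVt.mul h2).mul hVu
  have ha : ∀ k, IsUnit (a k) := by
    rw [Matrix.isUnit_diagonal] at hda
    exact fun k => Pi.isUnit_iff.1 hda k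
  choose σ hσ using fun k => four.{u} (a k) (ha k)
  refine ⟨∑ k, (σ k : ℤ), ?_⟩
  intro π _ w ε x
  have e1 : (CRep.scal (RingHom.id ℚ) Q h1 h2).tr x =
      (CRep.scal (RingHom.id ℚ) (diagonal a) (Matrix.diagonal_transpose _) hda).tr x := by
    refine tr_conj _ _ V V' hV1 hV2 ?_ hVa x
    intro c
    change (Matrix.scalar r c) * V = V * (Matrix.scalar r c)
    exact (Matrix.scalar_commute c (fun _ => mul_comm _ _) V).eq
  rw [e1, scal_diagonal _ a ha, Finset.smul_sum, Finset.mul_sum, Finset.sum_smul]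
  exact Finset.sum_congr rfl fun k _ => hσ k π w ε x

end Pool.Agent.H17.LTh
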