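import Pool.Agent.H17.L0.CRep

/-!
MP_c13a79_gt, coefficient theorem: finite stages (module FS).

PLAN. `map_inj`: coefficients. `lift_matrix`: choose preimages of the coefficients on the support
(a preimage of `0` is `0`). `exists_stage`: `x = X.cls`, `X.ψ` a matrix over `T[π]` and an inverse
`η` of `sy ε X.ψ`; `F` = all coefficients of the entries of `ψ` and `η` (finite). Lifts `ψ'`, `η'`
over `S'[π]` satisfy `sy ψ' η' = 1 = η' sy ψ'` by injectivity. `zero_stage`: `L0.co i x = 0` means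
`IsoQ` of `dsum (ψ.map i) (hypM m)` with `dsum 0 (hypM n)` (zero = class of `Form.zero`), given by
matrices `g, h, α` over `T[π]`; `F` = their coefficients; lift them.
-/

set_option autoImplicit false

namespace Pool.Agent.H17.LTh

open Matrix

universe u v u' v'

variable {S : Type v} {T : Type v'} [CommRing S] [CommRing T] {π : Type u} [Group π]
  {w : π →* ℤˣ} {ε : ℤˣ}

theorem map_inj {b : S →+* T} (hb : Function.Injective b) :
    Function.Injective (GR.map b : GR S π w →+* GR T π w) := by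
  intro x y h
  refine GR.ext fun g => hb ?_
  rw [← GR.co_map, ← GR.co_map, h]

private noncomputable def fs_co (g : π) : GR T π w →+ T where
  toFun x := x.co g
  map_zero' := rfl
  map_add' _ _ := rfl

private theorem fs_lift {b : S →+* T} (x : GR T π w) (h : ∀ g, x.co g ∈ Set.range b) :
    ∃ y : GR S π w, GR.map b y = x := by
  classical
  choose f hf using h
  refine ⟨∑ g ∈ x.co.support, GR.single g (f g), ?_⟩
  rw [map_sum]
  simp only [GR.map_single, hf]
  refine GR.ext fun g => ?_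
  have h1 : (∑ g' ∈ x.co.support, (GR.single g' (x.co g') : GR T π w)).co g
      = ∑ g' ∈ x.co.support, (GR.single g' (x.co g') : GR T π w).co g :=
    map_sum (fs_co g) _ _
  rw [h1]
  simp only [GR.co_single]
  rw [Finset.sum_ite_eq' x.co.support g]
  split_ifs with h2
  · rfl
  · exact (Finsupp.notMem_support_iff.1 h2).symm

open Classical in
private noncomputable def fs_cf {ι κ : Type} [Fintype ι] [Fintype κ] (M : Matrix ι κ (GR T π w)) :
    Finset T :=
  (Finset.univ : Finset (ι × κ)).biUnion fun p =>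
    (M p.1 p.2).co.support.image fun g => (M p.1 p.2).co g

private theorem fs_cf_spec {ι κ : Type} [Fintype ι] [Fintype κ] (M : Matrix ι κ (GR T π w))
    (b : S →+* T) (h : ∀ t ∈ fs_cf M, t ∈ Set.range b) (i : ι) (j : κ) (g : π) :
    (M i j).co g ∈ Set.range b := by
  classical
  by_cases h1 : (M i j).co g = 0
  · rw [h1]
    exact ⟨0, map_zero b⟩
  · refine h _ ?_
    unfold fs_cf
    rw [Finset.mem_biUnion]
    exact ⟨(i, j), Finset.mem_univ _, Finset.mem_image.2 ⟨g, Finsupp.mem_support_iff.2 h1, rfl⟩⟩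

theorem lift_matrix {ι κ : Type} {b : S →+* T} (M : Matrix ι κ (GR T π w))
    (h : ∀ i j g, (M i j).co g ∈ Set.range b) :
    ∃ M' : Matrix ι κ (GR S π w), M'.map (GR.map b) = M := by
  choose f hf using fun i j => fs_lift (S := S) (b := b) (M i j) (h i j)
  exact ⟨Matrix.of f, by ext i j; exact hf i j⟩

private theorem fs_cancel {b : S →+* T} (hb : Function.Injective b) {ι κ : Type}
    {M N : Matrix ι κ (GR S π w)} (h : M.map (GR.map b) = N.map (GR.map b)) : M = N := by
  ext i j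
  exact map_inj hb (congrFun (congrFun h i) j)

private theorem fs_comp {S' : Type u'} [CommRing S'] (a : S →+* S') (b : S' →+* T) (x : GR S π w) :
    (GR.map b (GR.map a x) : GR T π w) = GR.map (b.comp a) x := by
  refine GR.ext fun g => ?_
  rw [GR.co_map, GR.co_map, GR.co_map]
  rfl

theorem exists_stage (x : L0 (GR T π w) ε) : ∃ F : Finset T, ∀ (S' : Type v) [CommRing S']
    (b : S' →+* T), Function.Injective b → (∀ t ∈ F, t ∈ Set.range b) →
      ∃ x' : L0 (GR S' π w) ε, L0.co b x' = x := by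
  classical
  obtain ⟨X, rfl⟩ := Quotient.exists_rep x
  obtain ⟨u, hu⟩ := X.nonsing
  refine ⟨fs_cf X.ψ ∪ fs_cf u⁻¹.1, fun S' _ b hb hF => ?_⟩
  obtain ⟨ψ', hψ⟩ := lift_matrix (b := b) X.ψ
    (fs_cf_spec X.ψ b fun t ht => hF t (Finset.mem_union_left _ ht))
  obtain ⟨η', hη⟩ := lift_matrix (b := b) u⁻¹.1
    (fs_cf_spec u⁻¹.1 b fun t ht => hF t (Finset.mem_union_right _ ht))
  have h1 : (sy ε ψ').map (GR.map b) = u.1 := by
    rw [← sy_map (GR.map b) (GR.map_star b), hψ, hu]
  have h2 : sy ε ψ' * η' = 1 := by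
    refine fs_cancel hb ?_
    rw [Matrix.map_mul, h1, hη, u.mul_inv, Matrix.map_one _ (map_zero _) (map_one _)]
  have h3 : η' * sy ε ψ' = 1 := by
    refine fs_cancel hb ?_
    rw [Matrix.map_mul, h1, hη, u.inv_mul, Matrix.map_one _ (map_zero _) (map_one _)]
  refine ⟨(Form.mk X.ι ψ' ⟨⟨sy ε ψ', η', h2, h3⟩, rfl⟩ : Form (GR S' π w) ε).cls, ?_⟩
  exact Form.cls_eq.2 (.of_iso (IsoQ.of_eq hψ))

open Classical in
private theorem fs_iso {S' : Type u'} [CommRing S'] {b : S' →+* T} (hb : Function.Injective b)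
    {ι κ : Type} [Fintype ι] [DecidableEq ι] [Fintype κ] [DecidableEq κ]
    (ψ : Matrix ι ι (GR S' π w)) (φ : Matrix κ κ (GR S' π w)) (g : Matrix ι κ (GR T π w))
    (k : Matrix κ ι (GR T π w)) (α : Matrix κ κ (GR T π w)) (h1 : g * k = 1) (h2 : k * g = 1)
    (h3 : gᴴ * ψ.map (GR.map b) * g = φ.map (GR.map b) + (α - (ε : ℤ) • αᴴ))
    (hF : ∀ t ∈ fs_cf g ∪ (fs_cf k ∪ fs_cf α), t ∈ Set.range b) : IsoQ ε ψ φ := by
  obtain ⟨g', hg⟩ := lift_matrix (b := b) g
    (fs_cf_spec g b fun t ht => hF t (Finset.mem_union_left _ ht))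
  obtain ⟨k', hk⟩ := lift_matrix (b := b) k
    (fs_cf_spec k b fun t ht => hF t (Finset.mem_union_right _ (Finset.mem_union_left _ ht)))
  obtain ⟨α', hα⟩ := lift_matrix (b := b) α
    (fs_cf_spec α b fun t ht => hF t (Finset.mem_union_right _ (Finset.mem_union_right _ ht)))
  refine ⟨g', k', α', ?_, ?_, ?_⟩
  · refine fs_cancel hb ?_
    rw [Matrix.map_mul, hg, hk, h1, Matrix.map_one _ (map_zero _) (map_one _)]
  · refine fs_cancel hb ?_
    rw [Matrix.map_mul, hg, hk, h2, Matrix.map_one _ (map_zero _) (map_one _)]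
  · refine fs_cancel hb ?_
    rw [Matrix.map_mul, Matrix.map_mul, map_star_eq (GR.map b) (GR.map_star b), hg, h3,
      Matrix.map_add _ (map_add (GR.map b)), map_sub_eps (GR.map b) (GR.map_star b), hα]

theorem zero_stage (i : S →+* T) (x : L0 (GR S π w) ε) (h : L0.co i x = 0) :
    ∃ F : Finset T, ∀ (S' : Type u') [CommRing S'] (a : S →+* S') (b : S' →+* T),
      Function.Injective b → b.comp a = i → (∀ t ∈ F, t ∈ Set.range b) → L0.co a x = 0 := by
  classical
  obtain ⟨X, rfl⟩ := Quotient.exists_rep x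
  obtain ⟨m, n, g, k, α, h1, h2, h3⟩ :=
    (Form.cls_eq (X := X.map (GR.map i) (GR.map_star i)) (Y := Form.zero (GR T π w) ε)).1 h
  refine ⟨fs_cf g ∪ (fs_cf k ∪ fs_cf α), fun S' _ a b hb hab hF => ?_⟩
  refine (Form.cls_eq (X := X.map (GR.map a) (GR.map_star a))
    (Y := Form.zero (GR S' π w) ε)).2 ⟨m, n, ?_⟩
  refine fs_iso hb _ _ g k α h1 h2 ?_ hF
  have h4 : ((X.map (GR.map a) (GR.map_star a) : Form (GR S' π w) ε).ψ).map (GR.map b)
      = (X.map (GR.map i) (GR.map_star i) : Form (GR T π w) ε).ψ := by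
    ext p q
    change GR.map b (GR.map a (X.ψ p q)) = GR.map i (X.ψ p q)
    rw [fs_comp, hab]
  have h5 : ((Form.zero (GR S' π w) ε).ψ).map (GR.map b) = (Form.zero (GR T π w) ε).ψ := by
    ext p q
    exact p.elim
  rw [dsum_map, dsum_map, hypM_map, hypM_map, h4, h5]
  exact h3

end Pool.Agent.H17.LTh
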