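import Pool.Agent.H17.L0.Scal

/-!
MP_c13a79_gt, coefficient theorem: four squares (module Four).

`4 ⟨a⟩ x = ± 4 x` for rational `a ≠ 0` (sign of `a`).

PLAN. `a = n/d`, `⟨n/d⟩ = ⟨n d / d²⟩`, so by `scal1_sq` and `scal1_neg` we may assume `a = N > 0` an
integer. `N = p² + q² + r² + s²` (`Nat.sum_four_squares`). The quaternion matrix
`V = [[p,-q,-r,-s],[q,p,-s,r],[r,s,p,-q],[s,-r,q,p]]` satisfies `Vᵀ V = V Vᵀ = N • 1` (check
entrywise by `ring`), so `Vᵀ (1) V = diagonal (N,N,N,N)`, and by `tr_conj` and `scal_diagonal`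
`4 ⟨N⟩ x = 4 ⟨1⟩ x = 4 x`.
-/

set_option autoImplicit false

namespace Pool.Agent.H17.LTh

open Matrix

universe u

private def qv (p q r s : ℚ) : Matrix (Fin 4) (Fin 4) ℚ :=
  !![p, -q, -r, -s; q, p, -s, r; r, s, p, -q; s, -r, q, p]

private theorem qv_mul (p q r s : ℚ) :
    qv p q r s * (qv p q r s)ᵀ = Matrix.diagonal fun _ => p ^ 2 + q ^ 2 + r ^ 2 + s ^ 2 := by
  ext i j
  fin_cases i <;> fin_cases j <;>
    simp [qv, Matrix.mul_apply, Fin.sum_univ_four, Matrix.diagonal] <;> ring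

private theorem qv_mul' (p q r s : ℚ) :
    (qv p q r s)ᵀ * qv p q r s = Matrix.diagonal fun _ => p ^ 2 + q ^ 2 + r ^ 2 + s ^ 2 := by
  ext i j
  fin_cases i <;> fin_cases j <;>
    simp [qv, Matrix.mul_apply, Fin.sum_univ_four, Matrix.diagonal] <;> ring

private theorem four_pos (p q r s : ℚ) (hN : IsUnit (p ^ 2 + q ^ 2 + r ^ 2 + s ^ 2)) (π : Type u)
    [Group π] (w : π →* ℤˣ) (ε : ℤˣ) (x : L0 (GR ℚ π w) ε) :
    4 • (CRep.scal1 (RingHom.id ℚ) (p ^ 2 + q ^ 2 + r ^ 2 + s ^ 2) hN).tr x = 4 • x := by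
  set N : ℚ := p ^ 2 + q ^ 2 + r ^ 2 + s ^ 2 with hNdef
  have hN0 : N ≠ 0 := hN.ne_zero
  have u1 : IsUnit (Matrix.diagonal (fun _ : Fin 4 => (1 : ℚ))) := by
    rw [Matrix.diagonal_one]
    exact isUnit_one
  have u2 : IsUnit (Matrix.diagonal (fun _ : Fin 4 => N)) := by
    rw [Matrix.isUnit_diagonal]
    exact Pi.isUnit_iff.2 fun _ => hN
  have e1 := scal_diagonal (RingHom.id ℚ) (fun _ : Fin 4 => (1 : ℚ)) (fun _ => isUnit_one)
    (Matrix.diagonal_transpose _) u1 x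
  have e2 := scal_diagonal (RingHom.id ℚ) (fun _ : Fin 4 => N) (fun _ => hN)
    (Matrix.diagonal_transpose _) u2 x
  have e3 := tr_conj (CRep.scal (RingHom.id ℚ) (Matrix.diagonal (fun _ : Fin 4 => (1 : ℚ)))
    (Matrix.diagonal_transpose _) u1)
    (CRep.scal (RingHom.id ℚ) (Matrix.diagonal (fun _ : Fin 4 => N))
    (Matrix.diagonal_transpose _) u2) (qv p q r s) (N⁻¹ • (qv p q r s)ᵀ)
    (by
      rw [Matrix.mul_smul, qv_mul, ← hNdef, ← Matrix.diagonal_smul]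
      have : (N⁻¹ • fun _ : Fin 4 => N) = fun _ => 1 := by
        funext i
        simp [hN0]
      rw [this, Matrix.diagonal_one])
    (by
      rw [Matrix.smul_mul, qv_mul', ← hNdef, ← Matrix.diagonal_smul]
      have : (N⁻¹ • fun _ : Fin 4 => N) = fun _ => 1 := by
        funext i
        simp [hN0]
      rw [this, Matrix.diagonal_one])
    (fun a => by
      change Matrix.diagonal (fun _ => a) * _ = _ * Matrix.diagonal (fun _ => a)
      ext i j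
      rw [Matrix.diagonal_mul, Matrix.mul_diagonal, mul_comm])
    (by
      change (qv p q r s)ᵀ * Matrix.diagonal (fun _ : Fin 4 => (1 : ℚ)) * qv p q r s = Matrix.diagonal (fun _ : Fin 4 => N)
      rw [Matrix.diagonal_one, Matrix.mul_one, qv_mul']) x
  rw [Finset.sum_const, Finset.card_univ, Fintype.card_fin] at e1 e2
  rw [scal1_one, co_id] at e1
  rw [← e2, ← e3, e1]

theorem four (a : ℚ) (ha : IsUnit a) :
    ∃ σ : ℤˣ, ∀ (π : Type u) [Group π] (w : π →* ℤˣ) (ε : ℤˣ) (x : L0 (GR ℚ π w) ε),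
      4 • (CRep.scal1 (RingHom.id ℚ) a ha).tr x = (4 * (σ : ℤ)) • x := by
  have ha0 : a ≠ 0 := ha.ne_zero
  have hd0 : (a.den : ℚ) ≠ 0 := by exact_mod_cast a.den_nz
  have hd : IsUnit (a.den : ℚ) := isUnit_iff_ne_zero.2 hd0
  have hm : IsUnit (a * (a.den : ℚ) ^ 2) := isUnit_iff_ne_zero.2 (mul_ne_zero ha0 (pow_ne_zero 2 hd0))
  have e1 : a * (a.den : ℚ) ^ 2 = ((a.num * a.den : ℤ) : ℚ) := by
    have h1 : a * (a.den : ℚ) = a.num := Rat.mul_den_eq_num a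
    calc a * (a.den : ℚ) ^ 2 = (a * a.den) * a.den := by ring
      _ = ((a.num * a.den : ℤ) : ℚ) := by rw [h1]; push_cast; ring
  obtain ⟨p, q, r, s, h4⟩ := Nat.sum_four_squares (a.num * a.den : ℤ).natAbs
  have e2 : ((p : ℚ) ^ 2 + (q : ℚ) ^ 2 + (r : ℚ) ^ 2 + (s : ℚ) ^ 2) = (((a.num * a.den : ℤ).natAbs : ℕ) : ℚ) := by
    rw [← h4]
    push_cast
    ring
  rcases Int.natAbs_eq (a.num * a.den : ℤ) with h | h
  · refine ⟨1, fun π _ w ε x => ?_⟩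
    rw [← scal1_sq (RingHom.id ℚ) a a.den ha hd hm x]
    have e3 : a * (a.den : ℚ) ^ 2 = (p : ℚ) ^ 2 + (q : ℚ) ^ 2 + (r : ℚ) ^ 2 + (s : ℚ) ^ 2 := by
      rw [e1, e2, h]
      simp
    have key : ∀ (c : ℚ) (hc : IsUnit c), c = (p : ℚ) ^ 2 + (q : ℚ) ^ 2 + (r : ℚ) ^ 2 + (s : ℚ) ^ 2 →
        (4 : ℕ) • (CRep.scal1 (RingHom.id ℚ) c hc).tr x = (4 : ℕ) • x := by
      intro c hc hce
      subst hce
      exact four_pos p q r s hc π w ε x
    rw [key _ hm e3, Units.val_one, mul_one]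
    exact (natCast_zsmul x 4).symm
  · refine ⟨-1, fun π _ w ε x => ?_⟩
    rw [← scal1_sq (RingHom.id ℚ) a a.den ha hd hm x]
    have e3 : a * (a.den : ℚ) ^ 2 = -((p : ℚ) ^ 2 + (q : ℚ) ^ 2 + (r : ℚ) ^ 2 + (s : ℚ) ^ 2) := by
      rw [e1, e2, h]
      simp
    have key : ∀ (c : ℚ) (hc : IsUnit c), c = -((p : ℚ) ^ 2 + (q : ℚ) ^ 2 + (r : ℚ) ^ 2 + (s : ℚ) ^ 2) →
        ((4 : ℕ) • (CRep.scal1 (RingHom.id ℚ) c hc).tr x : L0 (GR ℚ π w) ε) = -((4 : ℕ) • x : L0 (GR ℚ π w) ε) := by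
      intro c hc hce
      subst hce
      have hc' : IsUnit ((p : ℚ) ^ 2 + (q : ℚ) ^ 2 + (r : ℚ) ^ 2 + (s : ℚ) ^ 2) := by
        have := hc.neg
        rwa [neg_neg] at this
      rw [scal1_neg (RingHom.id ℚ) _ hc' hc x, neg_nsmul]
      exact congrArg Neg.neg (four_pos p q r s hc' π w ε x)
    rw [key _ hm e3, Units.val_neg, Units.val_one, mul_neg, mul_one, neg_zsmul]
    exact congrArg Neg.neg (natCast_zsmul x 4).symm

end Pool.Agent.H17.LTh
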