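import Pool.Agent.H17.L0.TrP

/-!
MP_c13a79_gt, coefficient theorem: the transfer representation of a finite field extension
(module Frob).

`E / K` finite with power basis `b_i`, `T : E → K` a nonzero linear form, `u ∈ E` nonzero:
`ρ = ` the regular representation, `P = (T(u b_i b_j))`.

PLAN. `unit`: over a field it is enough that `P *ᵥ y = 0` implies `y = 0` (or `det P ≠ 0`,
`Matrix.exists_mulVec_eq_zero_iff`): with `z = ∑ y_j b_j` we get `T(u z b_i) = 0` for all `i`, so
`T(u z t) = 0` for all `t ∈ E`; if `z ≠ 0` then `T = 0`. `adj`: `(P ρ(a))_ij = ∑_k T(u b_i b_k)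
ρ(a)_kj = T(u b_i (a b_j))` (`Algebra.leftMulMatrix_apply`, `Basis.sum_repr`), and
`(ρ(a)ᵀ P)_ij = T(u (a b_i) b_j)`.
-/

set_option autoImplicit false

namespace Pool.Agent.H17.LTh

open Matrix Polynomial

variable {K E : Type} [Field K] [Field E] [Algebra K E]

/-- The matrix `(T(u b_i b_j))`. -/
noncomputable def frobP (pb : PowerBasis K E) (T : E →ₗ[K] K) (u : E) :
    Matrix (Fin pb.dim) (Fin pb.dim) K :=
  Matrix.of fun i j => T (u * pb.basis i * pb.basis j)

private theorem frob_apply (pb : PowerBasis K E) (T : E →ₗ[K] K) (u a : E) (i j : Fin pb.dim) :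
    (frobP pb T u * Algebra.leftMulMatrix pb.basis a) i j = T (u * pb.basis i * (a * pb.basis j)) := by
  rw [Matrix.mul_apply]
  have h : ∀ k, frobP pb T u i k * Algebra.leftMulMatrix pb.basis a k j =
      T (u * pb.basis i * (pb.basis.repr (a * pb.basis j) k • pb.basis k)) := by
    intro k
    rw [Algebra.leftMulMatrix_eq_repr_mul, mul_smul_comm, map_smul, smul_eq_mul, mul_comm]
    rfl
  rw [Finset.sum_congr rfl fun k _ => h k, ← map_sum, ← Finset.mul_sum, pb.basis.sum_repr]

private theorem frob_symm (pb : PowerBasis K E) (T : E →ₗ[K] K) (u : E) :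
    (frobP pb T u)ᵀ = frobP pb T u := by
  ext i j
  rw [Matrix.transpose_apply]
  change T _ = T _
  congr 1
  ring

private theorem frob_unit (pb : PowerBasis K E) (T : E →ₗ[K] K) (hT : T ≠ 0) (u : E) (hu : u ≠ 0) :
    IsUnit (frobP pb T u) := by
  rw [Matrix.isUnit_iff_isUnit_det, isUnit_iff_ne_zero]
  intro h0
  obtain ⟨v, hv, h1⟩ := Matrix.exists_mulVec_eq_zero_iff.2 h0
  set z : E := ∑ j, v j • pb.basis j with hz
  have hz0 : z ≠ 0 := by
    intro h2
    apply hv
    have h3 := Fintype.linearIndependent_iff.1 pb.basis.linearIndependent v (by rw [← hz]; exact h2)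
    funext j
    exact h3 j
  have h2 : ∀ i, T (u * z * pb.basis i) = 0 := by
    intro i
    have h3 := congrFun h1 i
    rw [Matrix.mulVec, dotProduct, Pi.zero_apply] at h3
    rw [← h3]
    have h4 : u * z * pb.basis i = ∑ j, v j • (u * pb.basis i * pb.basis j) := by
      rw [hz, mul_right_comm, Finset.mul_sum]
      refine Finset.sum_congr rfl fun j _ => ?_
      rw [mul_smul_comm]
    rw [h4, map_sum]
    refine Finset.sum_congr rfl fun j _ => ?_
    rw [map_smul, smul_eq_mul, mul_comm]
    rfl
  have h3 : ∀ t, T (u * z * t) = 0 := by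
    intro t
    rw [← pb.basis.sum_repr t, Finset.mul_sum, map_sum]
    refine Finset.sum_eq_zero fun i _ => ?_
    rw [mul_smul_comm, map_smul, h2, smul_zero]
  apply hT
  ext e
  have h4 := h3 ((u * z)⁻¹ * e)
  rw [mul_inv_cancel_left₀ (mul_ne_zero hu hz0)] at h4
  exact h4

private theorem frob_adj (pb : PowerBasis K E) (T : E →ₗ[K] K) (u a : E) :
    frobP pb T u * Algebra.leftMulMatrix pb.basis a =
      (Algebra.leftMulMatrix pb.basis a)ᵀ * frobP pb T u := by
  have h : (Algebra.leftMulMatrix pb.basis a)ᵀ * frobP pb T u =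
      (frobP pb T u * Algebra.leftMulMatrix pb.basis a)ᵀ := by
    rw [Matrix.transpose_mul, frob_symm]
  rw [h]
  ext i j
  rw [Matrix.transpose_apply, frob_apply, frob_apply]
  congr 1
  ring

/-- The transfer representation. -/
noncomputable def frob (pb : PowerBasis K E) (T : E →ₗ[K] K) (hT : T ≠ 0) (u : E) (hu : u ≠ 0) :
    CRep E K (Fin pb.dim) where
  ρ := (Algebra.leftMulMatrix pb.basis).toRingHom
  P := frobP pb T u
  symm := by
    exact frob_symm pb T u
  unit := by
    exact frob_unit pb T hT u hu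
  adj a := by
    exact frob_adj pb T u a

/-- `P_u = P_1 ρ(u)`. -/
theorem frobP_eq (pb : PowerBasis K E) (T : E →ₗ[K] K) (u : E) :
    frobP pb T u = frobP pb T 1 * Algebra.leftMulMatrix pb.basis u := by
  ext i j
  rw [frob_apply]
  change T _ = T _
  congr 1
  ring

end Pool.Agent.H17.LTh
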