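import Mathlib

/-!
MP_c13a79_gt, coefficient theorem: a rational quadratic polynomial isolating a real root
(module GEx; Mathlib only).

PLAN. The real roots of `f` are finitely many; choose rational `q0`, `δ > 0` with
`|θ - q0| < δ` and `|l - q0| > δ` for the other roots `l` (for example a rational `q0` very close to
`θ`), `g = C (δ²) - (X - C q0)²`. `g = -(X - C (q0 + δ)) (X - C (q0 - δ))` and `q0 ± δ` are not roots
of `f` (they are different from `θ` and from the other roots), so `g` is prime to `f`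
(`Polynomial.isCoprime_of_...` / `(irreducible_X_sub_C _).coprime_iff_not_dvd`, `dvd_iff_isRoot`).
-/

set_option autoImplicit false

namespace Pool.Agent.H17.LTh

open Polynomial

theorem gex (f : ℝ[X]) (hf : f ≠ 0) (θ : ℝ) : ∃ g : ℚ[X],
    0 < (g.map (algebraMap ℚ ℝ)).eval θ ∧
    (∀ l : ℝ, f.IsRoot l → l ≠ θ → (g.map (algebraMap ℚ ℝ)).eval l < 0) ∧
    IsCoprime (g.map (algebraMap ℚ ℝ)) f := by
  classical
  obtain ⟨ε, hε, hεl⟩ : ∃ ε : ℝ, 0 < ε ∧ ∀ l : ℝ, f.IsRoot l → l ≠ θ → ε ≤ |l - θ| := by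
    have hfin : ∀ S : Finset ℝ, (∀ l ∈ S, l ≠ θ) → ∃ ε : ℝ, 0 < ε ∧ ∀ l ∈ S, ε ≤ |l - θ| := by
      intro S
      induction S using Finset.induction_on with
      | empty => exact fun _ => ⟨1, one_pos, fun l hl => absurd hl (Finset.notMem_empty l)⟩
      | insert a S ha ih =>
        intro h
        obtain ⟨e, he, hS⟩ := ih fun l hl => h l (Finset.mem_insert_of_mem hl)
        have h1 : 0 < |a - θ| := abs_pos.2 (sub_ne_zero.2 (h a (Finset.mem_insert_self _ _)))
        refine ⟨min e |a - θ|, lt_min he h1, fun l hl => ?_⟩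
        rcases Finset.mem_insert.1 hl with rfl | hl
        · exact min_le_right _ _
        · exact (min_le_left _ _).trans (hS l hl)
    obtain ⟨ε, hε, h⟩ := hfin (f.roots.toFinset.erase θ) fun l hl => Finset.ne_of_mem_erase hl
    refine ⟨ε, hε, fun l hl hne => h l (Finset.mem_erase.2 ⟨hne, ?_⟩)⟩
    rw [Multiset.mem_toFinset, Polynomial.mem_roots hf]
    exact hl
  obtain ⟨δ, hδ1, hδ2⟩ := exists_rat_btwn (show ε / 4 < ε / 2 by linarith)
  obtain ⟨q0, hq1, hq2⟩ := exists_rat_btwn (show θ - ε / 4 < θ + ε / 4 by linarith)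
  have hq : |θ - q0| < ε / 4 := by
    rw [abs_lt]
    constructor <;> linarith
  have hδ0 : (0 : ℝ) < δ := by linarith
  have hother : ∀ l : ℝ, f.IsRoot l → l ≠ θ → (δ : ℝ) < |l - q0| := by
    intro l hl hne
    have h1 := hεl l hl hne
    have h2 : |l - θ| ≤ |l - q0| + |θ - q0| := by
      have : l - θ = (l - q0) - (θ - q0) := by ring
      rw [this]
      exact abs_sub _ _
    linarith
  have hmap : (C (δ ^ 2) - (X - C q0) ^ 2 : ℚ[X]).map (algebraMap ℚ ℝ) =
      C ((δ : ℝ) ^ 2) - (X - C (q0 : ℝ)) ^ 2 := by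
    simp
  have hev : ∀ x : ℝ, (C ((δ : ℝ) ^ 2) - (X - C (q0 : ℝ)) ^ 2 : ℝ[X]).eval x = (δ : ℝ) ^ 2 - (x - q0) ^ 2 := by
    intro x
    simp
  refine ⟨C (δ ^ 2) - (X - C q0) ^ 2, ?_, ?_, ?_⟩
  · rw [hmap, hev, ← sq_abs (θ - q0)]
    have := abs_nonneg (θ - q0)
    nlinarith
  · intro l hl hne
    rw [hmap, hev, ← sq_abs (l - q0)]
    have := hother l hl hne
    nlinarith
  · rw [hmap]
    have e : (C ((δ : ℝ) ^ 2) - (X - C (q0 : ℝ)) ^ 2 : ℝ[X]) =
        -((X - C ((q0 : ℝ) + δ)) * (X - C ((q0 : ℝ) - δ))) := by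
      simp only [C_add, C_sub, C_pow]
      ring
    have hroot : ∀ s : ℝ, |s| = δ → IsCoprime (X - C ((q0 : ℝ) + s)) f := by
      intro s hs
      rw [(Polynomial.irreducible_X_sub_C _).coprime_iff_not_dvd, Polynomial.dvd_iff_isRoot]
      intro h
      by_cases hθ : (q0 : ℝ) + s = θ
      · have h1 : |θ - q0| = δ := by
          rw [← hθ, add_sub_cancel_left, hs]
        linarith
      · have h1 := hother _ h hθ
        rw [add_sub_cancel_left, hs] at h1
        exact lt_irrefl _ h1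
    rw [e, IsCoprime.neg_left_iff]
    refine IsCoprime.mul_left (hroot _ (abs_of_pos hδ0)) ?_
    have h := hroot (-δ) (by rw [abs_neg, abs_of_pos hδ0])
    rwa [← sub_eq_add_neg] at h

end Pool.Agent.H17.LTh
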