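import Pool.Agent.H17.L0.Tr

/-!
MP_c13a79_gt, coefficient theorem: rings in which `2` is invertible (module Herm).

`HasHalf A`: there is `c` with `c + c = 1` (then `c` is central and `c* = c`).
`IsH ε G`: `G` is `ε`-hermitian. `hcl ε G`: the class in `L₀^ε(A)` of an invertible `ε`-hermitian
matrix `G` (the class of any `ψ` with `ψ + ε ψ* = G`, for example `ψ = c G`).

PLAN. `half_comm`: `2 (c a - a c) = 0`, multiply by `c`. If `sy ψ = sy ψ'` then `δ = ψ - ψ'`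
satisfies `δ = -ε δ*`, so `δ = α - ε α*` with `α = c • δ` (entrywise `c * δ_ij`); hence `hcl_sy`.
The other statements: choose `ψ = c G` (`exists_sy`) and use the operations on `Form`.
`hcl_lag`: `D = δ + ε δ*`, `ψ = fromBlocks 0 B 0 δ`, lemma `lag`.
-/

set_option autoImplicit false

namespace Pool.Agent.H17.LTh

open Matrix

universe u v

/-- `2` is invertible. -/
class HasHalf (A : Type u) [Ring A] : Prop where
  out : ∃ c : A, c + c = 1

/-- `G` is `ε`-hermitian. -/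
def IsH {A : Type u} [Ring A] [StarRing A] (ε : ℤˣ) {ι : Type} (G : Matrix ι ι A) : Prop :=
  Gᴴ = (ε : ℤ) • G

open Classical in
/-- The class of an invertible `ε`-hermitian matrix. -/
noncomputable def hcl {A : Type u} [Ring A] [StarRing A] (ε : ℤˣ) {ι : Type} [Fintype ι]
    [DecidableEq ι] (G : Matrix ι ι A) : L0 A ε :=
  if h : ∃ ψ : Matrix ι ι A, sy ε ψ = G ∧ IsUnit (sy ε ψ) then
    (Form.mk ι h.choose h.choose_spec.2 : Form A ε).cls
  else 0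

theorem HasHalf.map {A : Type u} {B : Type v} [Ring A] [Ring B] [HasHalf A] (f : A →+* B) :
    HasHalf B := by
  obtain ⟨c, hc⟩ := HasHalf.out (A := A)
  exact ⟨f c, by rw [← map_add, hc, map_one]⟩

instance {R : Type v} [CommRing R] [HasHalf R] {π : Type u} [Group π] {w : π →* ℤˣ} :
    HasHalf (GR R π w) :=
  HasHalf.map (algebraMap R (GR R π w))

instance : HasHalf ℚ := ⟨1 / 2, by norm_num⟩

instance : HasHalf ℝ := ⟨1 / 2, by norm_num⟩

variable {A : Type u} [Ring A] [StarRing A] [HasHalf A] {ε : ℤˣ} {ι κ : Type} [Fintype ι]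
  [DecidableEq ι] [Fintype κ] [DecidableEq κ]

omit [StarRing A] [HasHalf A] in
theorem half_comm {c : A} (hc : c + c = 1) (a : A) : c * a = a * c := by
  have h1 : (c * a - a * c) + (c * a - a * c) = 0 := by
    have h2 : (c + c) * a = a * (c + c) := by rw [hc, one_mul, mul_one]
    rw [add_mul, mul_add] at h2
    have h3 : (c * a - a * c) + (c * a - a * c) = (c * a + c * a) - (a * c + a * c) := by abel
    rw [h3, h2, sub_self]
  have h4 : c * a - a * c = 0 := by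
    calc c * a - a * c = (c + c) * (c * a - a * c) := by rw [hc, one_mul]
      _ = c * ((c * a - a * c) + (c * a - a * c)) := by rw [add_mul, mul_add]
      _ = 0 := by rw [h1, mul_zero]
  exact sub_eq_zero.1 h4

omit [HasHalf A] in
theorem half_star {c : A} (hc : c + c = 1) : star c = c := by
  have h1 : star c + star c = 1 := by rw [← star_add, hc, star_one]
  calc star c = star c * (c + c) := by rw [hc, mul_one]
    _ = (star c + star c) * c := by rw [mul_add, add_mul]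
    _ = c := by rw [h1, one_mul]

omit [HasHalf A] in
theorem isH_sy (ψ : Matrix ι ι A) : IsH ε (sy ε ψ) := by
  unfold IsH sy
  rw [conjTranspose_add, conjTranspose_zsmul, conjTranspose_conjTranspose, smul_add,
    eps_smul_smul, add_comm]

omit [HasHalf A] [Fintype ι] [DecidableEq ι] in
private theorem hm_cs {c : A} (hc : c + c = 1) (M : Matrix ι ι A) : (c • M)ᴴ = c • Mᴴ := by
  ext i j
  rw [conjTranspose_apply, Matrix.smul_apply, Matrix.smul_apply, conjTranspose_apply, smul_eq_mul, smul_eq_mul,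
    star_mul, half_star hc, half_comm hc]

omit [StarRing A] [HasHalf A] [Fintype ι] [DecidableEq ι] in
private theorem hm_smul_comm (n : ℤ) (c : A) (M : Matrix ι ι A) : c • n • M = n • c • M := by
  ext i j
  rw [Matrix.smul_apply, Matrix.smul_apply, Matrix.smul_apply, Matrix.smul_apply, smul_eq_mul,
    smul_eq_mul, mul_smul_comm]

theorem exists_sy {G : Matrix ι ι A} (h : IsH ε G) : ∃ ψ, sy ε ψ = G := by
  obtain ⟨c, hc⟩ := HasHalf.out (A := A)
  refine ⟨c • G, ?_⟩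
  unfold sy
  rw [hm_cs hc, show Gᴴ = (ε : ℤ) • G from h, hm_smul_comm, eps_smul_smul, ← add_smul, hc,
    one_smul]

theorem mod_of_sy_eq {ψ φ : Matrix ι ι A} (h : sy ε ψ = sy ε φ) :
    ∃ α : Matrix ι ι A, ψ = φ + (α - (ε : ℤ) • αᴴ) := by
  obtain ⟨c, hc⟩ := HasHalf.out (A := A)
  have h1 : (ε : ℤ) • (ψ - φ)ᴴ = -(ψ - φ) := by
    unfold sy at h
    have h2 : ψ - φ + (ε : ℤ) • (ψ - φ)ᴴ = 0 := by
      rw [conjTranspose_sub, smul_sub]
      calc ψ - φ + ((ε : ℤ) • ψᴴ - (ε : ℤ) • φᴴ) = (ψ + (ε : ℤ) • ψᴴ) - (φ + (ε : ℤ) • φᴴ) := by abel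
        _ = 0 := by rw [h, sub_self]
    exact (neg_eq_of_add_eq_zero_right h2).symm
  refine ⟨c • (ψ - φ), ?_⟩
  rw [hm_cs hc, ← hm_smul_comm, h1, smul_neg, sub_neg_eq_add, ← add_smul, hc, one_smul]
  abel

private theorem hm_eq {G : Matrix ι ι A} (ψ : Matrix ι ι A) (h : sy ε ψ = G)
    (hu : IsUnit (sy ε ψ)) : hcl ε G = (Form.mk ι ψ hu : Form A ε).cls := by
  have h1 : ∃ ψ : Matrix ι ι A, sy ε ψ = G ∧ IsUnit (sy ε ψ) := ⟨ψ, h, hu⟩
  unfold hcl
  rw [dif_pos h1]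
  have h2 := h1.choose_spec
  obtain ⟨α, hα⟩ := mod_of_sy_eq (ε := ε) (ψ := h1.choose) (φ := ψ) (h2.1.trans h.symm)
  refine Form.cls_eq.2 (.of_iso ?_)
  exact (IsoQ.of_eq hα).trans (IsoQ.add ψ α)

omit [HasHalf A] [DecidableEq ι] [Fintype κ] [DecidableEq κ] in
private theorem hm_sy_conj (ψ : Matrix ι ι A) (g : Matrix ι κ A) :
    sy ε (gᴴ * ψ * g) = gᴴ * sy ε ψ * g := by
  unfold sy
  rw [conjTranspose_mul, conjTranspose_mul, conjTranspose_conjTranspose, Matrix.mul_add,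
    Matrix.add_mul, Matrix.mul_smul, Matrix.smul_mul, Matrix.mul_assoc gᴴ ψᴴ g]

omit [HasHalf A] in
private theorem hm_unit {G : Matrix ι ι A} (hG : IsUnit G) (g : Matrix ι κ A) (h : Matrix κ ι A)
    (h3 : g * h = 1) (h4 : h * g = 1) : IsUnit (gᴴ * G * g) := by
  obtain ⟨u, rfl⟩ := hG
  have h5 : hᴴ * gᴴ = 1 := by rw [← conjTranspose_mul, h3, conjTranspose_one]
  have h6 : gᴴ * hᴴ = 1 := by rw [← conjTranspose_mul, h4, conjTranspose_one]
  refine ⟨⟨gᴴ * u.1 * g, h * u⁻¹.1 * hᴴ, ?_, ?_⟩, rfl⟩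
  · calc gᴴ * u.1 * g * (h * u⁻¹.1 * hᴴ) = gᴴ * u.1 * (g * h) * u⁻¹.1 * hᴴ := by
          simp only [Matrix.mul_assoc]
      _ = gᴴ * (u.1 * u⁻¹.1) * hᴴ := by rw [h3, Matrix.mul_one, Matrix.mul_assoc gᴴ]
      _ = 1 := by rw [u.mul_inv, Matrix.mul_one, h6]
  · calc h * u⁻¹.1 * hᴴ * (gᴴ * u.1 * g) = h * u⁻¹.1 * (hᴴ * gᴴ) * u.1 * g := by
          simp only [Matrix.mul_assoc]
      _ = h * (u⁻¹.1 * u.1) * g := by rw [h5, Matrix.mul_one, Matrix.mul_assoc h]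
      _ = 1 := by rw [u.inv_mul, Matrix.mul_one, h4]

omit [HasHalf A] in
private theorem hm_unit_iso {ψ : Matrix ι ι A} {φ : Matrix κ κ A} (h : IsoQ ε ψ φ)
    (hu : IsUnit (sy ε φ)) : IsUnit (sy ε ψ) := by
  obtain ⟨g, h, α, h1, h2, h3⟩ := h
  have h4 : gᴴ * sy ε ψ * g = sy ε φ := by
    rw [← hm_sy_conj, h3]
    unfold sy
    rw [conjTranspose_add, conjTranspose_sub, conjTranspose_zsmul, conjTranspose_conjTranspose,
      smul_add, smul_sub, eps_smul_smul]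
    abel
  have h5 : hᴴ * gᴴ = 1 := by rw [← conjTranspose_mul, h1, conjTranspose_one]
  have h6 : sy ε ψ = hᴴ * sy ε φ * h := by
    rw [← h4]
    calc sy ε ψ = (hᴴ * gᴴ) * sy ε ψ * (g * h) := by
          rw [h5, h1, Matrix.one_mul, Matrix.mul_one]
      _ = hᴴ * (gᴴ * sy ε ψ * g) * h := by simp only [Matrix.mul_assoc]
  rw [h6]
  exact hm_unit hu h g h2 h1

theorem hcl_sy (X : Form A ε) : hcl ε (sy ε X.ψ) = X.cls := by
  exact hm_eq X.ψ rfl X.nonsing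

theorem exists_hcl (x : L0 A ε) : ∃ (n : ℕ) (G : Matrix (Fin n) (Fin n) A),
    IsH ε G ∧ IsUnit G ∧ hcl ε G = x := by
  obtain ⟨X, rfl⟩ := Quotient.exists_rep x
  let e : Fin (Fintype.card X.ι) ≃ X.ι := (Fintype.equivFin X.ι).symm
  have h1 : sy ε (X.ψ.submatrix e e) = (sy ε X.ψ).submatrix e e := by
    ext i j
    simp [-zsmul_eq_mul, sy]
  have h2 : IsUnit (sy ε (X.ψ.submatrix e e)) := by
    rw [h1]
    obtain ⟨u, hu⟩ := X.nonsing
    refine ⟨⟨u.1.submatrix e e, u⁻¹.1.submatrix e e, ?_, ?_⟩, by rw [← hu]⟩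
    · rw [submatrix_mul_equiv]
      simp
    · rw [submatrix_mul_equiv]
      simp
  refine ⟨Fintype.card X.ι, sy ε (X.ψ.submatrix e e), isH_sy _, h2, ?_⟩
  rw [hm_eq (X.ψ.submatrix e e) rfl h2]
  exact Form.cls_eq.2 (.of_iso (IsoQ.reindex e X.ψ).symm)

theorem hcl_congr {G : Matrix ι ι A} (h1 : IsH ε G) (h2 : IsUnit G) (g : Matrix ι κ A)
    (h : Matrix κ ι A) (h3 : g * h = 1) (h4 : h * g = 1) : hcl ε (gᴴ * G * g) = hcl ε G := by
  obtain ⟨ψ, hψ⟩ := exists_sy h1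
  subst hψ
  have h5 : sy ε (gᴴ * ψ * g) = gᴴ * sy ε ψ * g := hm_sy_conj ψ g
  have h6 : IsUnit (sy ε (gᴴ * ψ * g)) := by
    rw [h5]
    exact hm_unit h2 g h h3 h4
  rw [← h5, hm_eq (gᴴ * ψ * g) rfl h6, hm_eq ψ rfl h2]
  exact Form.cls_eq.2 (.of_iso (IsoQ.symm ⟨g, h, 0, h3, h4, by simp⟩))

theorem hcl_dsum {G : Matrix ι ι A} {G' : Matrix κ κ A} (h1 : IsH ε G) (h2 : IsUnit G)
    (h1' : IsH ε G') (h2' : IsUnit G') : hcl ε (dsum G G') = hcl ε G + hcl ε G' := by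
  obtain ⟨ψ, rfl⟩ := exists_sy h1
  obtain ⟨ψ', rfl⟩ := exists_sy h1'
  rw [hm_eq ψ rfl h2, hm_eq ψ' rfl h2', ← Form.cls_sum]
  exact hm_eq (dsum ψ ψ') (sy_dsum ψ ψ') (isUnit_sy_dsum h2 h2')

theorem hcl_neg {G : Matrix ι ι A} (h1 : IsH ε G) (h2 : IsUnit G) : hcl ε (-G) = -hcl ε G := by
  obtain ⟨ψ, rfl⟩ := exists_sy h1
  rw [hm_eq ψ rfl h2, ← Form.cls_neg]
  refine hm_eq (-ψ) ?_ (isUnit_sy_neg h2)
  unfold sy
  rw [conjTranspose_neg, smul_neg]
  abel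

theorem hcl_lag {B : Matrix ι κ A} {D : Matrix κ κ A} (h1 : IsH ε D) (B' : Matrix κ ι A)
    (h2 : B * B' = 1) (h3 : B' * B = 1) : hcl ε (fromBlocks 0 B ((ε : ℤ) • Bᴴ) D) = 0 := by
  obtain ⟨δ, rfl⟩ := exists_sy h1
  have h5 : sy ε (fromBlocks 0 B 0 δ) = fromBlocks 0 B ((ε : ℤ) • Bᴴ) (sy ε δ) := by
    unfold sy
    rw [fromBlocks_conjTranspose, fromBlocks_smul, fromBlocks_add]
    simp [-zsmul_eq_mul]
  have h6 : IsoQ ε (fromBlocks 0 B 0 δ) (hypM A ι) := by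
    have h7 := lag (ε := ε) (α := (0 : Matrix ι ι A)) (b := B) (c := 0) (d := δ) B'
      (by simpa using h2) (by simpa using h3)
    simpa using h7
  have h8 : IsUnit (sy ε (fromBlocks 0 B 0 δ)) := hm_unit_iso h6 (isUnit_sy_hyp ι)
  rw [← h5, hm_eq _ rfl h8, ← Form.cls_hyp (ε := ε) ι]
  exact Form.cls_eq.2 (.of_iso h6)

theorem hcl_map {B : Type v} [Ring B] [StarRing B] [HasHalf B] (f : A →+* B)
    (hf : ∀ a, f (star a) = star (f a)) {G : Matrix ι ι A} (h1 : IsH ε G) (h2 : IsUnit G) :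
    L0.map f hf (hcl ε G) = hcl ε (G.map f) := by
  obtain ⟨ψ, rfl⟩ := exists_sy h1
  rw [hm_eq ψ rfl h2, L0.map_cls]
  exact (hm_eq (ψ.map f) (sy_map f hf ψ) (Form.map f hf ⟨ι, ψ, h2⟩).nonsing).symm

theorem hcl_tr {B : Type v} [Ring B] [StarRing B] [HasHalf B] {r : Type} [Fintype r]
    [DecidableEq r] (D : Rep A B r) {G : Matrix ι ι A} (h1 : IsH ε G) (h2 : IsUnit G) :
    L0.tr D (hcl ε G) = hcl ε (D.fo G) := by
  obtain ⟨ψ, rfl⟩ := exists_sy h1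
  rw [hm_eq ψ rfl h2, L0.tr_cls]
  exact (hm_eq (D.fo ψ) (D.sy_fo ψ) (Form.tr D ⟨ι, ψ, h2⟩).nonsing).symm

end Pool.Agent.H17.LTh
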