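import Pool.Agent.H17.L0.Herm

/-!
MP_c13a79_gt, coefficient theorem: the form `⟨1⟩` has infinite order in `L₀(ℝ)` (module Inf).

PLAN. `aug : GR ℝ PUnit 1 → ℝ` (sum of the coefficients, i.e. the coefficient of the unique
element) is a homomorphism of rings with involution (trivial involution on `ℝ`). Apply
`L0.map aug`; so it is enough to show `k • hcl 1 (1 : Matrix Unit Unit ℝ) = 0 → k = 0` in
`L0 ℝ 1`, and we may assume `k > 0` a natural number. `k • hcl 1 1 = hcl 1 (1 : Matrix (Fin k) ..)`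
(induction, `hcl_dsum`), so `1_k ⊕ H_m ≅ H_n` (hermitian matrices: apply `sy` to `IsoQ`), i.e. there
is an invertible real `V` of size `k + 2m = 2n` with `Vᵀ (1_k ⊕ [[0,1],[1,0]]) V = [[0,1],[1,0]]`.
The image under `V` of the first `n` coordinates is a subspace `L` of dimension `n` on which the
form vanishes; `{(x, y, y)}` is a subspace of dimension `k + m` on which it is positive definite;
`n + k + m > k + 2m = 2n`, since `n = m + k/2`. Contradiction.
-/

set_option autoImplicit false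

namespace Pool.Agent.H17.LTh

open Matrix

universe u

private theorem io_sy_conj {ι κ : Type} [Fintype ι] (ψ : Matrix ι ι ℝ) (g : Matrix ι κ ℝ) :
    sy 1 (gᴴ * ψ * g) = gᴴ * sy 1 ψ * g := by
  unfold sy
  rw [conjTranspose_mul, conjTranspose_mul, conjTranspose_conjTranspose, Matrix.mul_add,
    Matrix.add_mul, Matrix.mul_smul, Matrix.smul_mul, Matrix.mul_assoc gᴴ ψᴴ g]

/-- the symmetrised hyperbolic matrix -/
private def io_H (m : ℕ) : Matrix (Fin m ⊕ Fin m) (Fin m ⊕ Fin m) ℝ := fromBlocks 0 1 1 0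

private theorem io_core {ι : Type} [Fintype ι] [DecidableEq ι] (ψ : Matrix ι ι ℝ)
    (h1 : sy 1 ψ = 1) (m n : ℕ)
    (h : IsoQ 1 (dsum ψ (hypM ℝ (Fin m))) (dsum (0 : Matrix Empty Empty ℝ) (hypM ℝ (Fin n)))) :
    Fintype.card ι = 0 := by
  obtain ⟨g, h, α, e1, e2, e3⟩ := h
  -- the symmetrised equation
  have e4 : gᴴ * dsum (1 : Matrix ι ι ℝ) (io_H m) * g =
      dsum (0 : Matrix Empty Empty ℝ) (io_H n) := by
    have s1 : sy 1 (dsum ψ (hypM ℝ (Fin m))) = dsum (1 : Matrix ι ι ℝ) (io_H m) := by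
      rw [← h1]
      simp [sy, dsum, hypM, io_H, fromBlocks_transpose, fromBlocks_add]
    have s2 : sy 1 (dsum (0 : Matrix Empty Empty ℝ) (hypM ℝ (Fin n)) + (α - ((1 : ℤˣ) : ℤ) • αᴴ)) =
        dsum (0 : Matrix Empty Empty ℝ) (io_H n) := by
      have s3 : sy 1 (dsum (0 : Matrix Empty Empty ℝ) (hypM ℝ (Fin n))) =
          dsum (0 : Matrix Empty Empty ℝ) (io_H n) := by
        simp [sy, dsum, hypM, io_H, fromBlocks_transpose, fromBlocks_add]
      rw [← s3]
      simp only [sy, Units.val_one, one_smul, conjTranspose_add, conjTranspose_sub,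
        conjTranspose_conjTranspose]
      abel
    rw [← s1, ← s2, ← e3, io_sy_conj]
  -- the dimensions
  have e5 : Fintype.card ι + 2 * m = 2 * n := by
    have t1 : trace (g * h) = trace (h * g) := Matrix.trace_mul_comm g h
    rw [e1, e2, Matrix.trace_one, Matrix.trace_one] at t1
    have t2 : Fintype.card (ι ⊕ (Fin m ⊕ Fin m)) = Fintype.card (Empty ⊕ (Fin n ⊕ Fin n)) := by
      exact_mod_cast t1
    simp only [Fintype.card_sum, Fintype.card_fin, Fintype.card_empty] at t2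
    omega
  by_contra hne
  let F : ((Fin n → ℝ) × ((ι → ℝ) × (Fin m → ℝ))) →ₗ[ℝ] (ι ⊕ (Fin m ⊕ Fin m) → ℝ) :=
    { toFun := fun p => g *ᵥ (Sum.elim (0 : Empty → ℝ) (Sum.elim p.1 (0 : Fin n → ℝ))) -
        Sum.elim p.2.1 (Sum.elim p.2.2 p.2.2)
      map_add' := by
        intro p q
        have r1 : (Sum.elim (0 : Empty → ℝ) (Sum.elim (p + q).1 (0 : Fin n → ℝ))) =
            (Sum.elim (0 : Empty → ℝ) (Sum.elim p.1 (0 : Fin n → ℝ))) +
            (Sum.elim (0 : Empty → ℝ) (Sum.elim q.1 (0 : Fin n → ℝ))) := by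
          ext i
          rcases i with i | i | i <;> simp
        have r2 : (Sum.elim (p + q).2.1 (Sum.elim (p + q).2.2 (p + q).2.2) :
            ι ⊕ (Fin m ⊕ Fin m) → ℝ) =
            Sum.elim p.2.1 (Sum.elim p.2.2 p.2.2) + Sum.elim q.2.1 (Sum.elim q.2.2 q.2.2) := by
          ext i
          rcases i with i | i | i <;> simp
        rw [r1, r2, Matrix.mulVec_add]
        abel
      map_smul' := by
        intro c p
        have r1 : (Sum.elim (0 : Empty → ℝ) (Sum.elim (c • p).1 (0 : Fin n → ℝ))) =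
            c • (Sum.elim (0 : Empty → ℝ) (Sum.elim p.1 (0 : Fin n → ℝ))) := by
          ext i
          rcases i with i | i | i <;> simp
        have r2 : (Sum.elim (c • p).2.1 (Sum.elim (c • p).2.2 (c • p).2.2) :
            ι ⊕ (Fin m ⊕ Fin m) → ℝ) = c • Sum.elim p.2.1 (Sum.elim p.2.2 p.2.2) := by
          ext i
          rcases i with i | i | i <;> simp
        rw [r1, r2, Matrix.mulVec_smul, RingHom.id_apply, smul_sub] }
  have hlt : Module.finrank ℝ (ι ⊕ (Fin m ⊕ Fin m) → ℝ) <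
      Module.finrank ℝ ((Fin n → ℝ) × ((ι → ℝ) × (Fin m → ℝ))) := by
    simp only [Module.finrank_prod, Module.finrank_fintype_fun_eq_card, Fintype.card_sum,
      Fintype.card_fin]
    omega
  have hker := LinearMap.ker_ne_bot_of_finrank_lt (f := F) hlt
  obtain ⟨p, hp, hp0⟩ := (Submodule.ne_bot_iff _).1 hker
  obtain ⟨x, a, y⟩ := p
  set u : Empty ⊕ (Fin n ⊕ Fin n) → ℝ := Sum.elim (0 : Empty → ℝ) (Sum.elim x (0 : Fin n → ℝ)) with hu
  set v : ι ⊕ (Fin m ⊕ Fin m) → ℝ := Sum.elim a (Sum.elim y y) with hv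
  have hguv : g *ᵥ u = v := by
    have r1 : g *ᵥ u - v = 0 := hp
    exact sub_eq_zero.1 r1
  have q1 : v ⬝ᵥ (dsum (1 : Matrix ι ι ℝ) (io_H m) *ᵥ v) = a ⬝ᵥ a + 2 * (y ⬝ᵥ y) := by
    simp only [hv, dsum, io_H, fromBlocks_mulVec, dotProduct, Fintype.sum_sum_type, Sum.elim_inl,
      Sum.elim_inr, one_mulVec, zero_mulVec, Pi.add_apply, Pi.zero_apply, Function.comp_def]
    simp
    ring
  have q2 : u ⬝ᵥ (dsum (0 : Matrix Empty Empty ℝ) (io_H n) *ᵥ u) = 0 := by
    simp [hu, dsum, io_H, fromBlocks_mulVec, dotProduct, Fintype.sum_sum_type, Function.comp_def]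
  have q3 : v ⬝ᵥ (dsum (1 : Matrix ι ι ℝ) (io_H m) *ᵥ v) =
      u ⬝ᵥ (dsum (0 : Matrix Empty Empty ℝ) (io_H n) *ᵥ u) := by
    rw [← e4, ← hguv, conjTranspose_eq_transpose_of_trivial, ← Matrix.mulVec_mulVec,
      ← Matrix.mulVec_mulVec, Matrix.dotProduct_mulVec u, Matrix.vecMul_transpose]
  rw [q1, q2] at q3
  have ha0 : 0 ≤ a ⬝ᵥ a := Finset.sum_nonneg fun i _ => mul_self_nonneg _
  have hy0 : 0 ≤ y ⬝ᵥ y := Finset.sum_nonneg fun i _ => mul_self_nonneg _
  have ha : a = 0 := dotProduct_self_eq_zero.1 (by linarith)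
  have hy : y = 0 := dotProduct_self_eq_zero.1 (by linarith)
  have hv0 : v = 0 := by
    rw [hv, ha, hy]
    ext i
    rcases i with i | i | i <;> simp
  have hu0 : u = 0 := by
    have r1 : h *ᵥ (g *ᵥ u) = u := by rw [Matrix.mulVec_mulVec, e2, Matrix.one_mulVec]
    rw [← r1, hguv, hv0, Matrix.mulVec_zero]
  have hx : x = 0 := by
    ext i
    have r1 := congrFun hu0 (Sum.inr (Sum.inl i))
    simpa [hu] using r1
  apply hp0
  rw [hx, ha, hy]
  rfl

private theorem io_form (n : ℕ) : ∃ X : Form ℝ 1,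
    X.cls = n • (hcl 1 (1 : Matrix Unit Unit ℝ)) ∧ sy 1 X.ψ = 1 ∧ Fintype.card X.ι = n := by
  have h1 : IsH 1 (1 : Matrix Unit Unit ℝ) := by
    unfold IsH
    simp
  obtain ⟨ψ, hψ⟩ := exists_sy h1
  have hu : IsUnit (sy 1 ψ) := by
    rw [hψ]
    exact isUnit_one
  have hU : (Form.mk Unit ψ hu : Form ℝ 1).cls = hcl 1 (1 : Matrix Unit Unit ℝ) := by
    have h2 := hcl_sy (Form.mk Unit ψ hu : Form ℝ 1)
    rw [← h2]
    congr 1
  induction n with
  | zero =>
    refine ⟨Form.zero ℝ 1, ?_, ?_, rfl⟩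
    · rw [zero_smul]
      rfl
    · ext i j
      exact i.elim
  | succ n ih =>
    obtain ⟨X, hX1, hX2, hX3⟩ := ih
    refine ⟨X.sum (Form.mk Unit ψ hu), ?_, ?_, ?_⟩
    · rw [Form.cls_sum, hX1, hU, succ_nsmul]
    · change sy 1 (dsum X.ψ ψ) = 1
      rw [sy_dsum, hX2, hψ]
      exact fromBlocks_one
    · change Fintype.card (X.ι ⊕ Unit) = n + 1
      rw [Fintype.card_sum, hX3, Fintype.card_unit]

private theorem io_real (n : ℕ) (h : n • (hcl 1 (1 : Matrix Unit Unit ℝ)) = 0) : n = 0 := by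
  obtain ⟨X, hX1, hX2, hX3⟩ := io_form n
  rw [h] at hX1
  have h2 : X.Stab (Form.zero ℝ 1) := Form.cls_eq.1 hX1
  obtain ⟨m, k, h3⟩ := h2
  rw [← hX3]
  exact io_core X.ψ hX2 m k h3

/-- the augmentation -/
private def io_aug : GR ℝ PUnit.{u+1} 1 →+* ℝ where
  toFun x := x.co 1
  map_zero' := by
    rw [GR.co_zero]
    rfl
  map_one' := by
    classical
    rw [GR.one_def, GR.co_single, if_pos rfl]
  map_add' x y := by
    rw [GR.co_add]
    rfl
  map_mul' x y := by
    classical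
    induction x using GR.induction with
    | zero =>
      rw [zero_mul, GR.co_zero]
      simp
    | single g r =>
      induction y using GR.induction with
      | zero =>
        rw [mul_zero, GR.co_zero]
        simp
      | single h s =>
        rw [GR.single_mul_single, GR.co_single, GR.co_single, GR.co_single,
          if_pos (Subsingleton.elim _ _), if_pos (Subsingleton.elim _ _),
          if_pos (Subsingleton.elim _ _)]
      | add y z hy hz =>
        rw [mul_add, GR.co_add, GR.co_add, Finsupp.add_apply, Finsupp.add_apply, hy, hz]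
        ring
    | add x z hx hz =>
      rw [add_mul, GR.co_add, GR.co_add, Finsupp.add_apply, Finsupp.add_apply, hx, hz]
      ring

private theorem io_star (x : GR ℝ PUnit.{u+1} 1) : io_aug (star x) = star (io_aug x) := by
  classical
  induction x using GR.induction with
  | zero => rw [star_zero, map_zero, star_zero]
  | single g r =>
    rw [GR.star_single]
    change (GR.single g⁻¹ ((((1 : PUnit.{u+1} →* ℤˣ) g : ℤˣ) : ℤ) • r) : GR ℝ PUnit.{u+1} 1).co 1 = (GR.single g r : GR ℝ PUnit.{u+1} 1).co 1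
    rw [GR.co_single, GR.co_single, if_pos (Subsingleton.elim _ _),
      if_pos (Subsingleton.elim _ _)]
    simp
  | add x y hx hy => rw [star_add, map_add, map_add, star_add, hx, hy]

theorem inf_order (k : ℤ)
    (h : k • (hcl 1 (1 : Matrix Unit Unit (GR ℝ PUnit.{u+1} 1))) = 0) : k = 0 := by
  have h1 : IsH 1 (1 : Matrix Unit Unit (GR ℝ PUnit.{u+1} 1)) := by
    unfold IsH
    simp
  have h2 := hcl_map io_aug io_star h1 isUnit_one
  have h3 : (1 : Matrix Unit Unit (GR ℝ PUnit.{u+1} 1)).map io_aug = (1 : Matrix Unit Unit ℝ) :=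
    Matrix.map_one _ (map_zero _) (map_one _)
  rw [h3] at h2
  have h4 : k • (hcl 1 (1 : Matrix Unit Unit ℝ)) = 0 := by
    rw [← h2, ← map_zsmul, h, map_zero]
  have h5 : k.natAbs • (hcl 1 (1 : Matrix Unit Unit ℝ)) = 0 := by
    rcases Int.natAbs_eq k with h6 | h6
    · rw [h6, natCast_zsmul] at h4
      exact h4
    · rw [h6, neg_smul, neg_eq_zero, natCast_zsmul] at h4
      exact h4
  exact Int.natAbs_eq_zero.1 (io_real _ h5)

end Pool.Agent.H17.LTh
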