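import Pool.Agent.H17.L0.PolyS

/-!
MP_c13a79_gt, coefficient theorem: Higman's linearisation (module Lin).

`IsoH G G'`: congruence of (possibly singular) matrices. `hyH ε μ`: the hyperbolic hermitian matrix.

STATEMENT `lin`: a hermitian matrix over `A[X]` plus a hyperbolic one is congruent over `A[X]` to
`B + X C` with hermitian `B`, `C` over `A` (`1/2 ∈ A`).

PLAN. Induction on `d`. If `d ≤ 1`: `B = H.coeff 0`, `C = H.coeff 1` entrywise, `μ = Empty`
(`dsum` with an empty block is congruent to the block: reindex by `Equiv.sumEmpty`).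
If `d ≥ 2`: let `a = d / 2`, `b = d - a` (`1 ≤ a ≤ b ≤ d - 1`), `Hd` the matrix of the coefficients
of `X^d` (hermitian), `c + c = 1`, `P = -c Hd`, so `P + ε Pᴴ = -Hd`. On `ι ⊕ (ι ⊕ ι)` take
`g = [[1,0,0],[X^a,1,0],[X^b P,0,1]]`, inverse `[[1,0,0],[-X^a,1,0],[-X^b P,0,1]]`. Then
`gᴴ (dsum H (hyH ε ι)) g = [[H - X^d Hd, X^b Pᴴ ε, X^a],[X^b P, 0, 1],[ε X^a, ε, 0]]`
(up to the placement of `ε`), which is hermitian with entries of degree `≤ d - 1`. Apply the
induction hypothesis to it and use associativity and `hyH ε ι ⊕ hyH ε μ ≅ hyH ε (ι ⊕ μ)`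
(reindexing). Private lemmas `IsoH.refl/symm/trans/dsum/reindex` are needed (the proofs are as for
`IsoQ` in Defs).
-/

set_option autoImplicit false

namespace Pool.Agent.H17.LTh

open Matrix Polynomial

universe u v

/-- Congruence of matrices. -/
def IsoH {A : Type u} [Ring A] [StarRing A] {ι κ : Type} [Fintype ι] [DecidableEq ι] [Fintype κ]
    [DecidableEq κ] (G : Matrix ι ι A) (G' : Matrix κ κ A) : Prop :=
  ∃ (g : Matrix ι κ A) (h : Matrix κ ι A), g * h = 1 ∧ h * g = 1 ∧ gᴴ * G * g = G'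

/-- The hyperbolic `ε`-hermitian matrix. -/
def hyH (A : Type u) [Ring A] (ε : ℤˣ) (μ : Type) [DecidableEq μ] : Matrix (μ ⊕ μ) (μ ⊕ μ) A :=
  fromBlocks 0 1 ((ε : ℤ) • 1) 0

section LinAux

set_option linter.unusedSectionVars false

variable {A : Type u} [Ring A] [StarRing A] {ι κ μ ι' κ' : Type} [Fintype ι] [DecidableEq ι]
  [Fintype κ] [DecidableEq κ] [Fintype μ] [DecidableEq μ] [Fintype ι'] [DecidableEq ι']
  [Fintype κ'] [DecidableEq κ']

private theorem ln_trans {G : Matrix ι ι A} {G' : Matrix κ κ A} {G'' : Matrix μ μ A}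
    (h : IsoH G G') (h' : IsoH G' G'') : IsoH G G'' := by
  obtain ⟨g, h, h1, h2, h3⟩ := h
  obtain ⟨g', h', h1', h2', h3'⟩ := h'
  refine ⟨g * g', h' * h, ?_, ?_, ?_⟩
  · calc g * g' * (h' * h) = g * (g' * h') * h := by simp only [Matrix.mul_assoc]
      _ = 1 := by rw [h1', Matrix.mul_one, h1]
  · calc h' * h * (g * g') = h' * (h * g) * g' := by simp only [Matrix.mul_assoc]
      _ = 1 := by rw [h2, Matrix.mul_one, h2']
  · calc (g * g')ᴴ * G * (g * g') = g'ᴴ * (gᴴ * G * g) * g' := by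
          rw [conjTranspose_mul]; simp only [Matrix.mul_assoc]
      _ = G'' := by rw [h3, h3']

private theorem ln_reindex (e : κ ≃ ι) (G : Matrix ι ι A) : IsoH G (G.submatrix e e) := by
  refine ⟨(1 : Matrix ι ι A).submatrix id e, (1 : Matrix ι ι A).submatrix e id, ?_, ?_, ?_⟩
  · rw [submatrix_mul_equiv]; simp
  · rw [← submatrix_mul _ _ _ id _ Function.bijective_id]; simp
  · rw [conjTranspose_submatrix]
    rw [← submatrix_id_id G, ← submatrix_mul _ _ _ id _ Function.bijective_id,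
      ← submatrix_mul _ _ _ id _ Function.bijective_id]
    simp

private theorem ln_dsum {G : Matrix ι ι A} {G' : Matrix κ κ A} {Q : Matrix μ μ A}
    (h : IsoH G G') : IsoH (dsum G Q) (dsum G' Q) := by
  obtain ⟨g, h, h1, h2, h3⟩ := h
  refine ⟨fromBlocks g 0 0 1, fromBlocks h 0 0 1, ?_, ?_, ?_⟩
  · simp [fromBlocks_multiply, h1, fromBlocks_one]
  · simp [fromBlocks_multiply, h2, fromBlocks_one]
  · simp only [LTh.dsum, fromBlocks_conjTranspose, fromBlocks_multiply, conjTranspose_zero,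
      Matrix.zero_mul, Matrix.mul_zero, add_zero, zero_add, h3, conjTranspose_one,
      Matrix.one_mul, Matrix.mul_one]

/-- Associativity and the sum of hyperbolic matrices at once. -/
private theorem ln_assoc (ε : ℤˣ) (G : Matrix ι ι A) (κ μ : Type) [Fintype κ] [DecidableEq κ]
    [Fintype μ] [DecidableEq μ] :
    IsoH (dsum G (hyH A ε (κ ⊕ μ))) (dsum (dsum G (hyH A ε κ)) (hyH A ε μ)) := by
  have h1 := ln_reindex ((Equiv.sumAssoc ι (κ ⊕ κ) (μ ⊕ μ)).trans
    (Equiv.sumCongr (Equiv.refl ι) (Equiv.sumSumSumComm κ κ μ μ)))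
    (dsum G (hyH A ε (κ ⊕ μ)))
  have h2 : (dsum G (hyH A ε (κ ⊕ μ))).submatrix
      ((Equiv.sumAssoc ι (κ ⊕ κ) (μ ⊕ μ)).trans
        (Equiv.sumCongr (Equiv.refl ι) (Equiv.sumSumSumComm κ κ μ μ)))
      ((Equiv.sumAssoc ι (κ ⊕ κ) (μ ⊕ μ)).trans
        (Equiv.sumCongr (Equiv.refl ι) (Equiv.sumSumSumComm κ κ μ μ))) =
      dsum (dsum G (hyH A ε κ)) (hyH A ε μ) := by
    ext i j
    rcases i with (i | i | i) | i | i <;> rcases j with (j | j | j) | j | j <;>
      simp [-zsmul_eq_mul, -zsmul_one, dsum, hyH, Matrix.one_apply]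
  rw [h2] at h1
  exact h1

private theorem ln_herm {ε : ℤˣ} {G : Matrix ι ι A} (hG : IsH ε G) (g : Matrix ι κ A) :
    IsH ε (gᴴ * G * g) := by
  have hG' : Gᴴ = (ε : ℤ) • G := hG
  change (gᴴ * G * g)ᴴ = (ε : ℤ) • (gᴴ * G * g)
  rw [conjTranspose_mul, conjTranspose_mul, conjTranspose_conjTranspose, hG', Matrix.smul_mul,
    Matrix.mul_smul, Matrix.mul_assoc]

private theorem ln_coeff {ε : ℤˣ} {H : Matrix ι ι A[X]} (hH : IsH ε H) (n : ℕ) :
    IsH ε (H.map fun p => p.coeff n) := by
  have hH' : Hᴴ = (ε : ℤ) • H := hH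
  change (H.map fun p => p.coeff n)ᴴ = (ε : ℤ) • (H.map fun p => p.coeff n)
  ext i j
  have h1 : star (H j i) = (ε : ℤ) • H i j := by
    have := congrFun (congrFun hH' i) j
    simpa [-zsmul_eq_mul] using this
  rw [conjTranspose_apply, Matrix.map_apply, ← coeff_star, h1, Matrix.smul_apply,
    Matrix.map_apply, Polynomial.coeff_smul]

private theorem ln_smul_star {c : A} (hc : c + c = 1) (M : Matrix ι κ A) :
    (c • M)ᴴ = c • Mᴴ := by
  ext i j
  rw [conjTranspose_apply, Matrix.smul_apply, Matrix.smul_apply, conjTranspose_apply,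
    smul_eq_mul, smul_eq_mul, star_mul, half_star hc, half_comm hc]

private theorem ln_hyH {ε : ℤˣ} (μ : Type) [Fintype μ] [DecidableEq μ] :
    IsH ε (hyH A ε μ) := by
  change (hyH A ε μ)ᴴ = (ε : ℤ) • hyH A ε μ
  unfold hyH
  rw [fromBlocks_conjTranspose, fromBlocks_smul, conjTranspose_zsmul, eps_smul_smul]
  simp [-zsmul_eq_mul]

private theorem ln_dsumH {ε : ℤˣ} {G : Matrix ι ι A} {Q : Matrix μ μ A} (hG : IsH ε G)
    (hQ : IsH ε Q) : IsH ε (dsum G Q) := by
  have hG' : Gᴴ = (ε : ℤ) • G := hG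
  have hQ' : Qᴴ = (ε : ℤ) • Q := hQ
  change (dsum G Q)ᴴ = (ε : ℤ) • dsum G Q
  unfold dsum
  rw [fromBlocks_conjTranspose, fromBlocks_smul, hG', hQ']
  simp [-zsmul_eq_mul]

private theorem ln_step (ε : ℤˣ) (H U V : Matrix ι ι A) :
    IsoH (dsum H (hyH A ε ι)) (fromBlocks (H + (Uᴴ * V + (ε : ℤ) • (Vᴴ * U)))
      (fromCols ((ε : ℤ) • Vᴴ) Uᴴ) (fromRows V ((ε : ℤ) • U)) (hyH A ε ι)) := by
  have hYF : hyH A ε ι * fromRows U V = fromRows V ((ε : ℤ) • U) := by
    unfold hyH
    rw [fromBlocks_mul_fromRows]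
    simp only [Matrix.zero_mul, Matrix.one_mul, zero_add, add_zero, Matrix.smul_mul]
  have hFY : (fromRows U V)ᴴ * hyH A ε ι = fromCols ((ε : ℤ) • Vᴴ) Uᴴ := by
    unfold hyH
    rw [conjTranspose_fromRows_eq_fromCols_conjTranspose, fromCols_mul_fromBlocks]
    simp only [Matrix.mul_zero, Matrix.mul_one, zero_add, add_zero, Matrix.mul_smul]
  have hFYF : (fromRows U V)ᴴ * (hyH A ε ι * fromRows U V) =
      Uᴴ * V + (ε : ℤ) • (Vᴴ * U) := by
    rw [hYF, conjTranspose_fromRows_eq_fromCols_conjTranspose, fromCols_mul_fromRows,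
      Matrix.mul_smul]
  refine ⟨fromBlocks 1 0 (fromRows U V) 1, fromBlocks 1 0 (-fromRows U V) 1, ?_, ?_, ?_⟩
  · rw [fromBlocks_multiply]
    simp only [Matrix.one_mul, Matrix.mul_one, Matrix.zero_mul, Matrix.mul_zero,
      add_zero, zero_add, add_neg_cancel]
    exact fromBlocks_one
  · rw [fromBlocks_multiply]
    simp only [Matrix.one_mul, Matrix.mul_one, Matrix.zero_mul, Matrix.mul_zero,
      add_zero, zero_add, neg_add_cancel]
    exact fromBlocks_one
  · simp only [LTh.dsum, fromBlocks_conjTranspose, fromBlocks_multiply, conjTranspose_zero,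
      Matrix.zero_mul, Matrix.mul_zero, add_zero, zero_add, conjTranspose_one,
      Matrix.one_mul, Matrix.mul_one, hFY]
    rw [← hFY, Matrix.mul_assoc, hFYF, hYF]

end LinAux

theorem lin {A : Type u} [Ring A] [StarRing A] [HasHalf A] {ε : ℤˣ} (d : ℕ) {ι : Type}
    [Fintype ι] [DecidableEq ι] (H : Matrix ι ι A[X]) (hH : IsH ε H)
    (hd : ∀ i j, (H i j).natDegree ≤ d) :
    ∃ (κ : Type) (_ : Fintype κ) (_ : DecidableEq κ) (μ : Type) (_ : Fintype μ)
      (_ : DecidableEq μ) (B C' : Matrix κ κ A), IsH ε B ∧ IsH ε C' ∧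
      IsoH (dsum H (hyH A[X] ε μ)) (B.map C + (X : A[X]) • C'.map C) := by
  induction d using Nat.strong_induction_on generalizing ι with
  | _ d ih =>
  by_cases hd1 : d ≤ 1
  · -- linear already
    refine ⟨ι, inferInstance, inferInstance, Empty, inferInstance, inferInstance,
      H.map fun p => p.coeff 0, H.map fun p => p.coeff 1, ln_coeff hH 0, ln_coeff hH 1, ?_⟩
    have h1 := ln_reindex (Equiv.sumEmpty ι (Empty ⊕ Empty)).symm (dsum H (hyH A[X] ε Empty))
    have h2 : (dsum H (hyH A[X] ε Empty)).submatrix (Equiv.sumEmpty ι (Empty ⊕ Empty)).symm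
        (Equiv.sumEmpty ι (Empty ⊕ Empty)).symm =
        (H.map fun p => p.coeff 0).map C + (X : A[X]) • (H.map fun p => p.coeff 1).map C := by
      ext1 i j
      have h3 := Polynomial.eq_X_add_C_of_natDegree_le_one ((hd i j).trans hd1)
      simp only [submatrix_apply, Equiv.sumEmpty_symm_apply, dsum, fromBlocks_apply₁₁,
        Matrix.add_apply, Matrix.map_apply, Matrix.smul_apply, smul_eq_mul]
      rw [Polynomial.X_mul_C, add_comm]
      exact h3
    rw [h2] at h1
    exact h1
  · -- one step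
    obtain ⟨c, hc⟩ := HasHalf.out (A := A)
    obtain ⟨a, b, hab, ha, hb⟩ : ∃ a b : ℕ, a + b = d ∧ a ≤ d - 1 ∧ b ≤ d - 1 :=
      ⟨d / 2, d - d / 2, by omega, by omega, by omega⟩
    have hHd : (H.map fun p => p.coeff d)ᴴ = (ε : ℤ) • (H.map fun p => p.coeff d) :=
      ln_coeff hH d
    set Hd : Matrix ι ι A := H.map fun p => p.coeff d with hHdef
    set P : Matrix ι ι A := -(c • Hd) with hPdef
    have hP : P + (ε : ℤ) • Pᴴ = -Hd := by
      have h1 : Pᴴ = -((ε : ℤ) • (c • Hd)) := by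
        rw [hPdef, conjTranspose_neg, ln_smul_star hc, hHd, smul_comm]
      rw [h1, smul_neg, eps_smul_smul, hPdef, ← neg_add, ← add_smul, hc, one_smul]
    set U : Matrix ι ι A[X] := (X : A[X]) ^ a • (1 : Matrix ι ι A[X]) with hU
    set V : Matrix ι ι A[X] := (X : A[X]) ^ b • (P.map C) with hV
    have hUs : Uᴴ = U := by
      ext1 i j
      rw [conjTranspose_apply, hU, Matrix.smul_apply, Matrix.smul_apply, smul_eq_mul, smul_eq_mul,
        star_mul, star_pow, star_X, Matrix.one_apply, Matrix.one_apply]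
      by_cases h : i = j
      · rw [if_pos h, if_pos h.symm, star_one, one_mul, mul_one]
      · rw [if_neg h, if_neg (fun h' => h h'.symm), star_zero, zero_mul, mul_zero]
    have hVs : Vᴴ = (X : A[X]) ^ b • (Pᴴ.map C) := by
      ext1 i j
      rw [conjTranspose_apply, hV, Matrix.smul_apply, Matrix.smul_apply, smul_eq_mul, smul_eq_mul,
        star_mul, star_pow, star_X, Matrix.map_apply, Matrix.map_apply, star_C,
        conjTranspose_apply, Polynomial.X_pow_mul]
    have hkey : Uᴴ * V + (ε : ℤ) • (Vᴴ * U) = -((X : A[X]) ^ d • Hd.map C) := by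
      have h1 : Uᴴ * V = (X : A[X]) ^ d • P.map C := by
        rw [hUs, hU, hV, Matrix.smul_mul, Matrix.one_mul, smul_smul, ← pow_add, hab]
      have h2 : Vᴴ * U = (X : A[X]) ^ d • Pᴴ.map C := by
        ext1 i j
        rw [hVs, hU, Matrix.mul_apply]
        simp only [Matrix.smul_apply, Matrix.map_apply, smul_eq_mul, Matrix.one_apply, mul_ite,
          mul_one, mul_zero, Finset.sum_ite_eq', Finset.mem_univ, if_true]
        rw [← hab, pow_add, mul_assoc ((X : A[X]) ^ b), ← Polynomial.X_pow_mul (n := a),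
          ← mul_assoc, ← pow_add, ← pow_add, add_comm b a]
      rw [h1, h2, smul_comm, ← smul_add]
      have h3 : P.map C + (ε : ℤ) • Pᴴ.map C = -(Hd.map (C : A →+* A[X])) := by
        have h4 := congrArg (fun M : Matrix ι ι A => M.map (C : A →+* A[X])) hP
        ext1 i j
        have h5 := congrFun (congrFun h4 i) j
        simp only [Matrix.map_apply, Matrix.add_apply, Matrix.smul_apply, Matrix.neg_apply,
          map_add, map_neg, map_zsmul] at h5
        simp only [Matrix.map_apply, Matrix.add_apply, Matrix.smul_apply, Matrix.neg_apply]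
        exact h5
      rw [h3, smul_neg]
    have hstep := ln_step ε H U V
    rw [hkey] at hstep
    set H' : Matrix (ι ⊕ (ι ⊕ ι)) (ι ⊕ (ι ⊕ ι)) A[X] :=
      fromBlocks (H + -((X : A[X]) ^ d • Hd.map C)) (fromCols ((ε : ℤ) • Vᴴ) Uᴴ)
        (fromRows V ((ε : ℤ) • U)) (hyH A[X] ε ι) with hH'
    have hherm : IsH ε H' := by
      obtain ⟨g, h, h1, h2, h3⟩ := hstep
      rw [← h3]
      exact ln_herm (ln_dsumH hH (ln_hyH ι)) g
    have hdU : ∀ i j, (U i j).natDegree ≤ d - 1 := by
      intro i j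
      rw [hU, Matrix.smul_apply, smul_eq_mul, Matrix.one_apply]
      split_ifs
      · rw [mul_one]
        exact (Polynomial.natDegree_X_pow_le a).trans ha
      · rw [mul_zero, Polynomial.natDegree_zero]
        exact Nat.zero_le _
    have hdV' : ∀ (Q : Matrix ι ι A) (i j : ι),
        (((X : A[X]) ^ b • Q.map C : Matrix ι ι A[X]) i j).natDegree ≤ d - 1 := by
      intro Q i j
      rw [Matrix.smul_apply, smul_eq_mul, Matrix.map_apply, Polynomial.X_pow_mul_C]
      exact (Polynomial.natDegree_C_mul_X_pow_le _ _).trans hb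
    have heps : ∀ (p : A[X]), p.natDegree ≤ d - 1 → ((ε : ℤ) • p).natDegree ≤ d - 1 := by
      intro p hp
      exact (Polynomial.natDegree_smul_le _ _).trans hp
    have hdeg : ∀ i j, (H' i j).natDegree ≤ d - 1 := by
      intro i j
      rcases i with i | i | i <;> rcases j with j | j | j
      · change (H i j + -((X : A[X]) ^ d * C ((H i j).coeff d))).natDegree ≤ d - 1
        rw [Polynomial.natDegree_le_iff_coeff_eq_zero]
        intro N hN
        rw [Polynomial.X_pow_mul_C, Polynomial.coeff_add, Polynomial.coeff_neg,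
          Polynomial.coeff_C_mul_X_pow]
        by_cases hNd : N = d
        · rw [if_pos hNd, hNd, add_neg_cancel]
        · rw [if_neg hNd, neg_zero, add_zero]
          exact Polynomial.coeff_eq_zero_of_natDegree_lt (lt_of_le_of_lt (hd i j) (by omega))
      · change (((ε : ℤ) • Vᴴ) i j).natDegree ≤ d - 1
        rw [Matrix.smul_apply, hVs]
        exact heps _ (hdV' _ i j)
      · change (Uᴴ i j).natDegree ≤ d - 1
        rw [hUs]
        exact hdU i j
      · exact hdV' P i j
      · change ((0 : Matrix ι ι A[X]) i j).natDegree ≤ d - 1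
        rw [Matrix.zero_apply, Polynomial.natDegree_zero]
        exact Nat.zero_le _
      · change ((1 : Matrix ι ι A[X]) i j).natDegree ≤ d - 1
        rw [Matrix.one_apply]
        split_ifs <;> simp
      · change (((ε : ℤ) • U) i j).natDegree ≤ d - 1
        rw [Matrix.smul_apply]
        exact heps _ (hdU i j)
      · change (((ε : ℤ) • (1 : Matrix ι ι A[X])) i j).natDegree ≤ d - 1
        rw [Matrix.smul_apply]
        refine heps _ ?_
        rw [Matrix.one_apply]
        split_ifs <;> simp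
      · change ((0 : Matrix ι ι A[X]) i j).natDegree ≤ d - 1
        rw [Matrix.zero_apply, Polynomial.natDegree_zero]
        exact Nat.zero_le _
    obtain ⟨κ, i1, i2, μ, i3, i4, B, C', hB, hC', hiso⟩ :=
      ih (d - 1) (by omega) H' hherm hdeg
    refine ⟨κ, i1, i2, ι ⊕ μ, inferInstance, inferInstance, B, C', hB, hC', ?_⟩
    exact ln_trans (ln_assoc ε H ι μ) (ln_trans (ln_dsum hstep) hiso)

end Pool.Agent.H17.LTh
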