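import Mathlib

/-!
MP_c13a79_gt, coefficient theorem: finitely generated subfields of `ℝ` (module Model; Mathlib only).

PLAN. `Kf r = FractionRing (MvPolynomial (Fin r) ℚ)`. `model`: the field `ℚ(F)` has a transcendence
basis `c` contained in the finite set `F` (`exists_isTranscendenceBasis_subset` or
`exists_isTranscendenceBasis_between`, or take a maximal algebraically independent subset of `F`);
number it by `Fin r`; `MvPolynomial.aeval c` is injective, which gives `j : Kf r → ℝ`
(`IsFractionRing.lift`). With `algebra := j.toAlgebra`, all elements of `F` are algebraic over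
`Kf r`, so `IntermediateField.adjoin (Kf r) F` is finite dimensional, separable (characteristic 0),
and has a primitive element `θ` (`Field.exists_primitive_element`); `f = minpoly (Kf r) θ`; the
elements of `Kf(θ)` are the values `u(θ)` (`IntermediateField.adjoin_simple_toSubalgebra_of_integral`,
`Algebra.adjoin_singleton_eq_range_aeval`).
-/

set_option autoImplicit false

namespace Pool.Agent.H17.LTh

open Polynomial

/-- The rational function field in `r` variables over `ℚ`. -/
abbrev Kf (r : ℕ) : Type := FractionRing (MvPolynomial (Fin r) ℚ)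

/-- A finite set of reals has a finite algebraically independent family `c` over which it is
algebraic. -/
theorem model_basis (F : Finset ℝ) : ∃ (r : ℕ) (c : Fin r → ℝ), AlgebraicIndependent ℚ c ∧
    ∀ t ∈ F, IsAlgebraic (Algebra.adjoin ℚ (Set.range c)) t := by
  classical
  obtain ⟨u, -, hu⟩ := exists_maximal_algebraicIndependent (R := ℚ) (∅ : Set ℝ) (F : Set ℝ)
    (Set.empty_subset _) ((algebraicIndependent_empty_type_iff).2 (algebraMap ℚ ℝ).injective)
  have hfin : u.Finite := F.finite_toSet.subset hu.prop.2
  let _ : Fintype u := hfin.fintype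
  let e : Fin (Fintype.card u) ≃ u := (Fintype.equivFin u).symm
  refine ⟨Fintype.card u, fun i => (e i : ℝ), ?_, ?_⟩
  · exact hu.prop.1.comp e e.injective
  · intro t ht
    have hr : Set.range (fun i => (e i : ℝ)) = u := by
      ext x
      constructor
      · rintro ⟨i, rfl⟩
        exact (e i).2
      · intro hx
        exact ⟨e.symm ⟨x, hx⟩, by simp⟩
    rw [hr]
    by_contra hcon
    by_cases htu : t ∈ u
    · exact hcon (isAlgebraic_algebraMap (⟨t, Algebra.subset_adjoin htu⟩ : Algebra.adjoin ℚ u))
    · have h1 : AlgebraicIndepOn ℚ id (insert t u) := by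
        refine AlgebraicIndepOn.insert hu.prop.1 ?_
        rw [Set.image_id]
        exact hcon
      have h2 : insert t u ⊆ (F : Set ℝ) := Set.insert_subset (by simpa using ht) hu.prop.2
      have h3 := hu.le_of_ge ⟨h1, h2⟩ (Set.subset_insert t u)
      exact htu (h3 (Set.mem_insert t u))

/-- Every finite set of real numbers lies in `j(K)(θ)` with `K` a rational function field over `ℚ`
and `θ` algebraic over `j(K)`. -/
theorem model (F : Finset ℝ) : ∃ (r : ℕ) (j : Kf r →+* ℝ) (θ : ℝ) (f : (Kf r)[X]),
    f.Monic ∧ Irreducible f ∧ f.eval₂ j θ = 0 ∧ ∀ t ∈ F, ∃ u : (Kf r)[X], u.eval₂ j θ = t := by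
  classical
  obtain ⟨r, c, hc, hF⟩ := model_basis F
  have hinj : Function.Injective (MvPolynomial.aeval c : MvPolynomial (Fin r) ℚ →ₐ[ℚ] ℝ) :=
    algebraicIndependent_iff_injective_aeval.1 hc
  let j : Kf r →+* ℝ := IsFractionRing.lift (A := MvPolynomial (Fin r) ℚ)
    (g := (MvPolynomial.aeval c : MvPolynomial (Fin r) ℚ →ₐ[ℚ] ℝ).toRingHom) hinj
  have hj : ∀ p : MvPolynomial (Fin r) ℚ, j (algebraMap _ (Kf r) p) = MvPolynomial.aeval c p :=
    fun p => IsFractionRing.lift_algebraMap hinj p
  let _ : Algebra (Kf r) ℝ := j.toAlgebra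
  have hcar : (algebraMap (Kf r) ℝ) = j := rfl
  have halg : ∀ t ∈ F, IsAlgebraic (Kf r) t := by
    intro t ht
    obtain ⟨p, hp0, hp⟩ := hF t ht
    let g : Algebra.adjoin ℚ (Set.range c) →+* Kf r :=
      (algebraMap (MvPolynomial (Fin r) ℚ) (Kf r)).comp (hc.aevalEquiv.symm : _ →+* _)
    have hg : Function.Injective g :=
      (IsFractionRing.injective (MvPolynomial (Fin r) ℚ) (Kf r)).comp hc.aevalEquiv.symm.injective
    have hjg : ∀ a : Algebra.adjoin ℚ (Set.range c), j (g a) = (a : ℝ) := by
      intro a
      have h1 : j (g a) = MvPolynomial.aeval c (hc.aevalEquiv.symm a) := hj _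
      rw [h1]
      have h2 := hc.algebraMap_aevalEquiv (hc.aevalEquiv.symm a)
      rw [AlgEquiv.apply_symm_apply] at h2
      exact h2.symm
    refine ⟨p.map g, (Polynomial.map_ne_zero_iff hg).2 hp0, ?_⟩
    rw [Polynomial.aeval_def, Polynomial.eval₂_map, hcar]
    have h3 : j.comp g = algebraMap (Algebra.adjoin ℚ (Set.range c)) ℝ := RingHom.ext hjg
    rw [h3]
    exact hp
  let E := IntermediateField.adjoin (Kf r) (F : Set ℝ)
  have : FiniteDimensional (Kf r) E :=
    have : Finite (F : Set ℝ) := F.finite_toSet
    IntermediateField.finiteDimensional_adjoin (fun x hx => (halg x (by simpa using hx)).isIntegral)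
  have : CharZero (Kf r) := charZero_of_injective_algebraMap
    (IsFractionRing.injective (MvPolynomial (Fin r) ℚ) (Kf r))
  obtain ⟨α, hα⟩ := Field.exists_primitive_element (Kf r) E
  have hαi : IsIntegral (Kf r) α := IsIntegral.of_finite (Kf r) α
  have key : ∀ u : (Kf r)[X], u.eval₂ j (α : ℝ) = ((Polynomial.aeval α u : E) : ℝ) := by
    intro u
    have h := Polynomial.aeval_algHom_apply E.val α u
    exact h
  refine ⟨r, j, (α : ℝ), minpoly (Kf r) α, minpoly.monic hαi, minpoly.irreducible hαi, ?_, ?_⟩
  · rw [key, minpoly.aeval]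
    rfl
  · intro t ht
    have htE : t ∈ E := IntermediateField.subset_adjoin _ _ (by simpa using ht)
    have h1 : (⟨t, htE⟩ : E) ∈ (IntermediateField.adjoin (Kf r) {α} : IntermediateField (Kf r) E) := by
      rw [hα]
      exact IntermediateField.mem_top
    rw [← IntermediateField.mem_toSubalgebra,
      IntermediateField.adjoin_simple_toSubalgebra_of_isAlgebraic hαi.isAlgebraic,
      Algebra.adjoin_singleton_eq_range_aeval] at h1
    obtain ⟨u, hu⟩ := h1
    refine ⟨u, ?_⟩
    have h4 : (Polynomial.aeval α u : E) = ⟨t, htE⟩ := hu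
    rw [key, h4]

end Pool.Agent.H17.LTh
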