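import Pool.Agent.H17.L0.Deform
import Pool.Agent.H17.L0.Clear

/-!
MP_c13a79_gt, coefficient theorem: specialisation along a path (module Path).

`R` a domain with `1/2`, `d ≠ 0`, `S = R[1/d]`, `γ : R → ℝ[X]` with `γ(d)` without zeros in `[0,1]`,
`e0, e1 : S → ℝ` the two evaluations. Then `e0` and `e1` induce the same map
`L₀(S[π]) → L₀(ℝ[π])`.

PLAN. `x = hcl G` (`exists_hcl`), `G`, `G⁻¹` over `S[π]`. `clear` (module Clear): for a matrix `M`
over `S[π]` there is `k` such that for all `m ≥ k` the matrix `d^m M` comes from `R[π]`. Take `G̃` over `R[π]` with image `d^(2k) G` and `M̃` with image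
`d^(2k) G⁻¹`; `R → S` is injective (`IsLocalization.injective`, domain), so `G̃` is hermitian and
`G̃ M̃ = M̃ G̃ = d^(4k)` over `R[π]` (`map_inj`). Put `H = (G̃.map (GR.map γ)).map toPoly`, and `M'`
the same for `M̃`: `H M' = M' H = scP (γ(d)^(4k))` (`toPoly_algebraMap`). `deform` on `[0,1]`:
`hcl (H.map (evR 0)) = hcl (H.map (evR 1))`. Finally `H.map (evR s) = (d(s)^k)² • (G.map e_s)`
(`evR_toPoly`; `d(s) = e_s(d) ≠ 0` is real), congruent to `G.map e_s` by the scalar matrix
`d(s)^k` (`hcl_congr`), and `hcl_map`.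
-/

set_option autoImplicit false

namespace Pool.Agent.H17.LTh

open Matrix Polynomial

universe u v

private theorem pt_am {S : Type v} [CommRing S] {π : Type u} [Group π] {w : π →* ℤˣ} (c : S) :
    algebraMap S (GR S π w) c = GR.single 1 c := rfl

private theorem pt_star_am {S : Type v} [CommRing S] {π : Type u} [Group π] {w : π →* ℤˣ}
    (c : S) : star (algebraMap S (GR S π w) c) = algebraMap S (GR S π w) c := by
  rw [pt_am, GR.star_single, inv_one, map_one, Units.val_one, one_smul]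

private theorem pt_star_smul {S : Type v} [CommRing S] {π : Type u} [Group π] {w : π →* ℤˣ}
    (c : S) (x : GR S π w) : star (c • x) = c • star x := by
  rw [Algebra.smul_def, Algebra.smul_def, star_mul, pt_star_am]
  exact (Algebra.commutes c (star x)).symm

private theorem pt_map_am {R : Type v} {S : Type v} [CommRing R] [CommRing S] {π : Type u}
    [Group π] {w : π →* ℤˣ} (f : R →+* S) (c : R) :
    GR.map f (algebraMap R (GR R π w) c) = algebraMap S (GR S π w) (f c) := by
  rw [pt_am, pt_am, GR.map_single]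

private theorem pt_map_smul {R : Type v} {S : Type v} [CommRing R] [CommRing S] {π : Type u}
    [Group π] {w : π →* ℤˣ} (f : R →+* S) (c : R) (x : GR R π w) :
    GR.map f (c • x) = f c • GR.map f x := by
  rw [Algebra.smul_def, Algebra.smul_def, map_mul, pt_map_am]

private theorem pt_map_map {R S T : Type v} [CommRing R] [CommRing S] [CommRing T] {π : Type u}
    [Group π] {w : π →* ℤˣ} (f : R →+* S) (g : S →+* T) (x : GR R π w) :
    GR.map g (GR.map f x) = GR.map (g.comp f) x := by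
  refine GR.ext fun h => ?_
  rw [GR.co_map, GR.co_map, GR.co_map]
  rfl

private theorem pt_step {R S : Type} [CommRing R] [CommRing S] [Algebra R S] [HasHalf S]
    (γ : R →+* ℝ[X]) (e : S →+* ℝ) (s : ℝ) (he : ∀ r, e (algebraMap R S r) = (γ r).eval s)
    (d : R) (hd : (γ d).eval s ≠ 0) {π : Type u} [Group π] {w : π →* ℤˣ} {ε : ℤˣ} {n : ℕ}
    (G : Matrix (Fin n) (Fin n) (GR S π w)) (hG : IsH ε G) (hu : IsUnit G) (k : ℕ)
    (Gt : Matrix (Fin n) (Fin n) (GR R π w))
    (hGt : Gt.map (GR.map (algebraMap R S)) = (algebraMap R S d) ^ (k + k) • G) :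
    hcl ε (((Gt.map (GR.map γ)).map toPoly).map (evR s)) = L0.co e (hcl ε G) := by
  have h1 : ((Gt.map (GR.map γ)).map toPoly).map (evR s)
      = (((γ d).eval s) ^ (k + k)) • G.map (GR.map e) := by
    ext i j : 2
    have h2 : GR.map (algebraMap R S) (Gt i j) = (algebraMap R S d) ^ (k + k) • G i j :=
      congrFun (congrFun hGt i) j
    rw [Matrix.map_apply, Matrix.map_apply, Matrix.map_apply, evR_toPoly, pt_map_map,
      Matrix.smul_apply, Matrix.map_apply]
    have h3 : (Polynomial.evalRingHom s).comp γ = e.comp (algebraMap R S) := by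
      ext r
      simp [he]
    rw [h3, ← pt_map_map, h2, pt_map_smul, map_pow, he]
  have h4 : L0.co e (hcl ε G) = hcl ε (G.map (GR.map e)) :=
    hcl_map (GR.map e) (GR.map_star e) hG hu
  rw [h1, h4]
  have h5 : IsH ε (G.map (GR.map e)) := by
    unfold IsH
    rw [← map_star_eq (GR.map e) (GR.map_star e), show Gᴴ = (ε : ℤ) • G from hG]
    ext i j : 2
    rw [Matrix.map_apply, Matrix.smul_apply, Matrix.smul_apply, Matrix.map_apply, map_zsmul]
  have h6 : IsUnit (G.map (GR.map e)) := hu.map ((GR.map e).mapMatrix)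
  have h7 := hcl_congr h5 h6 (((γ d).eval s) ^ k • (1 : Matrix (Fin n) (Fin n) (GR ℝ π w)))
    ((((γ d).eval s) ^ k)⁻¹ • (1 : Matrix (Fin n) (Fin n) (GR ℝ π w)))
    (by rw [Matrix.smul_mul, Matrix.one_mul, smul_smul, mul_inv_cancel₀ (pow_ne_zero _ hd),
          one_smul])
    (by rw [Matrix.smul_mul, Matrix.one_mul, smul_smul, inv_mul_cancel₀ (pow_ne_zero _ hd),
          one_smul])
  rw [← h7]
  congr 1
  have h8 : ((((γ d).eval s) ^ k • (1 : Matrix (Fin n) (Fin n) (GR ℝ π w))))ᴴ
      = ((γ d).eval s) ^ k • (1 : Matrix (Fin n) (Fin n) (GR ℝ π w)) := by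
    ext i j : 2
    rw [conjTranspose_apply, Matrix.smul_apply, Matrix.smul_apply, pt_star_smul,
      Matrix.one_apply, Matrix.one_apply]
    by_cases hij : i = j
    · rw [if_pos hij, if_pos hij.symm, star_one]
    · rw [if_neg hij, if_neg (Ne.symm hij), star_zero]
  rw [h8, Matrix.smul_mul, Matrix.one_mul, Matrix.smul_mul, Matrix.mul_smul, Matrix.mul_one,
    smul_smul, pow_add]

theorem path {R S : Type} [CommRing R] [IsDomain R] [HasHalf R] [CommRing S] [Algebra R S]
    (d : R) (hd : d ≠ 0) [IsLocalization.Away d S] (γ : R →+* ℝ[X]) (e0 e1 : S →+* ℝ)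
    (h0 : ∀ r, e0 (algebraMap R S r) = (γ r).eval 0)
    (h1 : ∀ r, e1 (algebraMap R S r) = (γ r).eval 1)
    (hp : ∀ s ∈ Set.Icc (0 : ℝ) 1, (γ d).eval s ≠ 0) {π : Type u} [Group π] {w : π →* ℤˣ}
    {ε : ℤˣ} (x : L0 (GR S π w) ε) : L0.co e0 x = L0.co e1 x := by
  have hS : HasHalf S := HasHalf.map (algebraMap R S)
  obtain ⟨n, G, hG, hu, rfl⟩ := exists_hcl x
  obtain ⟨u, hu'⟩ := id hu
  obtain ⟨k1, hk1⟩ := clear (R := R) d G
  obtain ⟨k2, hk2⟩ := clear (R := R) d (u⁻¹.1 : Matrix (Fin n) (Fin n) (GR S π w))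
  obtain ⟨k, hk⟩ : ∃ k : ℕ, k = max k1 k2 := ⟨_, rfl⟩
  have hkk1 : k + k ≥ k1 := by
    have := le_max_left k1 k2
    omega
  have hkk2 : k + k ≥ k2 := by
    have := le_max_right k1 k2
    omega
  obtain ⟨Gt, hGt⟩ := hk1 (k + k) hkk1
  obtain ⟨Mt, hMt⟩ := hk2 (k + k) hkk2
  have hinj : Function.Injective (algebraMap R S) :=
    IsLocalization.injective S (powers_le_nonZeroDivisors_of_noZeroDivisors hd)
  have hmi : Function.Injective (GR.map (algebraMap R S) : GR R π w →+* GR S π w) :=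
    map_inj hinj
  have hmm : Function.Injective (fun M : Matrix (Fin n) (Fin n) (GR R π w) =>
      M.map (GR.map (algebraMap R S))) := Matrix.map_injective hmi
  -- `Gt` is hermitian
  have hGtH : IsH ε Gt := by
    unfold IsH
    apply hmm
    show (Gtᴴ).map (GR.map (algebraMap R S)) = ((ε : ℤ) • Gt).map (GR.map (algebraMap R S))
    rw [map_star_eq (GR.map (algebraMap R S)) (GR.map_star _), hGt]
    ext i j : 2
    have h2 : GR.map (algebraMap R S) (Gt i j) = (algebraMap R S d) ^ (k + k) • G i j :=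
      congrFun (congrFun hGt i) j
    have h3 : star (G j i) = (ε : ℤ) • G i j := congrFun (congrFun hG i) j
    rw [conjTranspose_apply, Matrix.smul_apply, pt_star_smul, h3, Matrix.map_apply,
      Matrix.smul_apply, map_zsmul, h2, smul_comm]
  -- products
  have hprod : ∀ (A' B' : Matrix (Fin n) (Fin n) (GR S π w))
      (At Bt : Matrix (Fin n) (Fin n) (GR R π w)), A' * B' = 1 →
      At.map (GR.map (algebraMap R S)) = (algebraMap R S d) ^ (k + k) • A' →
      Bt.map (GR.map (algebraMap R S)) = (algebraMap R S d) ^ (k + k) • B' →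
      At * Bt = Matrix.diagonal fun _ => algebraMap R (GR R π w) (d ^ (k + k) * d ^ (k + k)) := by
    intro A' B' At Bt h1 hA hB
    apply hmm
    show (At * Bt).map (GR.map (algebraMap R S)) = (Matrix.diagonal fun _ =>
      algebraMap R (GR R π w) (d ^ (k + k) * d ^ (k + k))).map (GR.map (algebraMap R S))
    rw [Matrix.map_mul, hA, hB, Matrix.smul_mul, Matrix.mul_smul, h1, smul_smul]
    ext i j : 2
    rw [Matrix.smul_apply, Matrix.map_apply, Matrix.diagonal_apply, Matrix.one_apply]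
    by_cases hij : i = j
    · rw [if_pos hij, if_pos hij, pt_map_am, map_mul, map_pow, Algebra.smul_def, mul_one]
    · rw [if_neg hij, if_neg hij, smul_zero, map_zero]
  have hGM := hprod G u⁻¹.1 Gt Mt (by rw [← hu', u.mul_inv]) hGt hMt
  have hMG := hprod u⁻¹.1 G Mt Gt (by rw [← hu', u.inv_mul]) hMt hGt
  -- pass to polynomials
  have hpoly : ∀ (At Bt : Matrix (Fin n) (Fin n) (GR R π w)),
      (At * Bt = Matrix.diagonal fun _ => algebraMap R (GR R π w) (d ^ (k + k) * d ^ (k + k))) →
      ((At.map (GR.map γ)).map toPoly) * ((Bt.map (GR.map γ)).map toPoly)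
        = scP (GR ℝ π w) (Fin n) (γ (d ^ (k + k) * d ^ (k + k))) := by
    intro At Bt h
    rw [← Matrix.map_mul, ← Matrix.map_mul, h]
    ext i j : 2
    unfold scP
    rw [Matrix.map_apply, Matrix.map_apply, Matrix.diagonal_apply, Matrix.diagonal_apply]
    by_cases hij : i = j
    · rw [if_pos hij, if_pos hij]
      have h9 : GR.map γ (algebraMap R (GR R π w) (d ^ (k + k) * d ^ (k + k)))
          = algebraMap ℝ[X] (GR ℝ[X] π w) (γ (d ^ (k + k) * d ^ (k + k))) := pt_map_am _ _
      rw [h9, toPoly_algebraMap]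
    · rw [if_neg hij, if_neg hij, map_zero, map_zero]
  have hH : IsH ε ((Gt.map (GR.map γ)).map toPoly : Matrix (Fin n) (Fin n) (GR ℝ π w)[X]) := by
    unfold IsH
    ext i j : 2
    have h3 : star (Gt j i) = (ε : ℤ) • Gt i j := congrFun (congrFun hGtH i) j
    rw [conjTranspose_apply, Matrix.map_apply, Matrix.map_apply, Matrix.smul_apply,
      Matrix.map_apply, Matrix.map_apply, ← toPoly_star, ← GR.map_star, h3, map_zsmul, map_zsmul]
  have hdef := deform ((Gt.map (GR.map γ)).map toPoly) ((Mt.map (GR.map γ)).map toPoly) hH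
    (γ (d ^ (k + k) * d ^ (k + k))) (hpoly Gt Mt hGM) (hpoly Mt Gt hMG) 0 1 zero_lt_one
    (fun s hs => by
      rw [map_mul, map_pow, Polynomial.eval_mul, Polynomial.eval_pow]
      exact mul_ne_zero (pow_ne_zero _ (hp s hs)) (pow_ne_zero _ (hp s hs)))
  rw [pt_step γ e0 0 h0 d (hp 0 ⟨le_refl _, zero_le_one⟩) G hG hu k Gt hGt,
    pt_step γ e1 1 h1 d (hp 1 ⟨zero_le_one, le_refl _⟩) G hG hu k Gt hGt] at hdef
  exact hdef

end Pool.Agent.H17.LTh
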