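import Pool.Agent.H17.L0.Herm

/-!
MP_c13a79_gt, coefficient theorem: polynomials over a ring with involution (module PolyS).

`A[X]` (with central `X`) gets the involution `∑ a_i X^i ↦ ∑ a_i* X^i`; for a real algebra `A` with
`star (r a) = r star a`, `r ∈ ℝ`, evaluation at a real number is a homomorphism of rings with
involution. `toPoly : ℝ[X][π] → ℝ[π][X]`.

PLAN. `polyStar`: `star_mul` by `Polynomial.coeff_mul` and `Finset.sum_antidiagonal_swap`.
`evR s = Polynomial.eval₂RingHom' (RingHom.id A) (algebraMap ℝ A s) _`. `toPoly x`: coefficient of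
`X^i` is `GR.mapAdd (coeff i) x`; as a ring homomorphism it may be defined by
`MonoidAlgebra.liftNCRingHom` or, as here, by the sum over the support of `x` of
`∑ (p.map C') * C (GR.single g 1)`; only the three lemmas at the end are used elsewhere.
-/

set_option autoImplicit false

namespace Pool.Agent.H17.LTh

open Matrix Polynomial

universe u v

noncomputable section

section PolyStar

variable {A : Type u} [Ring A] [StarRing A]

/-- The involution of `A[X]` with `X* = X`. -/
def starP (p : A[X]) : A[X] := p.sum fun n a => Polynomial.monomial n (star a)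

theorem coeff_starP (p : A[X]) (n : ℕ) : (starP p).coeff n = star (p.coeff n) := by
  unfold starP
  rw [Polynomial.sum_def, Polynomial.finsetSum_coeff]
  simp only [Polynomial.coeff_monomial]
  rw [Finset.sum_ite_eq']
  split_ifs with h
  · rfl
  · rw [Polynomial.notMem_support_iff.1 h, star_zero]

/-- `A[X]` as a ring with involution, `X* = X`. -/
instance polyStar : StarRing A[X] where
  star := starP
  star_involutive p := by
    ext n
    rw [coeff_starP, coeff_starP, star_star]
  star_mul p q := by
    ext n
    rw [coeff_starP, Polynomial.coeff_mul, Polynomial.coeff_mul, star_sum,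
      ← Finset.Nat.sum_antidiagonal_swap]
    refine Finset.sum_congr rfl fun x _ => ?_
    rw [star_mul, coeff_starP, coeff_starP, Prod.fst_swap, Prod.snd_swap]
  star_add p q := by
    ext n
    rw [coeff_starP, coeff_add, coeff_add, coeff_starP, coeff_starP, star_add]

theorem coeff_star (p : A[X]) (n : ℕ) : (star p).coeff n = star (p.coeff n) := coeff_starP p n

theorem star_X : star (X : A[X]) = X := by
  ext n
  rw [coeff_star, coeff_X]
  split_ifs
  · exact star_one _
  · exact star_zero _

theorem star_C (a : A) : star (C a : A[X]) = C (star a) := by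
  ext n
  rw [coeff_star, coeff_C, coeff_C]
  split_ifs
  · rfl
  · exact star_zero _

instance [HasHalf A] : HasHalf A[X] := HasHalf.map (C : A →+* A[X])

end PolyStar

/-- Real algebras with a real-linear involution. -/
class RealStar (A : Type u) [Ring A] [StarRing A] [Algebra ℝ A] : Prop where
  star_real : ∀ r : ℝ, star (algebraMap ℝ A r) = algebraMap ℝ A r

private theorem aM_eq {R : Type v} [CommRing R] {π : Type u} [Group π] {w : π →* ℤˣ} (r : R) :
    algebraMap R (GR R π w) r = GR.single 1 r := rfl

instance {π : Type u} [Group π] {w : π →* ℤˣ} : RealStar (GR ℝ π w) where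
  star_real r := by
    rw [aM_eq, GR.star_single, inv_one, map_one, Units.val_one, one_smul]

section EvR

variable {A : Type u} [Ring A] [StarRing A] [Algebra ℝ A] [RealStar A]

omit [StarRing A] [RealStar A] in
variable (A) in
/-- A real algebra has `1/2`. -/
theorem hasHalf_real : HasHalf A := HasHalf.map (algebraMap ℝ A)

/-- Evaluation at the real number `s`. -/
def evR (s : ℝ) : A[X] →+* A :=
  Polynomial.eval₂RingHom' (RingHom.id A) (algebraMap ℝ A s)
    (fun a => (Algebra.commutes s a).symm)

theorem evR_X (s : ℝ) : evR s (X : A[X]) = algebraMap ℝ A s := by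
  change Polynomial.eval₂ (RingHom.id A) (algebraMap ℝ A s) X = _
  rw [Polynomial.eval₂_X]

theorem evR_C (s : ℝ) (a : A) : evR s (C a) = a := by
  change Polynomial.eval₂ (RingHom.id A) (algebraMap ℝ A s) (C a) = _
  rw [Polynomial.eval₂_C, RingHom.id_apply]

theorem evR_map (s : ℝ) (p : ℝ[X]) :
    evR s (p.map (algebraMap ℝ A)) = algebraMap ℝ A (p.eval s) := by
  induction p using Polynomial.induction_on' with
  | add p q hp hq => rw [Polynomial.map_add, map_add, hp, hq, Polynomial.eval_add, map_add]
  | monomial n a =>
    rw [← Polynomial.C_mul_X_pow_eq_monomial, Polynomial.map_mul, Polynomial.map_pow,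
      Polynomial.map_C, Polynomial.map_X, map_mul, map_pow, evR_C, evR_X, Polynomial.eval_mul,
      Polynomial.eval_pow, Polynomial.eval_C, Polynomial.eval_X, map_mul, map_pow]

theorem evR_star (s : ℝ) (p : A[X]) : evR s (star p) = star (evR s p) := by
  induction p using Polynomial.induction_on' with
  | add p q hp hq => rw [star_add, map_add, map_add, star_add, hp, hq]
  | monomial n a =>
    rw [← Polynomial.C_mul_X_pow_eq_monomial, star_mul, star_pow, star_X, star_C, map_mul, map_mul,
      map_pow, evR_C, evR_X, evR_C, star_mul, star_pow, RealStar.star_real]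

/-- The scalar matrix `p`. -/
def scP (A : Type u) [Ring A] [Algebra ℝ A] (ι : Type) [DecidableEq ι] (p : ℝ[X]) :
    Matrix ι ι A[X] :=
  Matrix.diagonal fun _ => p.map (algebraMap ℝ A)

omit [StarRing A] [RealStar A] in
private theorem map_comm_aux (p : ℝ[X]) (q : A[X]) :
    p.map (algebraMap ℝ A) * q = q * p.map (algebraMap ℝ A) := by
  ext n
  rw [Polynomial.coeff_mul, Polynomial.coeff_mul, ← Finset.Nat.sum_antidiagonal_swap]
  refine Finset.sum_congr rfl fun x _ => ?_
  rw [Prod.fst_swap, Prod.snd_swap, Polynomial.coeff_map, Algebra.commutes]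

/-- Scalar matrices are central. -/
theorem scP_comm {ι : Type} [Fintype ι] [DecidableEq ι] (p : ℝ[X]) (M : Matrix ι ι A[X]) :
    scP A ι p * M = M * scP A ι p := by
  ext i j
  rw [scP, Matrix.diagonal_mul, Matrix.mul_diagonal, map_comm_aux]

end EvR

section ToPoly

variable {π : Type u} [Group π] {w : π →* ℤˣ}

/-- The homomorphism `ℝ[X][π] → ℝ[π][X]`. -/
def toPoly : GR ℝ[X] π w →+* (GR ℝ π w)[X] :=
  MonoidAlgebra.liftNCRingHom (Polynomial.mapRingHom (algebraMap ℝ (GR ℝ π w)))
    ((C : GR ℝ π w →+* (GR ℝ π w)[X]).toMonoidHom.comp (MonoidAlgebra.of ℝ π))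
    (fun p _ => map_comm_aux p _)

private theorem toPoly_single' (g : π) (p : ℝ[X]) :
    toPoly (GR.single g p : GR ℝ[X] π w) =
      p.map (algebraMap ℝ (GR ℝ π w)) * C (GR.single g 1) :=
  MonoidAlgebra.liftNC_single _ _ _ _

private theorem real_mul_single (g : π) (r : ℝ) :
    algebraMap ℝ (GR ℝ π w) r * GR.single g 1 = GR.single g r := by
  rw [aM_eq, GR.single_mul_single, one_mul, mul_one]

theorem toPoly_single (g : π) (p : ℝ[X]) (n : ℕ) :
    (toPoly (GR.single g p : GR ℝ[X] π w)).coeff n = GR.single g (p.coeff n) := by
  rw [toPoly_single', Polynomial.coeff_mul_C, Polynomial.coeff_map, real_mul_single]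

theorem toPoly_star (x : GR ℝ[X] π w) : toPoly (star x) = star (toPoly x) := by
  induction x using GR.induction with
  | zero => rw [star_zero, map_zero, star_zero]
  | single g r =>
    ext n
    rw [GR.star_single, toPoly_single, coeff_star, toPoly_single, GR.star_single,
      Polynomial.coeff_smul]
  | add x y hx hy => rw [star_add, map_add, map_add, star_add, hx, hy]

theorem evR_toPoly (s : ℝ) (x : GR ℝ[X] π w) :
    evR s (toPoly x) = GR.map (Polynomial.evalRingHom s) x := by
  induction x using GR.induction with
  | zero => rw [map_zero, map_zero, map_zero]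
  | single g r =>
    rw [toPoly_single', map_mul, evR_map, evR_C, real_mul_single, GR.map_single]
    rfl
  | add x y hx hy => rw [map_add, map_add, map_add, hx, hy]

theorem toPoly_algebraMap (p : ℝ[X]) :
    toPoly (algebraMap ℝ[X] (GR ℝ[X] π w) p) = p.map (algebraMap ℝ (GR ℝ π w)) := by
  rw [aM_eq, toPoly_single', ← GR.one_def, C_1, mul_one]

end ToPoly

end

end Pool.Agent.H17.LTh
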