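import Pool.Agent.H17.L0.CRep

/-!
MP_c13a79_gt, coefficient theorem: rules for `CRep.tr` (module TrP).

PLAN. Every statement is an equality of classes of forms; for `x = X.cls` use `L0.tr_cls`,
`Form.cls_eq`, `Form.Stab.of_iso` and exhibit the isometry (or equality) of the block matrices
`(P ρ(ψ_ij))`:
* `tr_map`, `tr_comp`: equality of matrices (`GR.map j (GR.mapAdd f x) = GR.mapAdd (j ∘ f) x`).
* `tr_conj`: `g = ` the block matrix with entries `(if i = j then V else 0)` mapped by
  `GR.single 1`, i.e. `1 ⊗ V`; `(1 ⊗ V)ᴴ (P₁ ρ₁(ψ_ij)) (1 ⊗ V) = (Vᵀ P₁ ρ₁(ψ_ij) V) =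
  (Vᵀ P₁ V ρ₂(ψ_ij))`.
* `tr_sum`: reindex by `Equiv.prodSumDistrib ι r r' : ι × (r ⊕ r') ≃ ι × r ⊕ ι × r'`.
* `tr_neg`: `-ψ`. `tr_one`: reindex by `Equiv.prodPUnit` or `Equiv.prodUnique`.
* `tr_same`: `CRep.tr` depends only on `ρ` and `P`.
-/

set_option autoImplicit false

namespace Pool.Agent.H17.LTh

open Matrix

universe u v u' v' w'

variable {S' : Type u'} {S : Type v} [CommRing S'] [CommRing S] {r r' : Type} [Fintype r]
  [DecidableEq r] [Fintype r'] [DecidableEq r'] (D : CRep S' S r) {π : Type u} [Group π]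
  {w : π →* ℤˣ} {ε : ℤˣ}

private theorem map_mulS {r r' r'' : Type} [Fintype r'] (g h : π) (M : Matrix r r' S)
    (N : Matrix r' r'' S) :
    M.map (GR.single g : S → GR S π w) * N.map (GR.single h : S → GR S π w) =
      (M * N).map (GR.single (g * h) : S → GR S π w) := by
  let s : S →+ GR S π w := ⟨⟨GR.single (g * h), GR.single_zero _⟩, GR.single_add _⟩
  ext1 i j
  rw [Matrix.mul_apply, Matrix.map_apply, Matrix.mul_apply]
  change _ = s _
  rw [map_sum]
  refine Finset.sum_congr rfl fun k _ => ?_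
  rw [Matrix.map_apply, Matrix.map_apply, GR.single_mul_single]
  rfl

private theorem gr_P (D : CRep S' S r) : (D.gr π w).P = D.P.map (GR.single 1) := rfl

private theorem gr_single (D : CRep S' S r) (g : π) (a : S') :
    (D.gr π w).P * (D.gr π w).ρ (GR.single g a) = (D.P * D.ρ a).map (GR.single g) := by
  change D.P.map (GR.single 1) * D.grρ π w (GR.single g a) = _
  rw [D.grρ_single, map_mulS, one_mul]

private theorem map_one_single : (1 : Matrix r r S).map (GR.single 1 : S → GR S π w) = 1 := by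
  ext1 i j
  rw [Matrix.map_apply, Matrix.one_apply, Matrix.one_apply]
  split_ifs
  · rfl
  · exact GR.single_zero _

theorem tr_same {D D' : CRep S' S r} (h : D.ρ = D'.ρ) (h' : D.P = D'.P)
    (x : L0 (GR S' π w) ε) : D.tr x = D'.tr x := by
  obtain ⟨ρ, P, _, _, _⟩ := D
  obtain ⟨ρ', P', _, _, _⟩ := D'
  subst h h'
  rfl

theorem tr_map {T : Type v'} [CommRing T] (j : S →+* T) (x : L0 (GR S' π w) ε) :
    L0.co j (D.tr x) = (D.map j).tr x := by
  obtain ⟨X⟩ := x
  refine Form.cls_eq.2 (.of_iso (IsoQ.of_eq ?_))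
  have key : ∀ x : GR S' π w, ((D.gr π w).P * (D.gr π w).ρ x).map (GR.map j) =
      ((D.map j).gr π w).P * ((D.map j).gr π w).ρ x := by
    intro x
    induction x using GR.induction with
    | zero =>
      rw [map_zero, map_zero, Matrix.mul_zero, Matrix.mul_zero, Matrix.map_zero _ (map_zero _)]
    | single g a =>
      rw [gr_single, gr_single]
      ext1 i k
      rw [Matrix.map_apply, Matrix.map_apply, Matrix.map_apply, GR.map_single]
      refine congrArg (GR.single g) ?_
      change j ((D.P * D.ρ a) i k) = (D.P.map j * (D.ρ a).map j) i k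
      rw [← Matrix.map_mul, Matrix.map_apply]
    | add x y hx hy =>
      rw [map_add, map_add, Matrix.mul_add, Matrix.mul_add, Matrix.map_add _ (map_add _), hx, hy]
  ext1 a b
  exact congrFun (congrFun (key (X.ψ a.1 b.1)) a.2) b.2

theorem tr_comp {S'' : Type v'} [CommRing S''] (i : S'' →+* S') (x : L0 (GR S'' π w) ε) :
    D.tr (L0.co i x) = (D.comp i).tr x := by
  obtain ⟨X⟩ := x
  refine Form.cls_eq.2 (.of_iso (IsoQ.of_eq ?_))
  have key : ∀ x : GR S'' π w, (D.gr π w).P * (D.gr π w).ρ (GR.map i x) =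
      ((D.comp i).gr π w).P * ((D.comp i).gr π w).ρ x := by
    intro x
    induction x using GR.induction with
    | zero => rw [map_zero, map_zero, map_zero, Matrix.mul_zero, Matrix.mul_zero]
    | single g a =>
      rw [GR.map_single, gr_single, gr_single]
      rfl
    | add x y hx hy =>
      rw [map_add, map_add, map_add, Matrix.mul_add, Matrix.mul_add, hx, hy]
  ext1 a b
  exact congrFun (congrFun (key (X.ψ a.1 b.1)) a.2) b.2

section Conj

variable {A' : Type u} {A : Type v} [Ring A'] [StarRing A'] [Ring A] [StarRing A]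

private def bdr (ι : Type) [DecidableEq ι] (X : Matrix r r' A) : Matrix (ι × r) (ι × r') A :=
  Matrix.of fun x y => if x.1 = y.1 then X x.2 y.2 else 0

private theorem mul_bdr {ι : Type} [Fintype ι] [DecidableEq ι] {κ : Type}
    (M : Matrix κ (ι × r) A) (X : Matrix r r' A) (x : κ) (y : ι × r') :
    (M * bdr ι X) x y = ∑ c, M x (y.1, c) * X c y.2 := by
  rw [Matrix.mul_apply, Fintype.sum_prod_type, Finset.sum_eq_single y.1]
  · refine Finset.sum_congr rfl fun c _ => ?_
    simp only [bdr, Matrix.of_apply, if_true]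
  · intro k _ hk
    refine Finset.sum_eq_zero fun c _ => ?_
    simp only [bdr, Matrix.of_apply, if_neg hk, mul_zero]
  · intro h
    exact absurd (Finset.mem_univ _) h

private theorem bdr_conj_mul {ι : Type} [Fintype ι] [DecidableEq ι] {κ : Type}
    (M : Matrix (ι × r) κ A) (X : Matrix r r' A) (x : ι × r') (y : κ) :
    ((bdr ι X)ᴴ * M) x y = ∑ c, star (X c x.2) * M (x.1, c) y := by
  rw [Matrix.mul_apply, Fintype.sum_prod_type, Finset.sum_eq_single x.1]
  · refine Finset.sum_congr rfl fun c _ => ?_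
    simp only [bdr, Matrix.conjTranspose_apply, Matrix.of_apply, if_true]
  · intro k _ hk
    refine Finset.sum_eq_zero fun c _ => ?_
    simp only [bdr, Matrix.conjTranspose_apply, Matrix.of_apply, if_neg hk, star_zero, zero_mul]
  · intro h
    exact absurd (Finset.mem_univ _) h

private theorem bdr_mul {r'' : Type} [Fintype r''] [DecidableEq r''] (ι : Type) [Fintype ι] [DecidableEq ι]
    (X : Matrix r r' A) (Y : Matrix r' r'' A) : bdr ι X * bdr ι Y = bdr ι (X * Y) := by
  ext x y
  rw [mul_bdr]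
  simp only [bdr, Matrix.of_apply]
  by_cases h : x.1 = y.1
  · simp only [h, if_true, Matrix.mul_apply]
  · simp only [h, if_false, zero_mul, Finset.sum_const_zero]

private theorem bdr_one (ι : Type) [Fintype ι] [DecidableEq ι] :
    bdr ι (1 : Matrix r r A) = 1 := by
  ext ⟨i, a⟩ ⟨j, b⟩
  simp only [bdr, Matrix.of_apply, Matrix.one_apply, Prod.mk.injEq]
  by_cases h : i = j <;> by_cases h' : a = b <;> simp [h, h']

private theorem fo_bdr (D₁ : Rep A' A r) (D₂ : Rep A' A r') (V : Matrix r r' A)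
    (V' : Matrix r' r A) (h1 : V * V' = 1) (h2 : V' * V = 1)
    (h : ∀ a, Vᴴ * (D₁.P * D₁.ρ a) * V = D₂.P * D₂.ρ a) {ι : Type} [Fintype ι] [DecidableEq ι]
    (M : Matrix ι ι A') : IsoQ ε (D₁.fo M) (D₂.fo M) := by
  refine ⟨bdr ι V, bdr ι V', 0, ?_, ?_, ?_⟩
  · rw [bdr_mul, h1, bdr_one]
  · rw [bdr_mul, h2, bdr_one]
  · rw [Matrix.conjTranspose_zero, smul_zero, sub_zero, add_zero]
    ext x y
    rw [mul_bdr]
    simp only [bdr_conj_mul]
    have h3 := congrFun (congrFun (h (M x.1 y.1)) x.2) y.2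
    change _ = (D₂.P * D₂.ρ (M x.1 y.1)) x.2 y.2
    rw [← h3, Matrix.mul_apply]
    refine Finset.sum_congr rfl fun c _ => ?_
    rw [Matrix.mul_apply]
    rfl

end Conj

theorem tr_conj (D₁ : CRep S' S r) (D₂ : CRep S' S r') (V : Matrix r r' S) (V' : Matrix r' r S)
    (h1 : V * V' = 1) (h2 : V' * V = 1) (hρ : ∀ a, D₁.ρ a * V = V * D₂.ρ a)
    (hP : Vᵀ * D₁.P * V = D₂.P) (x : L0 (GR S' π w) ε) : D₁.tr x = D₂.tr x := by
  obtain ⟨X⟩ := x
  refine Form.cls_eq.2 (.of_iso ?_)
  refine fo_bdr (D₁.gr π w) (D₂.gr π w) (V.map (GR.single 1)) (V'.map (GR.single 1)) ?_ ?_ ?_ X.ψ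
  · rw [map_mulS, h1, one_mul, map_one_single]
  · rw [map_mulS, h2, one_mul, map_one_single]
  · have h3 : (V.map (GR.single 1 : S → GR S π w))ᴴ = Vᵀ.map (GR.single 1) := by
      ext1 i j
      rw [conjTranspose_apply, Matrix.map_apply, Matrix.map_apply, GR.star_single, inv_one, map_one,
        Units.val_one, one_smul]
      rfl
    intro x
    induction x using GR.induction with
    | zero => simp only [map_zero, Matrix.mul_zero, Matrix.zero_mul]
    | single g a =>
      rw [gr_single, gr_single, h3, map_mulS, map_mulS, one_mul, mul_one]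
      rw [← Matrix.mul_assoc, Matrix.mul_assoc (Vᵀ * D₁.P), hρ, ← Matrix.mul_assoc, hP]
    | add x y hx hy =>
      simp only [map_add, Matrix.mul_add, Matrix.add_mul, hx, hy]

theorem tr_sum (D' : CRep S' S r') (x : L0 (GR S' π w) ε) :
    (D.sum D').tr x = D.tr x + D'.tr x := by
  obtain ⟨X⟩ := x
  have key : ∀ x : GR S' π w, ((D.sum D').gr π w).P * ((D.sum D').gr π w).ρ x =
      fromBlocks ((D.gr π w).P * (D.gr π w).ρ x) 0 0 ((D'.gr π w).P * (D'.gr π w).ρ x) := by
    intro x
    induction x using GR.induction with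
    | zero => simp only [map_zero, Matrix.mul_zero, fromBlocks_zero]
    | single g a =>
      rw [gr_single, gr_single, gr_single]
      have h1 : (D.sum D').P * (D.sum D').ρ a =
          fromBlocks (D.P * D.ρ a) 0 0 (D'.P * D'.ρ a) := by
        change fromBlocks D.P 0 0 D'.P * fromBlocks (D.ρ a) 0 0 (D'.ρ a) = _
        rw [fromBlocks_multiply]
        simp only [Matrix.mul_zero, Matrix.zero_mul, add_zero, zero_add]
      rw [h1, fromBlocks_map]
      congr 1
      · exact Matrix.map_zero _ (GR.single_zero g)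
      · exact Matrix.map_zero _ (GR.single_zero g)
    | add x y hx hy =>
      simp only [map_add, Matrix.mul_add, hx, hy, fromBlocks_add, add_zero]
  change (X.tr ((D.sum D').gr π w)).cls = ((X.tr (D.gr π w)).sum (X.tr (D'.gr π w))).cls
  refine Form.cls_eq.2 (.of_iso ?_)
  refine (IsoQ.reindex (Equiv.prodSumDistrib X.ι r r').symm _).trans (IsoQ.of_eq ?_)
  ext1 a b
  rcases a with ⟨i, a⟩ | ⟨i, a⟩ <;> rcases b with ⟨j, b⟩ | ⟨j, b⟩
  · exact congrFun (congrFun (key (X.ψ i j)) (Sum.inl a)) (Sum.inl b)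
  · exact congrFun (congrFun (key (X.ψ i j)) (Sum.inl a)) (Sum.inr b)
  · exact congrFun (congrFun (key (X.ψ i j)) (Sum.inr a)) (Sum.inl b)
  · exact congrFun (congrFun (key (X.ψ i j)) (Sum.inr a)) (Sum.inr b)

theorem tr_neg (x : L0 (GR S' π w) ε) : D.neg.tr x = -D.tr x := by
  obtain ⟨X⟩ := x
  change (X.tr (D.neg.gr π w)).cls = (X.tr (D.gr π w)).neg.cls
  refine Form.cls_eq.2 (.of_iso (IsoQ.of_eq ?_))
  have key : ∀ x : GR S' π w, (D.neg.gr π w).P * (D.neg.gr π w).ρ x =
      -((D.gr π w).P * (D.gr π w).ρ x) := by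
    intro x
    induction x using GR.induction with
    | zero => simp only [map_zero, Matrix.mul_zero, neg_zero]
    | single g a =>
      rw [gr_single, gr_single]
      let s : S →+ GR S π w := ⟨⟨GR.single g, GR.single_zero _⟩, GR.single_add _⟩
      ext1 i k
      rw [Matrix.neg_apply, Matrix.map_apply, Matrix.map_apply]
      change s ((-D.P * D.ρ a) i k) = -s ((D.P * D.ρ a) i k)
      rw [Matrix.neg_mul, Matrix.neg_apply, map_neg]
    | add x y hx hy =>
      simp only [map_add, Matrix.mul_add, hx, hy, neg_add]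
  ext1 a b
  exact congrFun (congrFun (key (X.ψ a.1 b.1)) a.2) b.2

theorem tr_one (i : S' →+* S) (x : L0 (GR S' π w) ε) :
    (CRep.scal i (1 : Matrix Unit Unit S) (by simp) isUnit_one).tr x = L0.co i x := by
  obtain ⟨X⟩ := x
  refine Form.cls_eq.2 (.of_iso ?_)
  have key : ∀ x : GR S' π w,
      ((CRep.scal i (1 : Matrix Unit Unit S) (by simp) isUnit_one).gr π w).P *
      ((CRep.scal i (1 : Matrix Unit Unit S) (by simp) isUnit_one).gr π w).ρ x =
      Matrix.of fun _ _ => GR.map i x := by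
    intro x
    induction x using GR.induction with
    | zero =>
      simp only [map_zero, Matrix.mul_zero]
      rfl
    | single g a =>
      rw [gr_single, GR.map_single]
      ext1 k l
      rw [Matrix.map_apply, Matrix.of_apply]
      refine congrArg (GR.single g) ?_
      change ((1 : Matrix Unit Unit S) * (Matrix.diagonal (fun _ => i a) : Matrix Unit Unit S)) k l =
        i a
      rw [Matrix.one_mul]
      exact Matrix.diagonal_apply_eq _ k
    | add x y hx hy =>
      simp only [map_add, Matrix.mul_add, hx, hy]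
      rfl
  refine (IsoQ.reindex (Equiv.prodUnique X.ι Unit).symm _).trans (IsoQ.of_eq ?_)
  ext1 a b
  exact congrFun (congrFun (key (X.ψ a b)) _) _

theorem co_co {T : Type v'} [CommRing T] (i : S' →+* S) (j : S →+* T) (x : L0 (GR S' π w) ε) :
    L0.co j (L0.co i x) = L0.co (j.comp i) x := by
  obtain ⟨X⟩ := x
  refine Form.cls_eq.2 (.of_iso (IsoQ.of_eq ?_))
  ext1 a b
  change GR.map j (GR.map i (X.ψ a b)) = GR.map (j.comp i) (X.ψ a b)
  refine GR.ext fun g => ?_
  rw [GR.co_map, GR.co_map, GR.co_map]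
  rfl

theorem co_id (x : L0 (GR S π w) ε) : L0.co (RingHom.id S) x = x := by
  obtain ⟨X⟩ := x
  refine Form.cls_eq.2 (.of_iso (IsoQ.of_eq ?_))
  ext1 a b
  change GR.map (RingHom.id S) (X.ψ a b) = X.ψ a b
  refine GR.ext fun g => ?_
  rw [GR.co_map]
  rfl

end Pool.Agent.H17.LTh
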