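import Pool.Agent.H17.L0.Apx
import Pool.Agent.H17.L0.Path
import Pool.Agent.H17.L0.TrP

/-!
MP_c13a79_gt, coefficient theorem: specialisation (module SpG).

PLAN. `c i = j (X_i)`; then `j (algebraMap u) = aeval c u` for all polynomials `u` (both sides are
`ℚ`-algebra maps). `d ≠ 0` and `j` injective, so `aeval c d ≠ 0`; `apx` gives `c0` with
`d(c0 + s (c - c0)) ≠ 0` on `[0,1]`, in particular `d(c0) ≠ 0`. `e0 : Localization.Away d → ℚ` is
`IsLocalization.Away.lift` of `MvPolynomial.aeval c0` (ℚ-valued). Apply `path` with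
`R = MvPolynomial (Fin r) ℚ`, `γ = seg c0 c`, the two evaluations `(algebraMap ℚ ℝ).comp e0` and
`j.comp (awayTo hd)`. `HasHalf R`: `HasHalf.map MvPolynomial.C`.
-/

set_option autoImplicit false

namespace Pool.Agent.H17.LTh

open Matrix Polynomial

universe u

private theorem j_eq {r : ℕ} (j : Kf r →+* ℝ) (u : MvPolynomial (Fin r) ℚ) :
    j (algebraMap (MvPolynomial (Fin r) ℚ) (Kf r) u) =
      MvPolynomial.aeval (fun i => j (algebraMap (MvPolynomial (Fin r) ℚ) (Kf r)
        (MvPolynomial.X i))) u := by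
  have h : (j.comp (algebraMap (MvPolynomial (Fin r) ℚ) (Kf r))) =
      (MvPolynomial.aeval (R := ℚ) (fun i => j (algebraMap (MvPolynomial (Fin r) ℚ) (Kf r)
        (MvPolynomial.X i)))).toRingHom := by
    apply MvPolynomial.ringHom_ext
    · intro q
      have h1 : j (algebraMap (MvPolynomial (Fin r) ℚ) (Kf r) (MvPolynomial.C q)) = (q : ℝ) :=
        eq_ratCast (j.comp ((algebraMap (MvPolynomial (Fin r) ℚ) (Kf r)).comp MvPolynomial.C)) q
      have h2 : (MvPolynomial.aeval (R := ℚ) (fun i => j (algebraMap (MvPolynomial (Fin r) ℚ) (Kf r)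
          (MvPolynomial.X i)))) (MvPolynomial.C q) = (q : ℝ) := by
        rw [MvPolynomial.aeval_C]
        exact eq_ratCast _ q
      exact h1.trans h2.symm
    · intro i
      simp
  exact congrArg (fun f : MvPolynomial (Fin r) ℚ →+* ℝ => f u) h

private theorem aeval_cast {r : ℕ} (c0 : Fin r → ℚ) (u : MvPolynomial (Fin r) ℚ) :
    MvPolynomial.aeval (fun i => (c0 i : ℝ)) u = algebraMap ℚ ℝ (MvPolynomial.aeval c0 u) := by
  have h := MvPolynomial.aeval_algebraMap_apply (R := ℚ) (A := ℚ) ℝ c0 u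
  exact h

theorem spG {r : ℕ} (j : Kf r →+* ℝ) (d : MvPolynomial (Fin r) ℚ) (hd : d ≠ 0) :
    ∃ e0 : Localization.Away d →+* ℚ, ∀ (π : Type u) [Group π] (w : π →* ℤˣ) (ε : ℤˣ)
      (x : L0 (GR (Localization.Away d) π w) ε),
      L0.co (algebraMap ℚ ℝ) (L0.co e0 x) = L0.co j (L0.co (awayTo hd) x) := by
  obtain ⟨c0, hc0⟩ := apx d (fun i => j (algebraMap (MvPolynomial (Fin r) ℚ) (Kf r)
      (MvPolynomial.X i))) (by
    rw [← j_eq]
    intro h0
    have h1 := (map_eq_zero_iff j j.injective).1 h0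
    exact hd ((map_eq_zero_iff _ (IsFractionRing.injective (MvPolynomial (Fin r) ℚ) (Kf r))).1 h1))
  have hu : MvPolynomial.aeval c0 d ≠ 0 := by
    intro h0
    have h1 := hc0 0 ⟨le_refl _, zero_le_one⟩
    rw [seg_eval] at h1
    apply h1
    have h2 := aeval_cast c0 d
    rw [h0, map_zero] at h2
    simpa using h2
  let e0 : Localization.Away d →+* ℚ :=
    IsLocalization.Away.lift (S := Localization.Away d)
      (g := (MvPolynomial.aeval c0 : MvPolynomial (Fin r) ℚ →ₐ[ℚ] ℚ).toRingHom) d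
      (by
        rw [isUnit_iff_ne_zero]
        exact hu)
  have he0 : ∀ u : MvPolynomial (Fin r) ℚ,
      e0 (algebraMap (MvPolynomial (Fin r) ℚ) (Localization.Away d) u) =
        MvPolynomial.aeval c0 u := by
    intro u
    exact IsLocalization.Away.lift_eq (S := Localization.Away d) d _ u
  refine ⟨e0, ?_⟩
  intro π _ w ε x
  have : HasHalf (MvPolynomial (Fin r) ℚ) := HasHalf.map (MvPolynomial.C : ℚ →+* _)
  rw [co_co, co_co]
  refine path d hd (seg c0 (fun i => j (algebraMap (MvPolynomial (Fin r) ℚ) (Kf r)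
      (MvPolynomial.X i)))) _ _ ?_ ?_ hc0 x
  · intro u
    rw [RingHom.comp_apply, he0, seg_eval, ← aeval_cast]
    congr 2
    funext i
    simp
  · intro u
    rw [RingHom.comp_apply, awayTo_algebraMap, j_eq, seg_eval]
    congr 2
    funext i
    simp

end Pool.Agent.H17.LTh
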