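import Pool.Agent.H17.L0.Tran
import Pool.Agent.H17.L0.GEx
import Pool.Agent.H17.L0.SpG
import Pool.Agent.H17.L0.Diag
import Pool.Agent.H17.L0.Inf

/-!
MP_c13a79_gt, coefficient theorem: from `ℚ[π]` to `ℝ[π]` (module QR).
-/

set_option autoImplicit false

namespace Pool.Agent.H17.LTh

open Matrix Polynomial

universe u

/-- The transfer from `E = K(θ)` to the rational function field `K`. -/
theorem exists_tran {r : ℕ} (j : Kf r →+* ℝ) (θ : ℝ) (f : (Kf r)[X]) (hf : f.Monic)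
    (hi : Irreducible f) (h0 : f.eval₂ j θ = 0) :
    ∃ (E : Type) (_ : Field E) (_ : Algebra (Kf r) E) (τ : E →+* ℝ)
      (_ : ∀ a, τ (algebraMap (Kf r) E a) = j a) (_ : ∀ u : (Kf r)[X], u.eval₂ j θ ∈ Set.range τ)
      (n : ℕ) (D : CRep E (Kf r) (Fin n ⊕ Fin n)) (σ : ℤˣ),
      ∀ (π : Type u) [Group π] (w : π →* ℤˣ) (ε : ℤˣ) (x : L0 (GR E π w) ε),
        L0.co j (D.tr x) = (2 * (σ : ℤ)) • L0.co τ x := by
  have : Fact (Irreducible f) := ⟨hi⟩
  have hf0 : f ≠ 0 := hi.ne_zero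
  let pb : PowerBasis (Kf r) (AdjoinRoot f) := AdjoinRoot.powerBasis hf0
  have hgen : pb.gen = AdjoinRoot.root f := AdjoinRoot.powerBasis_gen hf0
  have hmin : minpoly (Kf r) pb.gen = f := by
    rw [hgen, AdjoinRoot.minpoly_root hf0, hf.leadingCoeff, inv_one, map_one, mul_one]
  let τ : AdjoinRoot f →+* ℝ := AdjoinRoot.lift j θ h0
  have hτ : ∀ a, τ (algebraMap (Kf r) (AdjoinRoot f) a) = j a := fun a => AdjoinRoot.lift_of h0
  have hτg : τ pb.gen = θ := by rw [hgen]; exact AdjoinRoot.lift_root h0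
  have hdim : 0 < pb.dim := pb.dim_pos
  let T : AdjoinRoot f →ₗ[Kf r] Kf r := pb.basis.coord ⟨0, hdim⟩
  have hT : T ≠ 0 := by
    intro h
    have h1 : T (pb.basis ⟨0, hdim⟩) = 1 := by
      simp only [T, Module.Basis.coord_apply, Module.Basis.repr_self, Finsupp.single_eq_same]
    rw [h] at h1
    exact zero_ne_one h1
  have hfj : f.map j ≠ 0 := (Polynomial.map_ne_zero_iff j.injective).2 hf0
  obtain ⟨g, hg1, hg2, hg3⟩ := gex (f.map j) hfj θ
  have hgm : (g.map (algebraMap ℚ (Kf r))).map j = g.map (algebraMap ℚ ℝ) := by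
    rw [Polynomial.map_map]
    congr 1
    exact RingHom.ext_rat _ _
  have hev : ∀ u : (Kf r)[X], τ (aeval pb.gen u) = u.eval₂ j θ := by
    intro u
    rw [Polynomial.aeval_def, Polynomial.hom_eval₂, hτg]
    congr 1
    ext a
    exact hτ a
  have hg0 : aeval pb.gen (g.map (algebraMap ℚ (Kf r))) ≠ 0 := by
    intro h
    have h1 := hev (g.map (algebraMap ℚ (Kf r)))
    rw [h, map_zero, Polynomial.eval₂_eq_eval_map, hgm] at h1
    exact hg1.ne h1
  obtain ⟨σ, hσ⟩ := tran.{u} pb T hT j τ hτ (g.map (algebraMap ℚ (Kf r)))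
    (by rw [hgm, hτg]; exact hg1)
    (by rw [hgm, hτg, hmin]; exact hg2)
    (by rw [hgm, hmin]; exact hg3) hg0
  refine ⟨AdjoinRoot f, inferInstance, inferInstance, τ, hτ, fun u => ⟨aeval pb.gen u, hev u⟩,
    pb.dim, (frob pb T hT 1 one_ne_zero).sum (frob pb T hT _ hg0), σ, ?_⟩
  intro π _ w ε x
  rw [tr_sum, map_add]
  exact hσ π w ε x

theorem qr_surj {π : Type u} [Group π] {w : π →* ℤˣ} {ε : ℤˣ} (y : L0 (GR ℝ π w) ε) :
    ∃ x : L0 (GR ℚ π w) ε, L0.co (algebraMap ℚ ℝ) x = 2 • y := by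
  obtain ⟨F, hF⟩ := exists_stage.{u, 0, 0} y
  obtain ⟨r, j, θ, f, hf, hi, h0, hu⟩ := model F
  obtain ⟨E, _, _, τ, hτ, hr, n, D, σ, hD⟩ := exists_tran.{u} j θ f hf hi h0
  obtain ⟨y', hy'⟩ := hF E τ τ.injective (by
    intro t ht
    obtain ⟨u, hu'⟩ := hu t ht
    rw [← hu']
    exact hr u)
  have h1 : L0.co j (D.tr y') = (2 * (σ : ℤ)) • y := by rw [hD π w ε y', hy']
  -- specialise `D.tr y'`
  obtain ⟨F', hF'⟩ := exists_stage.{u, 0, 0} (D.tr y')
  obtain ⟨d, hd, hden⟩ := den F'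
  obtain ⟨z, hz⟩ := hF' (Localization.Away d) (awayTo hd) (awayTo_inj hd)
    (hden d hd (dvd_refl d))
  obtain ⟨e0, he0⟩ := spG.{u} j d hd
  refine ⟨(σ : ℤ) • L0.co e0 z, ?_⟩
  rw [map_zsmul, he0 π w ε z, hz, h1, smul_smul, mul_left_comm, eps_eps, mul_one]
  rfl

theorem qr_inj {π : Type u} [Group π] {w : π →* ℤˣ} {ε : ℤˣ} (x : L0 (GR ℚ π w) ε)
    (h : L0.co (algebraMap ℚ ℝ) x = 0) : 8 • x = 0 := by
  obtain ⟨F, hF⟩ := zero_stage.{u, 0, 0, 0} (algebraMap ℚ ℝ) x h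
  obtain ⟨r, j, θ, f, hf, hi, h0, hu⟩ := model F
  obtain ⟨E, _, _, τ, hτ, hr, n, D, σ, hD⟩ := exists_tran.{u} j θ f hf hi h0
  let a : ℚ →+* E := (algebraMap (Kf r) E).comp (algebraMap ℚ (Kf r))
  have hE : L0.co a x = 0 := by
    refine hF E a τ τ.injective (RingHom.ext_rat _ _) ?_
    intro t ht
    obtain ⟨u, hu'⟩ := hu t ht
    rw [← hu']
    exact hr u
  -- the matrix of the transfer of a constant form and its inverse
  obtain ⟨U, hU⟩ := D.unit
  obtain ⟨d, hd, hden⟩ := den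
    ((Finset.univ.image fun p : (Fin n ⊕ Fin n) × (Fin n ⊕ Fin n) => D.P p.1 p.2) ∪
      (Finset.univ.image fun p : (Fin n ⊕ Fin n) × (Fin n ⊕ Fin n) => U⁻¹.1 p.1 p.2))
  have hP : ∀ i k, ∃ s, awayTo hd s = D.P i k := fun i k =>
    hden d hd (dvd_refl d) _ (Finset.mem_union_left _ (Finset.mem_image.2 ⟨(i, k), by simp, rfl⟩))
  have hP' : ∀ i k, ∃ s, awayTo hd s = U⁻¹.1 i k := fun i k =>
    hden d hd (dvd_refl d) _ (Finset.mem_union_right _ (Finset.mem_image.2 ⟨(i, k), by simp, rfl⟩))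
  choose P hP using hP
  choose P' hP' using hP'
  have hPm : (Matrix.of P).map (awayTo hd) = D.P := by ext i k; exact hP i k
  have hPm' : (Matrix.of P').map (awayTo hd) = U⁻¹.1 := by ext i k; exact hP' i k
  have inj : Function.Injective (fun M : Matrix (Fin n ⊕ Fin n) (Fin n ⊕ Fin n)
      (Localization.Away d) => M.map (awayTo hd)) := by
    intro M N h
    ext i k
    exact awayTo_inj hd (congrFun (congrFun h i) k)
  have hPs : (Matrix.of P)ᵀ = Matrix.of P := by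
    apply inj
    change (Matrix.of P)ᵀ.map (awayTo hd) = (Matrix.of P).map (awayTo hd)
    rw [Matrix.transpose_map, hPm, D.symm]
  have hPu : IsUnit (Matrix.of P) := by
    refine ⟨⟨Matrix.of P, Matrix.of P', ?_, ?_⟩, rfl⟩
    · apply inj
      change (Matrix.of P * Matrix.of P').map (awayTo hd) = (1 : Matrix _ _ _).map (awayTo hd)
      rw [Matrix.map_mul, hPm, hPm', Matrix.map_one _ (map_zero _) (map_one _), ← hU, U.mul_inv]
    · apply inj
      change (Matrix.of P' * Matrix.of P).map (awayTo hd) = (1 : Matrix _ _ _).map (awayTo hd)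
      rw [Matrix.map_mul, hPm, hPm', Matrix.map_one _ (map_zero _) (map_one _), ← hU, U.inv_mul]
  let Ds : CRep ℚ (Localization.Away d) (Fin n ⊕ Fin n) :=
    CRep.scal (algebraMap ℚ (Localization.Away d)) (Matrix.of P) hPs hPu
  -- over `K` the form `P ⊗ x'` is the transfer of `x'`
  have hDs : ∀ (π : Type u) [Group π] (w : π →* ℤˣ) (ε : ℤˣ) (x' : L0 (GR ℚ π w) ε),
      L0.co (awayTo hd) (Ds.tr x') = D.tr (L0.co a x') := by
    intro π _ w ε x'
    rw [tr_map, tr_comp]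
    refine tr_same ?_ hPm x'
    exact RingHom.ext_rat _ _
  have hy : L0.co (awayTo hd) (Ds.tr x) = 0 := by rw [hDs π w ε x, hE, map_zero]
  obtain ⟨F2, hF2⟩ := zero_stage.{u, 0, 0, 0} (awayTo hd) (Ds.tr x) hy
  obtain ⟨d2, hd2, hden2⟩ := den F2
  have he : d * d2 ≠ 0 := mul_ne_zero hd hd2
  have hdu : IsUnit (algebraMap (MvPolynomial (Fin r) ℚ) (Localization.Away (d * d2)) d) := by
    have h1 : IsUnit (algebraMap (MvPolynomial (Fin r) ℚ) (Localization.Away (d * d2)) (d * d2)) :=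
      IsLocalization.Away.algebraMap_isUnit (d * d2)
    rw [map_mul] at h1
    exact isUnit_of_mul_isUnit_left h1
  let a' : Localization.Away d →+* Localization.Away (d * d2) :=
    IsLocalization.Away.lift (S := Localization.Away d) d hdu
  have ha' : (awayTo he).comp a' = awayTo hd := by
    refine IsLocalization.ringHom_ext (Submonoid.powers d) ?_
    ext u
    · simp [a']
    · simp [a', awayTo_algebraMap]
  have hz : L0.co a' (Ds.tr x) = 0 :=
    hF2 _ a' (awayTo he) (awayTo_inj he) ha' (hden2 _ he (dvd_mul_left d2 d))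
  obtain ⟨e0, he0⟩ := spG.{u} j (d * d2) he
  let e1 : Localization.Away d →+* ℚ := e0.comp a'
  let Q : Matrix (Fin n ⊕ Fin n) (Fin n ⊕ Fin n) ℚ := (Matrix.of P).map e1
  have hQs : Qᵀ = Q := by
    change ((Matrix.of P).map e1)ᵀ = _
    rw [← Matrix.transpose_map, hPs]
  have hQu : IsUnit Q := hPu.map e1.mapMatrix
  -- the specialised form
  have hQ : ∀ (π : Type u) [Group π] (w : π →* ℤˣ) (ε : ℤˣ) (x' : L0 (GR ℚ π w) ε),
      (CRep.scal (RingHom.id ℚ) Q hQs hQu).tr x' = L0.co e0 (L0.co a' (Ds.tr x')) := by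
    intro π _ w ε x'
    rw [co_co, tr_map]
    exact tr_same (D := CRep.scal (RingHom.id ℚ) Q hQs hQu) (D' := Ds.map (e0.comp a'))
      (RingHom.ext_rat _ _) rfl x'
  have hreal : ∀ (π : Type u) [Group π] (w : π →* ℤˣ) (ε : ℤˣ) (x' : L0 (GR ℚ π w) ε),
      L0.co (algebraMap ℚ ℝ) ((CRep.scal (RingHom.id ℚ) Q hQs hQu).tr x') =
        (2 * (σ : ℤ)) • L0.co (algebraMap ℚ ℝ) x' := by
    intro π _ w ε x'
    have h1 : τ.comp a = algebraMap ℚ ℝ := RingHom.ext_rat _ _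
    rw [hQ, he0, co_co a' (awayTo he), ha', hDs, hD, co_co, h1]
  obtain ⟨k, hk⟩ := diag.{u} Q hQs hQu
  have hk0 : (4 * k) • x = 0 := by
    rw [← hk π w ε x, hQ, hz, map_zero, smul_zero]
  -- the signature
  have hk2 : k = 2 * (σ : ℤ) := by
    have h0 := hk PUnit.{u+1} 1 1 (hcl 1 (1 : Matrix Unit Unit (GR ℚ PUnit.{u+1} 1)))
    have h1 := congrArg (fun z => L0.co (algebraMap ℚ ℝ) z) h0
    simp only [map_nsmul, map_zsmul] at h1
    rw [hreal] at h1
    have h2 : L0.co (algebraMap ℚ ℝ) (hcl 1 (1 : Matrix Unit Unit (GR ℚ PUnit.{u+1} 1))) =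
        hcl 1 (1 : Matrix Unit Unit (GR ℝ PUnit.{u+1} 1)) := by
      have h3 : IsH 1 (1 : Matrix Unit Unit (GR ℚ PUnit.{u+1} 1)) := by simp [IsH]
      rw [L0.co, hcl_map _ _ h3 isUnit_one, Matrix.map_one _ (map_zero _) (map_one _)]
    rw [h2, ← natCast_zsmul, smul_smul, ← sub_eq_zero, ← sub_smul] at h1
    have h3 := inf_order.{u} _ h1
    push_cast at h3
    linarith
  have h8 : ((4 * (2 * (σ : ℤ))) * (σ : ℤ)) • x = 0 := by
    rw [mul_comm, ← smul_smul, ← hk2, hk0, smul_zero]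
  have h9 : (4 * (2 * (σ : ℤ))) * (σ : ℤ) = 8 := by
    rw [mul_assoc, mul_assoc, eps_eps]; norm_num
  rw [h9] at h8
  exact_mod_cast h8

end Pool.Agent.H17.LTh
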