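import Pool.Agent.H17.L0.TrP

/-!
MP_c13a79_gt, coefficient theorem: products with forms of rank one (module Scal).

PLAN. `scal1_sq`: `tr_conj` with `V = (b)`. `scal1_one`: `tr_one`. `scal1_neg`: `tr_neg`,
`tr_same`. `scal_diagonal`: first for `r = Fin n` by induction on `n` with `tr_sum`, `tr_conj` along
`Fin (n+1) ≃ Unit ⊕ Fin n` (permutation matrices), `n = 0`: the form has an empty index set, class
zero; then for general `r` by `Fintype.equivFin`. `scal1_real`: `a = σ b²`, `b = √|a|`.
-/

set_option autoImplicit false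

namespace Pool.Agent.H17.LTh

open Matrix

universe u v u'

variable {S' : Type u'} {S : Type v} [CommRing S'] [CommRing S]

/-- The product with the form `⟨a⟩`. -/
def CRep.scal1 (i : S' →+* S) (a : S) (ha : IsUnit a) : CRep S' S Unit :=
  CRep.scal i (Matrix.diagonal fun _ => a) (Matrix.diagonal_transpose _)
    (by
      rw [Matrix.isUnit_diagonal]
      exact Pi.isUnit_iff.2 fun _ => ha)

variable {π : Type u} [Group π] {w : π →* ℤˣ} {ε : ℤˣ}

private theorem scal1_congr (i : S' →+* S) {a b : S} (h : a = b) (ha : IsUnit a) (hb : IsUnit b)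
    (x : L0 (GR S' π w) ε) : (CRep.scal1 i a ha).tr x = (CRep.scal1 i b hb).tr x := by
  subst h
  rfl

theorem scal1_sq (i : S' →+* S) (a b : S) (ha : IsUnit a) (hb : IsUnit b)
    (h : IsUnit (a * b ^ 2)) (x : L0 (GR S' π w) ε) :
    (CRep.scal1 i (a * b ^ 2) h).tr x = (CRep.scal1 i a ha).tr x := by
  obtain ⟨u, rfl⟩ := hb
  refine (tr_conj (CRep.scal1 i a ha) (CRep.scal1 i (a * (u : S) ^ 2) h)
    (Matrix.diagonal fun _ => (u : S)) (Matrix.diagonal fun _ => ((u⁻¹ : Sˣ) : S)) ?_ ?_ ?_ ?_
    x).symm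
  · rw [Matrix.diagonal_mul_diagonal, Units.mul_inv, Matrix.diagonal_one]
  · rw [Matrix.diagonal_mul_diagonal, Units.inv_mul, Matrix.diagonal_one]
  · intro s
    change Matrix.diagonal (fun _ => i s) * Matrix.diagonal (fun _ => (u : S)) =
      Matrix.diagonal (fun _ => (u : S)) * Matrix.diagonal (fun _ => i s)
    rw [Matrix.diagonal_mul_diagonal, Matrix.diagonal_mul_diagonal, mul_comm]
  · change (Matrix.diagonal (fun _ => (u : S)))ᵀ * Matrix.diagonal (fun _ => a) *
      Matrix.diagonal (fun _ => (u : S)) = Matrix.diagonal (fun _ => a * (u : S) ^ 2)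
    rw [Matrix.diagonal_transpose, Matrix.diagonal_mul_diagonal, Matrix.diagonal_mul_diagonal]
    congr 1
    funext _
    ring

theorem scal1_one (i : S' →+* S) (x : L0 (GR S' π w) ε) :
    (CRep.scal1 i 1 isUnit_one).tr x = L0.co i x := by
  rw [← tr_one]
  exact tr_same rfl Matrix.diagonal_one x

theorem scal1_neg (i : S' →+* S) (a : S) (ha : IsUnit a) (h : IsUnit (-a))
    (x : L0 (GR S' π w) ε) : (CRep.scal1 i (-a) h).tr x = -(CRep.scal1 i a ha).tr x := by
  rw [← tr_neg]
  refine tr_same rfl ?_ x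
  change Matrix.diagonal (fun _ => -a) = -Matrix.diagonal (fun _ => a)
  exact (Matrix.diagonal_neg _).symm

private theorem scal_reindex {r r' : Type} [Fintype r] [DecidableEq r] [Fintype r']
    [DecidableEq r'] (e : r ≃ r') (i : S' →+* S) (a : r' → S)
    (h1 : (Matrix.diagonal a)ᵀ = Matrix.diagonal a) (h2 : IsUnit (Matrix.diagonal a))
    (h1' : (Matrix.diagonal fun k => a (e k))ᵀ = Matrix.diagonal fun k => a (e k))
    (h2' : IsUnit (Matrix.diagonal fun k => a (e k))) (x : L0 (GR S' π w) ε) :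
    (CRep.scal i (Matrix.diagonal a) h1 h2).tr x =
      (CRep.scal i (Matrix.diagonal fun k => a (e k)) h1' h2').tr x := by
  refine tr_conj _ _ ((1 : Matrix r' r' S).submatrix id e) ((1 : Matrix r' r' S).submatrix e id)
    ?_ ?_ ?_ ?_ x
  · rw [submatrix_mul_equiv]; simp
  · rw [← submatrix_mul _ _ _ id _ Function.bijective_id]; simp
  · intro s
    change Matrix.diagonal (fun _ => i s) * (1 : Matrix r' r' S).submatrix id e =
      (1 : Matrix r' r' S).submatrix id e * Matrix.diagonal (fun _ => i s)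
    ext k l
    rw [Matrix.diagonal_mul, Matrix.mul_diagonal, mul_comm]
  · change ((1 : Matrix r' r' S).submatrix id e)ᵀ * Matrix.diagonal a *
      (1 : Matrix r' r' S).submatrix id e = Matrix.diagonal fun k => a (e k)
    rw [transpose_submatrix, transpose_one, ← submatrix_id_id (Matrix.diagonal a),
      ← submatrix_mul _ _ _ id _ Function.bijective_id,
      ← submatrix_mul _ _ _ id _ Function.bijective_id, Matrix.one_mul, Matrix.mul_one]
    ext k l
    rw [submatrix_apply, Matrix.diagonal_apply, Matrix.diagonal_apply]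
    simp only [EmbeddingLike.apply_eq_iff_eq]

private theorem scal_split {r : Type} [Fintype r] [DecidableEq r] (i : S' →+* S) (a : r → S)
    (b : S) (h1 : (Matrix.diagonal a)ᵀ = Matrix.diagonal a) (h2 : IsUnit (Matrix.diagonal a))
    (hb : IsUnit b)
    (h1' : (Matrix.diagonal (Sum.elim a fun _ : Unit => b))ᵀ =
      Matrix.diagonal (Sum.elim a fun _ : Unit => b))
    (h2' : IsUnit (Matrix.diagonal (Sum.elim a fun _ : Unit => b))) (x : L0 (GR S' π w) ε) :
    (CRep.scal i (Matrix.diagonal (Sum.elim a fun _ : Unit => b)) h1' h2').tr x =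
      (CRep.scal i (Matrix.diagonal a) h1 h2).tr x + (CRep.scal1 i b hb).tr x := by
  rw [← tr_sum]
  refine tr_same ?_ ?_ x
  · refine RingHom.ext fun s => ?_
    change Matrix.diagonal (fun _ => i s) =
      fromBlocks (Matrix.diagonal fun _ => i s) 0 0 (Matrix.diagonal fun _ => i s)
    rw [fromBlocks_diagonal]
    congr 1
    funext k
    rcases k with k | k <;> rfl
  · change Matrix.diagonal (Sum.elim a fun _ : Unit => b) =
      fromBlocks (Matrix.diagonal a) 0 0 (Matrix.diagonal fun _ => b)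
    rw [fromBlocks_diagonal]

private theorem scal_diag_fin (i : S' →+* S) (x : L0 (GR S' π w) ε) : ∀ (n : ℕ) (a : Fin n → S)
    (ha : ∀ k, IsUnit (a k)) (h1 : (Matrix.diagonal a)ᵀ = Matrix.diagonal a)
    (h2 : IsUnit (Matrix.diagonal a)),
    (CRep.scal i (Matrix.diagonal a) h1 h2).tr x = ∑ k, (CRep.scal1 i (a k) (ha k)).tr x := by
  intro n
  induction n with
  | zero =>
    intro a ha h1 h2
    rw [Finset.univ_eq_empty, Finset.sum_empty]
    obtain ⟨X⟩ := x
    refine Form.cls_eq.2 (.of_iso ?_)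
    have : IsEmpty (X.ι × Fin 0) := ⟨fun y => y.2.elim0⟩
    exact IsoQ.empty (ι := X.ι × Fin 0) (κ := Empty) _ _
  | succ n ih =>
    intro a ha h1 h2
    have hd : ∀ {r : Type} [Fintype r] [DecidableEq r] (c : r → S), (∀ k, IsUnit (c k)) →
        IsUnit (Matrix.diagonal c) := fun c hc => by
      rw [Matrix.isUnit_diagonal]
      exact Pi.isUnit_iff.2 hc
    let e : Fin n ⊕ Unit ≃ Fin (n + 1) :=
      ((finSuccEquiv n).trans (Equiv.optionEquivSumPUnit (Fin n))).symm
    have he1 : ∀ k : Fin n, e (Sum.inl k) = k.succ := fun k => rfl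
    have he2 : e (Sum.inr ()) = 0 := rfl
    have h3 : (fun k => a (e k)) = Sum.elim (fun k : Fin n => a k.succ) fun _ : Unit => a 0 := by
      funext k
      rcases k with k | k
      · rfl
      · rfl
    have h4 := scal_reindex e i a h1 h2 (Matrix.diagonal_transpose _) (hd _ fun k => ha _) x
    have h5 := scal_split i (fun k : Fin n => a k.succ) (a 0) (Matrix.diagonal_transpose _)
      (hd _ fun k => ha _) (ha 0) (Matrix.diagonal_transpose _) (hd _ (by
        rintro (k | k)
        · exact ha _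
        · exact ha _)) x
    rw [h4, Fin.sum_univ_succ]
    rw [tr_same (D := CRep.scal i (Matrix.diagonal fun k => a (e k)) (Matrix.diagonal_transpose _)
      (hd _ fun k => ha _)) (D' := CRep.scal i (Matrix.diagonal (Sum.elim
        (fun k : Fin n => a k.succ) fun _ : Unit => a 0)) (Matrix.diagonal_transpose _)
        (hd _ (by
        rintro (k | k)
        · exact ha _
        · exact ha _))) rfl (by
          change Matrix.diagonal (fun k => a (e k)) = Matrix.diagonal _
          rw [h3]) x, h5, add_comm]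
    congr 1
    exact ih _ _ _ _

theorem scal_diagonal {r : Type} [Fintype r] [DecidableEq r] (i : S' →+* S) (a : r → S)
    (ha : ∀ k, IsUnit (a k)) (h1 : (Matrix.diagonal a)ᵀ = Matrix.diagonal a)
    (h2 : IsUnit (Matrix.diagonal a)) (x : L0 (GR S' π w) ε) :
    (CRep.scal i (Matrix.diagonal a) h1 h2).tr x = ∑ k, (CRep.scal1 i (a k) (ha k)).tr x := by
  have h3 := scal_reindex (Fintype.equivFin r).symm i a h1 h2 (Matrix.diagonal_transpose _)
    (by
      rw [Matrix.isUnit_diagonal]
      exact Pi.isUnit_iff.2 fun k => ha _) x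
  rw [h3, scal_diag_fin i x _ _ fun k => ha _]
  exact Equiv.sum_comp (Fintype.equivFin r).symm fun k => (CRep.scal1 i (a k) (ha k)).tr x

/-- Over the reals only the sign of `a` matters. -/
theorem scal1_real (i : S' →+* ℝ) (a : ℝ) (ha : IsUnit a) :
    ∃ σ : ℤˣ, ∀ (π : Type u) [Group π] (w : π →* ℤˣ) (ε : ℤˣ) (x : L0 (GR S' π w) ε),
      (CRep.scal1 i a ha).tr x = (σ : ℤ) • L0.co i x := by
  have h0 : a ≠ 0 := ha.ne_zero
  have hu : ∀ b : ℝ, 0 < b → IsUnit (√b) := fun b hb => (Real.sqrt_pos.2 hb).ne'.isUnit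
  have key : ∀ b : ℝ, 0 < b → ∀ hb : IsUnit b, ∀ (π : Type u) [Group π] (w : π →* ℤˣ) (ε : ℤˣ)
      (x : L0 (GR S' π w) ε), (CRep.scal1 i b hb).tr x = L0.co i x := by
    intro b hb hb' π _ w ε x
    have h1 : b = 1 * √b ^ 2 := by rw [Real.sq_sqrt hb.le, one_mul]
    have h2 : IsUnit (1 * √b ^ 2) := h1 ▸ hb'
    rw [scal1_congr i h1 hb' h2, scal1_sq i 1 _ isUnit_one (hu b hb), scal1_one]
  rcases lt_or_gt_of_ne h0 with h | h
  · refine ⟨-1, fun π _ w ε x => ?_⟩
    have h3 : IsUnit (-a) := ha.neg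
    rw [scal1_congr i (neg_neg a).symm ha h3.neg, scal1_neg i (-a) h3, key (-a) (by linarith) h3]
    rw [Units.val_neg, Units.val_one, neg_smul, one_smul]
  · refine ⟨1, fun π _ w ε x => ?_⟩
    rw [key a h ha, Units.val_one, one_smul]

end Pool.Agent.H17.LTh
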