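import Mathlib

/-!
MP_c13a79_gt, coefficient theorem: an adapted basis (module Vbas; Mathlib only).

PLAN. `ℝ^n = ℝ v ⊕ ker wt` (`x = (wt·x) v + (x - (wt·x) v)`). Let `u_1, …, u_m` be a basis of the
kernel of `x ↦ wt ⬝ᵥ x` (`Module.finBasis`), `V` the matrix with columns `v, u_1, …, u_m`;
`V' x = (wt·x, coordinates of x - (wt·x) v)`.
-/

set_option autoImplicit false

namespace Pool.Agent.H17.LTh

open Matrix

private noncomputable def vb_f {n : ℕ} (wt : Fin n → ℝ) : (Fin n → ℝ) →ₗ[ℝ] ℝ where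
  toFun x := wt ⬝ᵥ x
  map_add' x y := dotProduct_add _ _ _
  map_smul' c x := dotProduct_smul _ _ _

private theorem vb_mem {n : ℕ} (v wt : Fin n → ℝ) (h : wt ⬝ᵥ v = 1) (x : Fin n → ℝ) :
    x - (wt ⬝ᵥ x) • v ∈ LinearMap.ker (vb_f wt) := by
  rw [LinearMap.mem_ker]
  change wt ⬝ᵥ (x - (wt ⬝ᵥ x) • v) = 0
  rw [dotProduct_sub, dotProduct_smul, h, smul_eq_mul, mul_one, sub_self]

private noncomputable def vb_q {n : ℕ} (v wt : Fin n → ℝ) (h : wt ⬝ᵥ v = 1) :
    (Fin n → ℝ) →ₗ[ℝ] LinearMap.ker (vb_f wt) where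
  toFun x := ⟨x - (wt ⬝ᵥ x) • v, vb_mem v wt h x⟩
  map_add' x y := by
    apply Subtype.ext
    change x + y - (wt ⬝ᵥ (x + y)) • v = (x - (wt ⬝ᵥ x) • v) + (y - (wt ⬝ᵥ y) • v)
    rw [dotProduct_add, add_smul]
    abel
  map_smul' c x := by
    apply Subtype.ext
    change c • x - (wt ⬝ᵥ (c • x)) • v = c • (x - (wt ⬝ᵥ x) • v)
    rw [dotProduct_smul, smul_sub, smul_smul, smul_eq_mul]

private theorem vb_coe {n : ℕ} (v wt : Fin n → ℝ) (h : wt ⬝ᵥ v = 1) (x : Fin n → ℝ) :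
    (vb_q v wt h x : Fin n → ℝ) = x - (wt ⬝ᵥ x) • v := rfl

private theorem vb_sum {n : ℕ} (g : (Fin n → ℝ) →ₗ[ℝ] ℝ) (x : Fin n → ℝ) :
    ∑ i, g (Pi.single i 1) * x i = g x := by
  have h1 : x = ∑ i, x i • (Pi.single i (1 : ℝ) : Fin n → ℝ) := by
    funext k
    rw [Finset.sum_apply, Finset.sum_eq_single k]
    · rw [Pi.smul_apply, Pi.single_eq_same, smul_eq_mul, mul_one]
    · intro b _ hb
      rw [Pi.smul_apply, Pi.single_eq_of_ne (Ne.symm hb), smul_zero]
    · simp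
  conv_rhs => rw [h1, map_sum]
  refine Finset.sum_congr rfl fun i _ => ?_
  rw [map_smul, smul_eq_mul, mul_comm]

theorem vbas {n : ℕ} (v wt : Fin n → ℝ) (h : wt ⬝ᵥ v = 1) :
    ∃ (m : ℕ) (V : Matrix (Fin n) (Unit ⊕ Fin m) ℝ) (V' : Matrix (Unit ⊕ Fin m) (Fin n) ℝ),
      V * V' = 1 ∧ V' * V = 1 ∧ (∀ i, V i (Sum.inl ()) = v i) ∧
      ∀ i, V' (Sum.inl ()) i = wt i := by
  classical
  let b := Module.finBasis ℝ (LinearMap.ker (vb_f wt))
  let q := vb_q v wt h
  let c : ∀ j, (Fin n → ℝ) →ₗ[ℝ] ℝ := fun j => (b.coord j).comp q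
  have hb : ∀ j, wt ⬝ᵥ (b j : Fin n → ℝ) = 0 := fun j => (b j).2
  have hqb : ∀ j, q (b j : Fin n → ℝ) = b j := by
    intro j
    apply Subtype.ext
    rw [vb_coe, hb, zero_smul, sub_zero]
  have hqv : q v = 0 := by
    apply Subtype.ext
    rw [vb_coe, h, one_smul, sub_self]
    rfl
  refine ⟨_, Matrix.of fun i => Sum.elim (fun _ => v i) (fun j => (b j : Fin n → ℝ) i),
    Matrix.of (Sum.elim (fun _ i => wt i) fun j i => c j (Pi.single i 1)), ?_, ?_,
    fun i => rfl, fun i => rfl⟩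
  · ext i k
    rw [Matrix.mul_apply, Fintype.sum_sum_type]
    simp only [Matrix.of_apply, Sum.elim_inl, Sum.elim_inr, Finset.univ_unique,
      Finset.sum_singleton]
    have h1 : (∑ j, c j (Pi.single k 1) • (b j : Fin n → ℝ)) =
        Pi.single k 1 - (wt ⬝ᵥ Pi.single k 1) • v := by
      have h2 := congrArg Subtype.val (b.sum_repr (q (Pi.single k 1)))
      rw [AddSubmonoidClass.coe_finsetSum] at h2
      rw [← vb_coe v wt h]
      exact h2
    have h2 := congrFun h1 i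
    rw [Finset.sum_apply, Pi.sub_apply, Pi.smul_apply, dotProduct_single, mul_one, smul_eq_mul] at h2
    have h3 : ∑ j, (b j : Fin n → ℝ) i * c j (Pi.single k 1) =
        ∑ j, (c j (Pi.single k 1) • (b j : Fin n → ℝ)) i :=
      Finset.sum_congr rfl fun j _ => by rw [Pi.smul_apply, smul_eq_mul, mul_comm]
    rw [h3, h2, Matrix.one_apply, Pi.single_apply]
    ring
  · ext i k
    rw [Matrix.mul_apply]
    rcases i with ⟨⟩ | i <;> rcases k with ⟨⟩ | k <;>
      simp only [Matrix.of_apply, Sum.elim_inl, Sum.elim_inr]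
    · rw [Matrix.one_apply_eq]
      exact h
    · rw [Matrix.one_apply_ne (by simp)]
      exact hb k
    · rw [Matrix.one_apply_ne (by simp), vb_sum (c i) v]
      change b.coord i (q v) = 0
      rw [hqv, map_zero]
    · rw [vb_sum (c i) (b k : Fin n → ℝ)]
      change b.coord i (q (b k : Fin n → ℝ)) = _
      rw [hqb, Module.Basis.coord_apply, Module.Basis.repr_self, Finsupp.single_apply,
        Matrix.one_apply]
      by_cases hik : i = k
      · subst hik
        simp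
      · rw [if_neg (fun h => hik h.symm), if_neg (fun h => hik (Sum.inr_injective h))]

end Pool.Agent.H17.LTh
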