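import Pool.Agent.H17.L0.Scal
import Pool.Agent.H17.L0.Vbas

/-!
MP_c13a79_gt, coefficient theorem: splitting off a simple eigenvector (module SplitB).

`D : CRep E ℝ (Fin n)`, `v` a common eigenvector of all `ρ(x)` with eigenvalue `τ(x)`, `wt` a common
left eigenvector, `wt·v = 1`, `P v = a wt`, `a ≠ 0`, `D''` the same representation with
`P'' = P (1 - 2 v wtᵀ)`. Then `D.tr - D''.tr = 2 σ τ_*` with `σ` the sign of `a`.

PLAN. Take `V`, `V'` of `vbas`. `V' ρ(x) V = fromBlocks (τ x) 0 0 (ρ₂ x)` (first column: `ρ(x) v =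
τ(x) v`; first row: `wtᵀ ρ(x) = τ(x) wtᵀ`), `Vᵀ P V = fromBlocks a 0 0 P₂` (first column
`Vᵀ P v = a Vᵀ wt = a e_1`, symmetric), and `Vᵀ P'' V = fromBlocks (-a) 0 0 P₂` (`P'' = P - 2 a wt
wtᵀ`). Define `D₂ : CRep E ℝ (Fin m)` by `ρ₂(x) = lower right block of V' ρ(x) V` (a ring
homomorphism because the products of the block matrices are block diagonal) and `P₂` (a unit because
`Vᵀ P V` is). By `tr_conj` and `tr_sum`: `D.tr x = (scal1 τ a).tr x + D₂.tr x`,
`D''.tr x = (scal1 τ (-a)).tr x + D₂.tr x`; conclude with `scal1_neg`, `scal1_real`.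
-/

set_option autoImplicit false

namespace Pool.Agent.H17.LTh

open Matrix

universe u

private abbrev spe (m : ℕ) : Unit ⊕ Fin m → ℝ := Pi.single (Sum.inl ()) 1

private theorem sp_block {m : ℕ} (A : Matrix (Unit ⊕ Fin m) (Unit ⊕ Fin m) ℝ) (t : ℝ)
    (h1 : A *ᵥ spe m = t • spe m) (h2 : spe m ᵥ* A = t • spe m) :
    A = fromBlocks (Matrix.diagonal fun _ => t) 0 0 A.toBlocks₂₂ := by
  have e1 : ∀ i, A i (Sum.inl ()) = t * spe m i := by
    intro i
    have := congrFun h1 i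
    rw [Matrix.mulVec_single_one] at this
    simpa using this
  have e2 : ∀ j, A (Sum.inl ()) j = t * spe m j := by
    intro j
    have := congrFun h2 j
    rw [Matrix.single_one_vecMul] at this
    simpa using this
  ext i j
  rcases i with ⟨⟩ | i
  · rcases j with ⟨⟩ | j
    · rw [e1]; simp [spe]
    · rw [e2]; simp [spe]
  · rcases j with ⟨⟩ | j
    · rw [e1]; simp [spe]
    · rfl

theorem splitB {E : Type} [CommRing E] {n : ℕ} (D D'' : CRep E ℝ (Fin n)) (τ : E →+* ℝ)
    (v wt : Fin n → ℝ) (a : ℝ) (ha : a ≠ 0) (hwv : wt ⬝ᵥ v = 1)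
    (hv : ∀ x, D.ρ x *ᵥ v = τ x • v) (hw : ∀ x, wt ᵥ* D.ρ x = τ x • wt)
    (hP : D.P *ᵥ v = a • wt) (hρ : D''.ρ = D.ρ)
    (hP'' : D''.P = D.P * (1 - (2 : ℝ) • vecMulVec v wt)) :
    ∃ σ : ℤˣ, ∀ (π : Type u) [Group π] (w : π →* ℤˣ) (ε : ℤˣ) (x : L0 (GR E π w) ε),
      D.tr x - D''.tr x = (2 * (σ : ℤ)) • L0.co τ x := by
  obtain ⟨m, V, V', hVV', hV'V, hVv, hV'w⟩ := vbas v wt hwv
  have hVe : V *ᵥ spe m = v := by
    funext i
    rw [Matrix.mulVec_single_one]
    exact hVv i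
  have heV' : spe m ᵥ* V' = wt := by
    funext i
    rw [Matrix.single_one_vecMul]
    exact hV'w i
  have hV've : V' *ᵥ v = spe m := by
    rw [← hVe, Matrix.mulVec_mulVec, hV'V, Matrix.one_mulVec]
  have hwV : wt ᵥ* V = spe m := by
    rw [← heV', Matrix.vecMul_vecMul, hV'V, Matrix.vecMul_one]
  -- the matrices
  let M : E → Matrix (Unit ⊕ Fin m) (Unit ⊕ Fin m) ℝ := fun x => V' * D.ρ x * V
  let Q : Matrix (Unit ⊕ Fin m) (Unit ⊕ Fin m) ℝ := Vᵀ * D.P * V
  have hM : ∀ x, M x = fromBlocks (Matrix.diagonal fun _ => τ x) 0 0 (M x).toBlocks₂₂ := by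
    intro x
    refine sp_block (M x) (τ x) ?_ ?_
    · change (V' * D.ρ x * V) *ᵥ spe m = _
      rw [← Matrix.mulVec_mulVec, hVe, ← Matrix.mulVec_mulVec, hv, Matrix.mulVec_smul, hV've]
    · change spe m ᵥ* (V' * D.ρ x * V) = _
      rw [← Matrix.vecMul_vecMul, ← Matrix.vecMul_vecMul, heV', hw, Matrix.smul_vecMul, hwV]
  have hQe : Q *ᵥ spe m = a • spe m := by
    change (Vᵀ * D.P * V) *ᵥ spe m = _
    rw [← Matrix.mulVec_mulVec, hVe, ← Matrix.mulVec_mulVec, hP, Matrix.mulVec_smul,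
      Matrix.mulVec_transpose, hwV]
  have hQs : Qᵀ = Q := by
    change (Vᵀ * D.P * V)ᵀ = Vᵀ * D.P * V
    rw [Matrix.transpose_mul, Matrix.transpose_mul, Matrix.transpose_transpose, D.symm,
      Matrix.mul_assoc]
  have heQ : spe m ᵥ* Q = a • spe m := by
    rw [← hQs, Matrix.vecMul_transpose, hQe]
  have hQ : Q = fromBlocks (Matrix.diagonal fun _ => a) 0 0 Q.toBlocks₂₂ :=
    sp_block Q a hQe heQ
  have hQu : IsUnit Q := by
    have h1 : Q * (V' * D.P⁻¹ * V'ᵀ) = 1 := by
      have hd : IsUnit D.P.det := (Matrix.isUnit_iff_isUnit_det _).1 D.unit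
      calc Vᵀ * D.P * V * (V' * D.P⁻¹ * V'ᵀ) = Vᵀ * D.P * (V * V') * D.P⁻¹ * V'ᵀ := by
            simp only [Matrix.mul_assoc]
        _ = Vᵀ * (D.P * D.P⁻¹) * V'ᵀ := by rw [hVV', Matrix.mul_one]; simp only [Matrix.mul_assoc]
        _ = (V' * V)ᵀ := by rw [Matrix.mul_nonsing_inv _ hd, Matrix.mul_one, Matrix.transpose_mul]
        _ = 1 := by rw [hV'V, Matrix.transpose_one]
    exact (Matrix.isUnit_iff_isUnit_det _).2 (Matrix.isUnit_det_of_right_inverse h1)
  have hMmul : ∀ x y, M (x * y) = M x * M y := by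
    intro x y
    change V' * D.ρ (x * y) * V = V' * D.ρ x * V * (V' * D.ρ y * V)
    calc V' * D.ρ (x * y) * V = V' * D.ρ x * (1 : Matrix (Fin n) (Fin n) ℝ) * D.ρ y * V := by
          rw [map_mul, Matrix.mul_one]; simp only [Matrix.mul_assoc]
      _ = V' * D.ρ x * V * (V' * D.ρ y * V) := by
          rw [← hVV']; simp only [Matrix.mul_assoc]
  have hM1 : M 1 = 1 := by
    change V' * D.ρ 1 * V = 1
    rw [map_one, Matrix.mul_one, hV'V]
  have hadj : ∀ x, Q * M x = (M x)ᵀ * Q := by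
    intro x
    change Vᵀ * D.P * V * (V' * D.ρ x * V) = (V' * D.ρ x * V)ᵀ * (Vᵀ * D.P * V)
    calc Vᵀ * D.P * V * (V' * D.ρ x * V) = Vᵀ * D.P * (V * V') * D.ρ x * V := by
          simp only [Matrix.mul_assoc]
      _ = Vᵀ * (D.P * D.ρ x) * V := by rw [hVV', Matrix.mul_one]; simp only [Matrix.mul_assoc]
      _ = Vᵀ * ((D.ρ x)ᵀ * D.P) * V := by rw [D.adj]
      _ = Vᵀ * (D.ρ x)ᵀ * (V * V')ᵀ * D.P * V := by
          rw [hVV', Matrix.transpose_one, Matrix.mul_one]; simp only [Matrix.mul_assoc]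
      _ = (V' * D.ρ x * V)ᵀ * (Vᵀ * D.P * V) := by
          rw [Matrix.transpose_mul, Matrix.transpose_mul, Matrix.transpose_mul]
          simp only [Matrix.mul_assoc]
  let D₂ : CRep E ℝ (Fin m) :=
    { ρ :=
        { toFun := fun x => (M x).toBlocks₂₂
          map_one' := by
            rw [hM1]
            ext i j
            simp [Matrix.toBlocks₂₂, Matrix.one_apply]
          map_mul' := fun x y => by
            rw [hMmul]
            have h1 := congrArg Matrix.toBlocks₂₂ (congrArg₂ (· * ·) (hM x) (hM y))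
            simp only [Matrix.fromBlocks_multiply, Matrix.toBlocks_fromBlocks₂₂,
              Matrix.mul_zero, zero_add] at h1
            exact h1
          map_zero' := by
            change (V' * D.ρ 0 * V).toBlocks₂₂ = 0
            rw [map_zero, Matrix.mul_zero, Matrix.zero_mul]
            rfl
          map_add' := fun x y => by
            change (V' * D.ρ (x + y) * V).toBlocks₂₂ = _
            rw [map_add, Matrix.mul_add, Matrix.add_mul]
            rfl }
      P := Q.toBlocks₂₂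
      symm := by
        ext i j
        exact congrFun (congrFun hQs (Sum.inr i)) (Sum.inr j)
      unit := by
        have h1 : IsUnit Q.det := (Matrix.isUnit_iff_isUnit_det _).1 hQu
        rw [hQ, Matrix.det_fromBlocks_zero₂₁] at h1
        exact (Matrix.isUnit_iff_isUnit_det _).2 (isUnit_of_mul_isUnit_right h1)
      adj := fun x => by
        change Q.toBlocks₂₂ * (M x).toBlocks₂₂ = ((M x).toBlocks₂₂)ᵀ * Q.toBlocks₂₂
        have h1 := hadj x
        rw [hM x, hQ, Matrix.fromBlocks_transpose, Matrix.fromBlocks_multiply,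
          Matrix.fromBlocks_multiply] at h1
        have h2 := congrArg Matrix.toBlocks₂₂ h1
        simp only [Matrix.toBlocks_fromBlocks₂₂, Matrix.mul_zero, zero_add,
          Matrix.transpose_zero, Matrix.zero_mul] at h2
        exact h2 }
  have hau : IsUnit a := isUnit_iff_ne_zero.2 ha
  have hau' : IsUnit (-a) := hau.neg
  have hρV : ∀ x, D.ρ x * V = V * M x := by
    intro x
    change D.ρ x * V = V * (V' * D.ρ x * V)
    calc D.ρ x * V = (V * V') * D.ρ x * V := by rw [hVV', Matrix.one_mul]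
      _ = V * (V' * D.ρ x * V) := by simp only [Matrix.mul_assoc]
  obtain ⟨σ, hσ⟩ := scal1_real.{u} τ a hau
  refine ⟨σ, fun π _ w ε x => ?_⟩
  have t1 : D.tr x = ((CRep.scal1 τ a hau).sum D₂).tr x :=
    tr_conj D ((CRep.scal1 τ a hau).sum D₂) V V' hVV' hV'V
      (fun y => by rw [hρV y]; exact congrArg (V * ·) (hM y)) hQ x
  have hQ'' : Vᵀ * D''.P * V = fromBlocks (Matrix.diagonal fun _ => -a) 0 0 Q.toBlocks₂₂ := by
    have h1 : Vᵀ * D''.P * V = Q - (2 : ℝ) • (a • vecMulVec (spe m) (spe m)) := by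
      rw [hP'', Matrix.mul_sub, Matrix.mul_one, Matrix.mul_sub, Matrix.sub_mul]
      congr 1
      rw [Matrix.mul_smul, Matrix.mul_smul, Matrix.smul_mul]
      congr 1
      rw [Matrix.mul_vecMulVec, hP, Matrix.mul_vecMulVec, Matrix.vecMulVec_mul, hwV,
        Matrix.mulVec_smul, Matrix.mulVec_transpose, hwV]
      ext i j
      simp [vecMulVec_apply, mul_assoc]
    rw [h1]
    have h2 := hQ
    ext i j
    have h3 := congrFun (congrFun h2 i) j
    rw [Matrix.sub_apply, Matrix.smul_apply, Matrix.smul_apply, vecMulVec_apply, h3]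
    rcases i with ⟨⟩ | i
    · rcases j with ⟨⟩ | j
      · simp [spe]; ring
      · simp [spe]
    · rcases j with ⟨⟩ | j
      · simp [spe]
      · simp [spe]
  have t2 : D''.tr x = ((CRep.scal1 τ (-a) hau').sum D₂).tr x :=
    tr_conj D'' ((CRep.scal1 τ (-a) hau').sum D₂) V V' hVV' hV'V
      (fun y => by rw [hρ, hρV y]; exact congrArg (V * ·) (hM y)) hQ'' x
  rw [t1, t2, tr_sum, tr_sum, scal1_neg τ a hau hau', hσ π w ε x, mul_smul, two_smul]
  abel

end Pool.Agent.H17.LTh
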