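import Pool.Agent.H17.L0.TrA

/-!
MP_c13a79_gt, coefficient theorem: the homomorphism `L0.tr D : L₀(A') → L₀(A)` of a hermitian
representation `D`.
-/

set_option autoImplicit false

namespace Pool.Agent.H17.LTh

open Matrix

universe u v

variable {A' : Type u} {A : Type v} [Ring A'] [StarRing A'] [Ring A] [StarRing A] {r : Type}
  [Fintype r] [DecidableEq r] (D : Rep A' A r) {ε : ℤˣ}

/-- The form `(P ρ(ψ_ij))`. -/
def Form.tr (X : Form A' ε) : Form A ε where
  ι := X.ι × r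
  ψ := D.fo X.ψ
  nonsing := by
    rw [D.sy_fo]
    exact D.isUnit_fo X.nonsing

theorem Form.Stab.tr {X Y : Form A' ε} (h : X.Stab Y) : (X.tr D).Stab (Y.tr D) := by
  obtain ⟨m, n, h⟩ := h
  have key : ∀ (U : Form A' ε) (a : ℕ), IsoQ ε (D.fo (dsum U.ψ (hypM A' (Fin a))))
      (dsum (U.tr D).ψ (hypM A (Fin a × r))) := fun U a =>
    (D.fo_dsum _ _).trans ((IsoQ.refl _).dsum (D.fo_hyp (Fin a)))
  exact .of_types ((key X m).symm.trans ((D.fo_iso h).trans (key Y n)))

/-- The homomorphism `L₀(A') → L₀(A)` given by a hermitian representation. -/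
def L0.tr : L0 A' ε →+ L0 A ε where
  toFun := Quotient.map (Form.tr D) fun _ _ h => Form.Stab.tr D h
  map_zero' := by
    exact Form.cls_eq.2 (.of_iso (IsoQ.empty (ι := Empty × r) (κ := Empty) _ _))
  map_add' := by
    rintro ⟨X⟩ ⟨Y⟩
    exact Form.cls_eq.2 (.of_iso (D.fo_dsum _ _))

theorem L0.tr_cls (X : Form A' ε) : L0.tr D X.cls = (X.tr D).cls := rfl

end Pool.Agent.H17.LTh
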