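import Pool.Agent.H17.L0.Defs

/-!
MP_c13a79_gt, coefficient theorem: hermitian representations (module TrA).

`D : Rep A' A r` is a ring homomorphism `ρ : A' → M_r(A)` with an invertible `P = P*` in `M_r(A)`
such that `P ρ(a*) = ρ(a)* P`. It sends a form `M` over `A'` on `ι` to the form
`D.fo M = (P ρ(M_ij))` over `A` on `ι × r`.

PLAN. `ap_mul`, `ap_one`, `fo_add`, ... : entrywise. `fo_conj`: the block `(k,l)` of
`fo (gᴴ M g')` is `P ∑ ρ(g_ak)* .. = ∑ ρ(g_ak)ᴴ P ρ(M_ab) ρ(g'_bl)` by `adj`. `fo_dsum`: reindex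
with `Equiv.sumProdDistrib ι κ r : (ι ⊕ κ) × r ≃ ι × r ⊕ κ × r` (`IsoQ.reindex`). `fo_hyp`: after the
same reindexing the form is `fromBlocks 0 b 0 0`, `b = (1 ⊗ P)`, apply `lag` (α = 0).
-/

set_option autoImplicit false

namespace Pool.Agent.H17.LTh

open Matrix

universe u v

/-- A hermitian representation of `A'` over `A`. -/
structure Rep (A' : Type u) (A : Type v) [Ring A'] [StarRing A'] [Ring A] [StarRing A] (r : Type)
    [Fintype r] [DecidableEq r] where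
  /-- the representation -/
  ρ : A' →+* Matrix r r A
  /-- the form -/
  P : Matrix r r A
  sa : Pᴴ = P
  unit : IsUnit P
  adj : ∀ a, P * ρ (star a) = (ρ a)ᴴ * P

variable {A' : Type u} {A : Type v} [Ring A'] [StarRing A'] [Ring A] [StarRing A] {r : Type}
  [Fintype r] [DecidableEq r] (D : Rep A' A r)
  {ι κ μ ν : Type} [Fintype ι] [DecidableEq ι] [Fintype κ] [DecidableEq κ] [Fintype μ]
  [DecidableEq μ] [Fintype ν] [DecidableEq ν] {ε : ℤˣ}

/-- The block matrix `(ρ(M_ij))`. -/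
def Rep.ap {ι κ : Type} (M : Matrix ι κ A') : Matrix (ι × r) (κ × r) A :=
  Matrix.of fun x y => D.ρ (M x.1 y.1) x.2 y.2

/-- The block matrix `(P ρ(M_ij))`. -/
def Rep.fo {ι κ : Type} (M : Matrix ι κ A') : Matrix (ι × r) (κ × r) A :=
  Matrix.of fun x y => (D.P * D.ρ (M x.1 y.1)) x.2 y.2

theorem Rep.ap_mul (M : Matrix ι κ A') (N : Matrix κ μ A') : D.ap (M * N) = D.ap M * D.ap N := by
  ext x y
  simp only [Rep.ap, Matrix.of_apply, Matrix.mul_apply, map_sum, map_mul, Matrix.sum_apply,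
    Fintype.sum_prod_type]

theorem Rep.ap_one : D.ap (1 : Matrix ι ι A') = 1 := by
  ext ⟨i, a⟩ ⟨j, b⟩
  simp only [Rep.ap, Matrix.of_apply]
  by_cases h : i = j
  · subst h
    rw [Matrix.one_apply_eq, map_one]
    by_cases h' : a = b
    · subst h'
      rw [Matrix.one_apply_eq, Matrix.one_apply_eq]
    · rw [Matrix.one_apply_ne h', Matrix.one_apply_ne]
      intro h2
      exact h' (congrArg Prod.snd h2)
  · rw [Matrix.one_apply_ne h, map_zero, Matrix.zero_apply, Matrix.one_apply_ne]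
    intro h2
    exact h (congrArg Prod.fst h2)

theorem Rep.fo_add (M N : Matrix ι κ A') : D.fo (M + N) = D.fo M + D.fo N := by
  ext x y
  simp only [Rep.fo, Matrix.of_apply, Matrix.add_apply, map_add, Matrix.mul_add]

theorem Rep.fo_sub (M N : Matrix ι κ A') : D.fo (M - N) = D.fo M - D.fo N := by
  ext x y
  simp only [Rep.fo, Matrix.of_apply, Matrix.sub_apply, map_sub, Matrix.mul_sub]

theorem Rep.fo_neg (M : Matrix ι κ A') : D.fo (-M) = -D.fo M := by
  ext x y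
  simp only [Rep.fo, Matrix.of_apply, Matrix.neg_apply, map_neg, Matrix.mul_neg]

theorem Rep.fo_zero : D.fo (0 : Matrix ι κ A') = 0 := by
  ext x y
  simp only [Rep.fo, Matrix.of_apply, Matrix.zero_apply, map_zero, Matrix.mul_zero]

theorem Rep.fo_zsmul (n : ℤ) (M : Matrix ι κ A') : D.fo (n • M) = n • D.fo M := by
  ext x y
  simp only [Rep.fo, Matrix.of_apply, Matrix.smul_apply, map_zsmul, Matrix.mul_smul]

theorem Rep.fo_star (M : Matrix ι κ A') : D.fo Mᴴ = (D.fo M)ᴴ := by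
  ext x y
  simp only [Rep.fo, Matrix.of_apply, Matrix.conjTranspose_apply]
  rw [D.adj, ← Matrix.conjTranspose_apply (D.P * D.ρ (M y.1 x.1)) y.2 x.2,
    Matrix.conjTranspose_mul, D.sa]

private theorem Rep.fo_mul (M : Matrix ι κ A') (N : Matrix κ μ A') :
    D.fo (M * N) = D.fo M * D.ap N := by
  ext x y
  simp only [Rep.ap, Rep.fo, Matrix.of_apply]
  rw [Matrix.mul_apply (M := M), map_sum, Matrix.mul_sum, Matrix.sum_apply,
    Matrix.mul_apply (N := Matrix.of _), Fintype.sum_prod_type]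
  refine Finset.sum_congr rfl fun k _ => ?_
  rw [map_mul, ← Matrix.mul_assoc, Matrix.mul_apply]
  rfl

private theorem Rep.fo_mulL (g : Matrix ι κ A') (M : Matrix ι μ A') :
    D.fo (gᴴ * M) = (D.ap g)ᴴ * D.fo M := by
  have h : gᴴ * M = (Mᴴ * g)ᴴ := by
    rw [Matrix.conjTranspose_mul, Matrix.conjTranspose_conjTranspose]
  rw [h, D.fo_star, D.fo_mul, Matrix.conjTranspose_mul, D.fo_star,
    Matrix.conjTranspose_conjTranspose]

theorem Rep.fo_conj (g : Matrix ι κ A') (M : Matrix ι μ A') (g' : Matrix μ ν A') :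
    D.fo (gᴴ * M * g') = (D.ap g)ᴴ * D.fo M * D.ap g' := by
  rw [D.fo_mul, D.fo_mulL]

theorem Rep.sy_fo (M : Matrix ι ι A') : sy ε (D.fo M) = D.fo (sy ε M) := by
  unfold sy
  rw [D.fo_add, D.fo_zsmul, D.fo_star]

/-- the block diagonal matrix -/
private def bd (ι : Type) [DecidableEq ι] (X : Matrix r r A) : Matrix (ι × r) (ι × r) A :=
  Matrix.of fun x y => if x.1 = y.1 then X x.2 y.2 else 0

omit [StarRing A] in
private theorem bd_mul (ι : Type) [Fintype ι] [DecidableEq ι] (X Y : Matrix r r A) :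
    bd ι X * bd ι Y = bd ι (X * Y) := by
  ext ⟨i, a⟩ ⟨j, b⟩
  rw [Matrix.mul_apply, Fintype.sum_prod_type]
  simp only [bd, Matrix.of_apply]
  rw [Finset.sum_eq_single i]
  · by_cases h : i = j
    · subst h
      simp only [if_true, Matrix.mul_apply]
    · simp only [h, if_true, if_false, mul_zero, Finset.sum_const_zero]
  · intro k _ hk
    simp only [Ne.symm hk, if_false, zero_mul, Finset.sum_const_zero]
  · intro h
    exact absurd (Finset.mem_univ i) h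

omit [StarRing A] in
private theorem bd_one (ι : Type) [Fintype ι] [DecidableEq ι] :
    bd ι (1 : Matrix r r A) = 1 := by
  ext ⟨i, a⟩ ⟨j, b⟩
  simp only [bd, Matrix.of_apply, Matrix.one_apply, Prod.mk.injEq]
  by_cases h : i = j <;> by_cases h' : a = b <;> simp [h, h']

private theorem Rep.fo_one : D.fo (1 : Matrix ι ι A') = bd ι D.P := by
  ext ⟨i, a⟩ ⟨j, b⟩
  simp only [Rep.fo, bd, Matrix.of_apply]
  by_cases h : i = j
  · subst h
    rw [Matrix.one_apply_eq, map_one, Matrix.mul_one, if_pos rfl]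
  · rw [Matrix.one_apply_ne h, map_zero, Matrix.mul_zero, Matrix.zero_apply, if_neg h]

private theorem Rep.isUnit_fo_one (ι : Type) [Fintype ι] [DecidableEq ι] :
    IsUnit (D.fo (1 : Matrix ι ι A')) := by
  obtain ⟨u, hu⟩ := D.unit
  rw [D.fo_one]
  refine ⟨⟨bd ι D.P, bd ι (u⁻¹).1, ?_, ?_⟩, rfl⟩
  · rw [bd_mul, ← hu, Units.mul_inv, bd_one]
  · rw [bd_mul, ← hu, Units.inv_mul, bd_one]

/-- `fo M = (1 ⊗ P) · ap M` is invertible with `M`. -/
theorem Rep.isUnit_fo {M : Matrix ι ι A'} (h : IsUnit M) : IsUnit (D.fo M) := by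
  obtain ⟨u, rfl⟩ := h
  have h1 : D.fo u.1 = D.fo (1 : Matrix ι ι A') * D.ap u.1 := by
    rw [← D.fo_mul, Matrix.one_mul]
  rw [h1]
  refine (D.isUnit_fo_one ι).mul ⟨⟨D.ap u.1, D.ap (u⁻¹).1, ?_, ?_⟩, rfl⟩
  · rw [← D.ap_mul, Units.mul_inv, D.ap_one]
  · rw [← D.ap_mul, Units.inv_mul, D.ap_one]

theorem Rep.fo_iso {ψ : Matrix ι ι A'} {φ : Matrix κ κ A'} (h : IsoQ ε ψ φ) :
    IsoQ ε (D.fo ψ) (D.fo φ) := by
  obtain ⟨g, h, α, h1, h2, h3⟩ := h
  refine ⟨D.ap g, D.ap h, D.fo α, ?_, ?_, ?_⟩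
  · rw [← D.ap_mul, h1, D.ap_one]
  · rw [← D.ap_mul, h2, D.ap_one]
  · rw [← D.fo_conj, h3, D.fo_add, D.fo_sub, D.fo_zsmul, D.fo_star]

theorem Rep.fo_dsum (ψ : Matrix ι ι A') (φ : Matrix κ κ A') :
    IsoQ ε (D.fo (dsum ψ φ)) (dsum (D.fo ψ) (D.fo φ)) := by
  refine (IsoQ.reindex (Equiv.sumProdDistrib ι κ r).symm _).trans (IsoQ.of_eq ?_)
  ext x y
  rcases x with ⟨i, a⟩ | ⟨i, a⟩ <;> rcases y with ⟨j, b⟩ | ⟨j, b⟩ <;>
    simp [LTh.dsum, Rep.fo]

theorem Rep.fo_hyp (κ : Type) [Fintype κ] [DecidableEq κ] :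
    IsoQ ε (D.fo (hypM A' κ)) (hypM A (κ × r)) := by
  obtain ⟨u, hu⟩ := D.isUnit_fo_one κ
  have h1 : (D.fo (hypM A' κ)).submatrix (Equiv.sumProdDistrib κ κ r).symm
      (Equiv.sumProdDistrib κ κ r).symm =
      fromBlocks ((0 : Matrix (κ × r) (κ × r) A) - (ε : ℤ) • (0 : Matrix (κ × r) (κ × r) A)ᴴ)
        (D.fo (1 : Matrix κ κ A')) 0 0 := by
    ext x y
    rcases x with ⟨i, a⟩ | ⟨i, a⟩ <;> rcases y with ⟨j, b⟩ | ⟨j, b⟩ <;>
      simp [hypM, Rep.fo]
  refine (IsoQ.reindex (Equiv.sumProdDistrib κ κ r).symm _).trans ?_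
  rw [h1]
  refine lag (u⁻¹).1 ?_ ?_
  · rw [← hu, Matrix.conjTranspose_zero, smul_zero, add_zero, Units.mul_inv]
  · rw [← hu, Matrix.conjTranspose_zero, smul_zero, add_zero, Units.inv_mul]

end Pool.Agent.H17.LTh
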