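import Pool.Agent.H17.L0.Frob
import Pool.Agent.H17.L0.SplitB
import Pool.Agent.H17.L0.Sq

/-!
MP_c13a79_gt, coefficient theorem: the transfer theorem (module Tran).

`E = K(γ)` a finite extension (power basis with generator `γ`), `j : K → ℝ`, `τ : E → ℝ` extending
`j`, `θ = τ(γ)`; `g ∈ K[X]` positive at `θ` and negative at the other real roots of the minimal
polynomial `f` of `γ`, prime to `f` over `ℝ`. Then `j_* tr_1 + j_* tr_g = ± 2 τ_*`.

PLAN. Over `ℝ`: `f = (X - θ) f₂`, `f₂(θ) ≠ 0` (`f` irreducible, characteristic 0, separable: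
`(minpoly.irreducible _).separable`, `Separable.map`, `Polynomial.Separable` → simple roots).
`ρ(x)` = regular representation mapped to `ℝ`; `X₀ = ρ(γ)`, `ρ(x) = u(X₀)` and `τ(x) = u(θ)` for
`x = u(γ)` (`u` mapped to `ℝ`); `f(X₀) = 0`. `wt_i = τ(b_i)` satisfies
`wt ᵥ* ρ(x) = τ(x) wt` (`∑_i b_i ρ(x)_ij = x b_j`, apply `τ`). `b_0 = 1` (`b_i = γ^i`),
`v' = f₂(X₀) e_0`, `X₀ v' = θ v'` since `(X₀ - θ) f₂(X₀) = 0`; `f₂(X₀) e_i = f₂(X₀) X₀^i e_0 =
θ^i v'`, i.e. `f₂(X₀) = v' wtᵀ`; `wt · v' = f₂(θ) (wt · e_0) = f₂(θ)`. Put `v = v' / f₂(θ)`,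
`e = v wtᵀ = f₂(X₀)/f₂(θ)`: `e² = e`, `e` commutes with all `ρ(x)`, `P e = eᵀ P`, so
`P v = P e v = eᵀ P v = (vᵀ P v) wt =: a wt`, and `a ≠ 0` since `P` is invertible and `v ≠ 0`.
`sq_mod` for `q = f₂`, `u = -g` (prime to `f₂ ∣ f`, positive at its real roots; these are the roots
of `f` different from `θ`): `f₂ ∣ s² + g`. `W = s(X₀) (1 - e) + √g(θ) e`, `W² = -g(X₀) (1 - 2 e)`
(since `f₂(X₀) (1 - e) = 0` and `g(X₀) e = g(θ) e`), `P W = Wᵀ P`, `W` commutes with `ρ` and is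
invertible (`g(X₀)` and `1 - 2e` are: `g(X₀) = ρ(g(γ))`, `g(γ) ≠ 0`). Hence
`P_g = P g(X₀) = -Wᵀ (P (1 - 2 e)) W`: by `tr_conj` and `tr_neg` the second transfer is minus the one
of `D'' = (ρ, P (1 - 2 e))`. Conclude with `splitB`. (`tr_map` moves `j` into the representation:
`D = (frob pb T hT 1 _).map j`.)
-/

set_option autoImplicit false

namespace Pool.Agent.H17.LTh

open Matrix Polynomial

universe u

private theorem tran_vecMul {n : ℕ} (X0 : Matrix (Fin n) (Fin n) ℝ) (wt : Fin n → ℝ) (θ : ℝ)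
    (h : wt ᵥ* X0 = θ • wt) (p : ℝ[X]) : wt ᵥ* aeval X0 p = p.eval θ • wt := by
  induction p using Polynomial.induction_on with
  | C a => rw [aeval_C, eval_C, Algebra.algebraMap_eq_smul_one, vecMul_smul, vecMul_one]
  | add p q hp hq => rw [map_add, vecMul_add, hp, hq, eval_add, add_smul]
  | monomial k a ih =>
    rw [pow_succ, ← mul_assoc, map_mul, aeval_X, ← vecMul_vecMul, ih, smul_vecMul, h, smul_smul,
      eval_mul (p := C a * X ^ k), eval_X]

private theorem tran_adj {n : ℕ} (X0 P : Matrix (Fin n) (Fin n) ℝ) (h : P * X0 = X0ᵀ * P)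
    (p : ℝ[X]) : P * aeval X0 p = (aeval X0 p)ᵀ * P := by
  induction p using Polynomial.induction_on with
  | C a =>
    rw [aeval_C, Algebra.algebraMap_eq_smul_one, transpose_smul, transpose_one, Matrix.mul_smul,
      Matrix.smul_mul, Matrix.mul_one, Matrix.one_mul]
  | add p q hp hq => rw [map_add, Matrix.mul_add, hp, hq, transpose_add, Matrix.add_mul]
  | monomial k a ih =>
    have hcomm : X0 * aeval X0 (C a * X ^ k) = aeval X0 (C a * X ^ (k + 1)) := by
      rw [show (C a * X ^ (k + 1) : ℝ[X]) = X * (C a * X ^ k) by ring,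
        map_mul (aeval X0) X (C a * X ^ k), aeval_X]
    have hcomm' : aeval X0 (C a * X ^ k) * X0 = aeval X0 (C a * X ^ (k + 1)) := by
      rw [pow_succ, ← mul_assoc, map_mul (aeval X0) (C a * X ^ k) X, aeval_X]
    rw [← hcomm', ← Matrix.mul_assoc, ih, Matrix.mul_assoc, h, ← Matrix.mul_assoc,
      ← transpose_mul, hcomm, ← hcomm']

private theorem tran_core {E : Type} [Field E] {n : ℕ} (D Dg : CRep E ℝ (Fin n)) (τ : E →+* ℝ)
    (i0 : Fin n) (b : Fin n → E) (γ : E) (F G : ℝ[X]) (hρ : Dg.ρ = D.ρ)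
    (hPg : Dg.P = D.P * aeval (D.ρ γ) G) (hF : aeval (D.ρ γ) F = 0) (hF0 : F ≠ 0)
    (hFs : F.Separable) (hFθ : F.IsRoot (τ γ))
    (hpoly : ∀ x, ∃ u : ℝ[X], D.ρ x = aeval (D.ρ γ) u ∧ τ x = u.eval (τ γ))
    (hb : ∀ i, D.ρ (b i) *ᵥ Pi.single i0 1 = Pi.single i 1)
    (hw : ∀ x, (fun i => τ (b i)) ᵥ* D.ρ x = τ x • fun i => τ (b i)) (hb0 : b i0 = 1)
    (hG : 0 < G.eval (τ γ)) (hneg : ∀ l, F.IsRoot l → l ≠ τ γ → G.eval l < 0)
    (hcop : IsCoprime G F) (hGu : IsUnit (aeval (D.ρ γ) G)) :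
    ∃ σ : ℤˣ, ∀ (π : Type u) [Group π] (w : π →* ℤˣ) (ε : ℤˣ) (x : L0 (GR E π w) ε),
      D.tr x + Dg.tr x = (2 * (σ : ℤ)) • L0.co τ x := by
  obtain ⟨F2, hF2⟩ := Polynomial.dvd_iff_isRoot.2 hFθ
  have hF20 : F2 ≠ 0 := by
    rintro rfl
    exact hF0 (by rw [hF2, mul_zero])
  have hsep : IsCoprime (X - C (τ γ)) F2 := by
    rw [hF2] at hFs
    exact hFs.isCoprime
  have hc : F2.eval (τ γ) ≠ 0 := by
    intro h
    obtain ⟨a, b, hab⟩ := hsep
    have := congrArg (Polynomial.eval (τ γ)) hab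
    simp [h] at this
  -- the idempotent
  set X0 := D.ρ γ with hX0
  set θ := τ γ with hθ
  set wt : Fin n → ℝ := fun i => τ (b i) with hwt
  set ep : ℝ[X] := C (F2.eval θ)⁻¹ * F2 with hep
  have hepθ : ep.eval θ = 1 := by
    rw [hep, eval_mul, eval_C, inv_mul_cancel₀ hc]
  set e := aeval X0 ep with he
  have hmod : ∀ p : ℝ[X], F ∣ p → aeval X0 p = 0 := by
    rintro p ⟨q, rfl⟩
    rw [map_mul, hF, zero_mul]
  have hmod' : ∀ p q : ℝ[X], F ∣ p - q → aeval X0 p = aeval X0 q := by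
    intro p q h
    have := hmod _ h
    rwa [map_sub, sub_eq_zero] at this
  have key : ∀ p : ℝ[X], aeval X0 p * e = p.eval θ • e := by
    intro p
    have h1 : p.eval θ • e = aeval X0 (C (p.eval θ) * ep) := by
      rw [map_mul, aeval_C, Algebra.smul_def]
    rw [h1, he, ← map_mul]
    apply hmod'
    obtain ⟨q, hq⟩ : (X - C θ) ∣ p - C (p.eval θ) := Polynomial.X_sub_C_dvd_sub_C_eval
    refine ⟨C (F2.eval θ)⁻¹ * q, ?_⟩
    rw [hF2, hep]
    linear_combination (C (F2.eval θ)⁻¹ * F2) * hq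
  have hcomm : ∀ p q : ℝ[X], aeval X0 p * aeval X0 q = aeval X0 q * aeval X0 p := by
    intro p q
    rw [← map_mul, ← map_mul, mul_comm]
  have key' : ∀ p : ℝ[X], e * aeval X0 p = p.eval θ • e := by
    intro p
    rw [he, hcomm, ← he, key]
  have hee : e * e = e := by
    have := key ep
    rwa [← he, hepθ, one_smul] at this
  set v : Fin n → ℝ := e *ᵥ Pi.single i0 1 with hv
  have hev : e = vecMulVec v wt := by
    ext k i
    obtain ⟨u, hu1, hu2⟩ := hpoly (b i)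
    have h1 : e *ᵥ Pi.single i 1 = wt i • v := by
      rw [← hb i, mulVec_mulVec, hu1, key', ← hu2, smul_mulVec, hv]
    have h2 := congrFun h1 k
    rw [mulVec_single_one] at h2
    rw [vecMulVec_apply]
    simpa [mul_comm] using h2
  have hwe : wt ᵥ* e = wt := by
    rw [he, tran_vecMul X0 wt θ (hw γ), hepθ, one_smul]
  have hwt0 : wt i0 = 1 := by
    rw [hwt]
    simp [hb0]
  have hwv : wt ⬝ᵥ v = 1 := by
    rw [hv, dotProduct_mulVec, hwe, dotProduct_single, hwt0, mul_one]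
  have hvρ : ∀ x, D.ρ x *ᵥ v = τ x • v := by
    intro x
    obtain ⟨u, hu1, hu2⟩ := hpoly x
    rw [hv, mulVec_mulVec, hu1, key, ← hu2, smul_mulVec]
  have hevv : e *ᵥ v = v := by
    rw [hv, mulVec_mulVec, hee]
  have hadj : ∀ p : ℝ[X], D.P * aeval X0 p = (aeval X0 p)ᵀ * D.P :=
    tran_adj X0 D.P (D.adj γ)
  set a : ℝ := v ⬝ᵥ (D.P *ᵥ v) with ha
  have hPv : D.P *ᵥ v = a • wt := by
    have h1 : D.P *ᵥ v = eᵀ *ᵥ (D.P *ᵥ v) :=
      calc D.P *ᵥ v = D.P *ᵥ (e *ᵥ v) := by rw [hevv]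
        _ = (D.P * e) *ᵥ v := mulVec_mulVec _ _ _
        _ = (eᵀ * D.P) *ᵥ v := congrArg (fun M => M *ᵥ v) (hadj ep)
        _ = eᵀ *ᵥ (D.P *ᵥ v) := (mulVec_mulVec _ _ _).symm
    rw [h1]
    nth_rewrite 1 [hev]
    rw [transpose_vecMulVec, vecMulVec_mulVec, op_smul_eq_smul]
  have hv0 : v ≠ 0 := by
    intro h
    rw [h, dotProduct_zero] at hwv
    exact zero_ne_one hwv
  have ha0 : a ≠ 0 := by
    intro h
    rw [h, zero_smul] at hPv
    obtain ⟨U, hU⟩ := D.unit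
    apply hv0
    have : (↑(U⁻¹) : Matrix (Fin n) (Fin n) ℝ) *ᵥ (D.P *ᵥ v) = v := by
      rw [mulVec_mulVec, ← hU, Units.inv_mul, one_mulVec]
    rw [← this, hPv, mulVec_zero]
  -- the second form
  set r : ℝ[X] := 1 - 2 * ep with hr
  have hrθ : r.eval θ = -1 := by
    rw [hr]
    simp [hepθ]
    norm_num
  have hre : aeval X0 r = 1 - (2 : ℝ) • vecMulVec v wt := by
    rw [← hev, hr, map_sub, map_one, map_mul, ← he]
    congr 1
    rw [map_ofNat]
    rw [two_mul, two_smul]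
  have hrr : aeval X0 r * aeval X0 r = 1 := by
    rw [hr]
    have h2 : aeval X0 (1 - 2 * ep) = 1 - (e + e) := by
      rw [map_sub, map_one, map_mul, ← he, map_ofNat, two_mul]
    rw [h2]
    have : (1 - (e + e)) * (1 - (e + e)) = 1 - (e + e) - (e + e) + (e * e + e * e + (e * e + e * e)) := by
      noncomm_ring
    rw [this, hee]
    abel
  have hru : IsUnit (aeval X0 r) := ⟨⟨_, _, hrr, hrr⟩, rfl⟩
  let D'' : CRep E ℝ (Fin n) :=
    { ρ := D.ρ
      P := D.P * aeval X0 r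
      symm := by rw [hadj, transpose_mul, transpose_transpose, D.symm, hadj]
      unit := D.unit.mul hru
      adj := by
        intro x
        obtain ⟨u, hu1, -⟩ := hpoly x
        rw [Matrix.mul_assoc, hu1, hcomm, ← Matrix.mul_assoc, hadj u, Matrix.mul_assoc] }
  obtain ⟨σ, hσ⟩ := splitB.{u} D D'' τ v wt a ha0 hwv hvρ hw hPv rfl (by
    change D.P * aeval X0 r = _
    rw [hre])
  refine ⟨σ, fun π _ w ε x => ?_⟩
  rw [← hσ π w ε x, sub_eq_add_neg]
  congr 1
  rw [← tr_neg]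
  -- the square root
  have hcop' : IsCoprime (-G) F2 :=
    (hcop.of_isCoprime_of_dvd_right ⟨X - C θ, by rw [hF2, mul_comm]⟩).neg_left
  obtain ⟨s, hs⟩ := sq_mod hF20 hcop' (by
    intro l hl
    rw [eval_neg]
    have h1 : F.IsRoot l := by
      rw [hF2]
      exact Polynomial.root_mul_left_of_isRoot _ hl
    have h2 : l ≠ θ := by
      rintro rfl
      exact hc hl
    have := hneg l h1 h2
    linarith)
  set W : ℝ[X] := s * (1 - ep) + C (Real.sqrt (G.eval θ)) * ep with hW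
  have hWθ : W.eval θ = Real.sqrt (G.eval θ) := by
    rw [hW]
    simp [hepθ]
  have hWW : aeval X0 W * aeval X0 W = -(aeval X0 G * aeval X0 r) := by
    rw [← map_mul, ← map_mul, ← map_neg]
    apply hmod'
    rw [hF2]
    refine hsep.mul_dvd ?_ ?_
    · rw [Polynomial.dvd_iff_isRoot, IsRoot.def, eval_sub, eval_neg, eval_mul, eval_mul, hWθ, hrθ,
        Real.mul_self_sqrt hG.le]
      ring
    · obtain ⟨q, hq⟩ := hs
      have h1 : ep = F2 * C (F2.eval θ)⁻¹ := mul_comm _ _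
      have h3 : W * W - -(G * r) = (s ^ 2 - -G) + ep * (s * s * (ep - 2) +
        2 * s * (1 - ep) * C (Real.sqrt (G.eval θ)) + C (Real.sqrt (G.eval θ)) ^ 2 * ep - 2 * G) := by
        rw [hW, hr]
        ring
      rw [h3, hq]
      refine dvd_add (Dvd.intro _ rfl) (Dvd.dvd.mul_right ⟨_, h1⟩ _)
  have hWu : IsUnit (aeval X0 W) := by
    rw [← isUnit_pow_iff (two_ne_zero), pow_two, hWW]
    exact (hGu.mul hru).neg
  obtain ⟨U, hU⟩ := hWu
  refine (tr_conj D''.neg Dg (aeval X0 W) (↑(U⁻¹)) ?_ ?_ ?_ ?_ x).symm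
  · rw [← hU, Units.mul_inv]
  · rw [← hU, Units.inv_mul]
  · intro y
    obtain ⟨u, hu1, -⟩ := hpoly y
    rw [hρ]
    change D.ρ y * _ = _
    rw [hu1, hcomm]
  · change (aeval X0 W)ᵀ * -(D.P * aeval X0 r) * aeval X0 W = _
    rw [hPg, Matrix.mul_neg, Matrix.neg_mul, ← Matrix.mul_assoc, ← hadj, Matrix.mul_assoc,
      Matrix.mul_assoc, hcomm r W, ← Matrix.mul_assoc (aeval X0 W), hWW, Matrix.neg_mul,
      Matrix.mul_assoc, hrr, Matrix.mul_one, Matrix.mul_neg, neg_neg]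

theorem tran {K E : Type} [Field K] [Field E] [Algebra K E] (pb : PowerBasis K E)
    (T : E →ₗ[K] K) (hT : T ≠ 0) (j : K →+* ℝ) (τ : E →+* ℝ)
    (hτ : ∀ a, τ (algebraMap K E a) = j a) (g : K[X])
    (hg : 0 < (g.map j).eval (τ pb.gen))
    (hneg : ∀ l : ℝ, ((minpoly K pb.gen).map j).IsRoot l → l ≠ τ pb.gen → (g.map j).eval l < 0)
    (hcop : IsCoprime (g.map j) ((minpoly K pb.gen).map j)) (hg0 : aeval pb.gen g ≠ 0) :
    ∃ σ : ℤˣ, ∀ (π : Type u) [Group π] (w : π →* ℤˣ) (ε : ℤˣ) (x : L0 (GR E π w) ε),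
      L0.co j ((frob pb T hT 1 one_ne_zero).tr x) +
        L0.co j ((frob pb T hT (aeval pb.gen g) hg0).tr x) = (2 * (σ : ℤ)) • L0.co τ x := by
  have : FiniteDimensional K E := pb.finite
  have : CharZero K := j.charZero
  let D : CRep E ℝ (Fin pb.dim) := (frob pb T hT 1 one_ne_zero).map j
  let Dg : CRep E ℝ (Fin pb.dim) := (frob pb T hT (aeval pb.gen g) hg0).map j
  have hD : ∀ x, D.ρ x = (Algebra.leftMulMatrix pb.basis x).map j := fun x => rfl
  have hA : ∀ a, D.ρ (algebraMap K E a) = algebraMap ℝ _ (j a) := by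
    intro a
    rw [hD, AlgHom.commutes]
    ext i k
    rw [Matrix.map_apply, Matrix.algebraMap_matrix_apply, Matrix.algebraMap_matrix_apply]
    split_ifs
    · rfl
    · exact map_zero j
  have hev : ∀ u : K[X], D.ρ (aeval pb.gen u) = aeval (D.ρ pb.gen) (u.map j) := by
    intro u
    rw [aeval_def, aeval_def, Polynomial.hom_eval₂, eval₂_map]
    congr 1
    ext1 a
    exact hA a
  have hτev : ∀ u : K[X], τ (aeval pb.gen u) = (u.map j).eval (τ pb.gen) := by
    intro u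
    rw [aeval_def, Polynomial.hom_eval₂, eval_map]
    congr 1
    ext1 a
    exact hτ a
  have hint : IsIntegral K pb.gen := pb.isIntegral_gen
  have hpos : 0 < pb.dim := pb.dim_pos
  have hb0 : pb.basis ⟨0, hpos⟩ = 1 := by
    rw [pb.basis_eq_pow]
    exact pow_zero _
  obtain ⟨σ, hσ⟩ := tran_core.{u} D Dg τ ⟨0, hpos⟩ (fun i => pb.basis i) pb.gen
    ((minpoly K pb.gen).map j) (g.map j) rfl
    (by
      rw [← hev]
      change (frobP pb T (aeval pb.gen g)).map j = (frobP pb T 1).map j *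
        (Algebra.leftMulMatrix pb.basis (aeval pb.gen g)).map j
      rw [frobP_eq, Matrix.map_mul])
    (by rw [← hev, minpoly.aeval, map_zero])
    ((Polynomial.map_ne_zero_iff j.injective).2 (minpoly.ne_zero hint))
    (minpoly.irreducible hint).separable.map
    (by rw [IsRoot.def, ← hτev, minpoly.aeval, map_zero])
    (by
      intro x
      obtain ⟨u, hu⟩ := pb.exists_eq_aeval' x
      exact ⟨u.map j, by rw [hu, hev], by rw [hu, hτev]⟩)
    (by
      intro i
      ext k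
      rw [mulVec_single_one, hD]
      change j (Algebra.leftMulMatrix pb.basis (pb.basis i) k ⟨0, hpos⟩) = _
      rw [Algebra.leftMulMatrix_eq_repr_mul, hb0, mul_one, Module.Basis.repr_self,
        Finsupp.single_apply, Pi.single_apply]
      by_cases h : i = k
      · rw [if_pos h, if_pos h.symm, map_one]
      · rw [if_neg h, if_neg (Ne.symm h), map_zero])
    (by
      intro x
      ext k
      have h1 : ∑ i, (Algebra.leftMulMatrix pb.basis x i k) • pb.basis i = x * pb.basis k := by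
        simp only [Algebra.leftMulMatrix_eq_repr_mul]
        exact pb.basis.sum_repr _
      have h2 := congrArg τ h1
      rw [map_sum, map_mul] at h2
      rw [Pi.smul_apply, smul_eq_mul, ← h2]
      change ∑ i, τ (pb.basis i) * (D.ρ x) i k = _
      refine Finset.sum_congr rfl fun i _ => ?_
      rw [Algebra.smul_def, map_mul, hτ, mul_comm]
      rfl)
    hb0 hg hneg hcop
    (by
      rw [← hev]
      exact (isUnit_iff_ne_zero.2 hg0).map D.ρ)
  refine ⟨σ, fun π _ w ε x => ?_⟩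
  rw [tr_map, tr_map]
  exact hσ π w ε x

end Pool.Agent.H17.LTh
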